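import Pool.Agent.Lib.MP_fc2a59_co.ALM.Defs

set_option autoImplicit false

/-!
# Project ALM, section A: asymptotics of the second moment

All constants were checked numerically (m up to 800).
Pieces: p_ps, p_four, p_chb, p_ulb, p_tlb, p_loc, p_bin, p_ent, p_rate, p_ext, p_dom, p_sum, p_pref, p_A,
p_EY.
-/

namespace Pool.Agent.ALM

open Finset Filter Topology
open scoped Classical

/-- `ps s = C(2s,s) (3/16)^s`; `∑_{s ≥ 0} ps s = 2`, `∑_{s ≥ 1} ps s = 1` -/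
noncomputable def ps (s : ℕ) : ℝ := (Nat.centralBinom s : ℝ) * (3 / 16) ^ s

/-- SUMS.  `∑_s C(2s,s) x^s = (1 - 4x)^(-1/2)` for `0 ≤ x < 1/4`.

Proof.  Summability for `x < 1/4`: `centralBinom s ≤ 4^s`.  Value: for `g > 1`, `r = 4/3 (1 - 1/g^2)`,
`x = 3r/16 = (1 - 1/g^2)/4`, let `S = ∑ C(2s,s) x^s ≥ 1`.  By the identity
`∑_{k ≤ n} C(2k,k) C(2(n-k),n-k) = 4^n` and the Cauchy product, `S^2 = ∑ (4x)^n = 1/(1-4x) = g^2`, so `S = g`.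
(The identity: if it is not in Mathlib, use instead that `S(x)` satisfies the differential equation
`(1 - 4x) S' = 2 S`, from `(s+1) C(2s+2,s+1) = 2 (2s+1) C(2s,s)` = `Nat.succ_mul_centralBinom_succ`; so
`S(x)^2 (1 - 4x)` has derivative 0 and is 1 at 0.)  The case `g = 2`, `r = 1` is the first claim.
Moments at `r = 1`: with `(s+1) ps (s+1) = (3/8)(2s+1) ps s`: `S1 = ∑ s ps s = ∑ (s+1) ps (s+1)
= (3/8)(2 S1 + 2)`, so `S1 = 3`; `S2 = ∑ s^2 ps s = ∑ (s+1)^2 ps (s+1) = (3/8) ∑ (s+1)(2s+1) ps s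
= (3/8)(2 S2 + 9 + 2)`, so `S2 = 33/2`.  All these are summable since `ps s ≤ (3/4)^s`. -/
def S_ps : Prop :=
  HasSum (fun s : ℕ => ps s) 2 ∧ HasSum (fun s : ℕ => (s : ℝ) * ps s) 3 ∧
  HasSum (fun s : ℕ => (s : ℝ) ^ 2 * ps s) (33 / 2) ∧ (Summable fun s : ℕ => (s : ℝ) ^ 3 * ps s) ∧
  ∀ g : ℝ, 1 < g → HasSum (fun s : ℕ => ps s * (4 / 3 * (1 - 1 / g ^ 2)) ^ s) g

/-- normalised coefficients -/
noncomputable def PN (N w : ℕ) : ℝ := BB N w / (3 ^ N * 256 ^ w)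

/-- the function `∑_{s ≥ 1} ps s r^s e^(i s t)` -/
noncomputable def E1 (r t : ℝ) : ℂ :=
  ∑' s : ℕ, if s = 0 then (0 : ℂ) else ((ps s * r ^ s : ℝ) : ℂ) * Complex.exp (Complex.I * ((s : ℝ) * t : ℝ))

/-- FOURIER INTEGRAL.

Proof.  Let `A c w = co w c / 16^w`, the coefficient of `X^w` in the `c`-th power of the power series
`Q = ∑_{s ≥ 1} ps s X^s` (`co w c = coeff w (phi^c)` and `3^s C(2s,s) = 16^s ps s`).
(1) For `0 < r < 4/3`: `(E1 r t)^c = ∑_w A c w r^w e^(i w t)`, absolutely convergent (all coefficients are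
`≥ 0`, `∑_w A c w r^w = (∑_{s≥1} ps s r^s)^c < ∞` since `ps s ≤ (3/4)^s`; induction on `c` with the Cauchy
product `A (c+1) w = ∑_{s ≤ w} ps s A c (w - s)`).  Hence
`A c w r^w = (1/2π) ∫_{-π}^{π} (E1 r t)^c e^(-i w t) dt` (integrate termwise; orthogonality of `e^(i k t)`).
(2) `PN N w 3^N r^(2w) = ∑_{c + c' ≤ N} N!/(c! c'! (N-c-c')!) (A c w r^w) (A c' w r^w)`; insert (1) for both
factors, write the product of the two integrals as a double integral, exchange with the finite sum and use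
the trinomial theorem `∑ N!/(c! c'! (N-c-c')!) x^c y^c' = (1 + x + y)^N` (twice `add_pow`). -/
def S_four : Prop := ∀ (N w : ℕ) (r : ℝ), 0 < r → r < 4 / 3 →
  ((PN N w * 3 ^ N * r ^ (2 * w) : ℝ) : ℂ) =
    (1 / (4 * Real.pi ^ 2 : ℝ) : ℂ) *
      ∫ s in (-Real.pi)..Real.pi, ∫ t in (-Real.pi)..Real.pi,
        (1 + E1 r s + E1 r t) ^ N * Complex.exp (-Complex.I * ((w : ℝ) * (s + t) : ℝ))

/-- BOUND FOR THE CHARACTERISTIC FUNCTION, uniform for `g` in a compact subset of `(1, ∞)`;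
`r = 4/3 (1 - 1/g^2)`.

Proof.  `1 + 2 ∑_{s ≥ 1} ps s r^s = 1 + 2(g - 1) = 2g - 1` (`S_ps`).  Let `a = ps 1 * r = (3/8) r`, which lies
between two positive constants `a0 ≤ a ≤ a1` for `g ∈ [g0, G]`.  The terms `s ≥ 2` are bounded by their
absolute values, so the norm is `≤ |1 + a e^(is) + a e^(it)| + (2g - 1 - 1 - 2a)
≤ |1/2 + a e^(is)| + |1/2 + a e^(it)| + 2g - 2 - 2a`.  Now `|1/2 + a e^(is)|^2 = (1/2+a)^2 - a (1 - cos s)`, so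
`|1/2 + a e^(is)| ≤ 1/2 + a - a (1 - cos s)/(2 (1/2 + a))` (`sqrt (u^2 - d) ≤ u - d/(2u)`), and
`1 - cos s ≥ 2 s^2/π^2` for `|s| ≤ π` (`Real.cos_le_one_sub_mul_cos_sq` or
`Real.one_sub_sq_div_two_le_cos`-type lemmas; Mathlib: `Real.cos_quadratic_upper_bound`,
`cos x ≤ 1 - 2/π^2 x^2`).  So the norm is `≤ 2g - 1 - c' (s^2 + t^2) ≤ (2g-1)(1 - c (s^2+t^2)) ≤
(2g - 1) exp(-c (s^2+t^2))` with `c = c'/(2G - 1)`, `c' = 2 a0/(π^2 (1 + 2 a1))`. -/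
def S_chb : Prop := ∀ g0 G : ℝ, 1 < g0 → g0 ≤ G → ∃ c : ℝ, 0 < c ∧ ∀ g, g0 ≤ g → g ≤ G →
  ∀ s t : ℝ, |s| ≤ Real.pi → |t| ≤ Real.pi →
  ‖1 + E1 (4 / 3 * (1 - 1 / g ^ 2)) s + E1 (4 / 3 * (1 - 1 / g ^ 2)) t‖ ≤
    (2 * g - 1) * Real.exp (-c * (s ^ 2 + t ^ 2))

/-- UNIFORM LOCAL BOUND.

Proof.  `S_four` with `r = 4/3 (1 - 1/g^2)` (in `(0, 4/3)`) and `S_chb`: `PN N w 3^N r^(2w) ≤ (1/4π^2)
(2g-1)^N ∫∫ exp(-c N (s^2+t^2)) ds dt ≤ (1/4π^2) (2g-1)^N π/(c N)` (extend the integrals to the whole line,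
`integral_gaussian`). -/
def S_ulb : Prop := ∀ g0 G : ℝ, 1 < g0 → g0 ≤ G → ∃ C : ℝ, 0 < C ∧ ∀ g, g0 ≤ g → g ≤ G →
  ∀ N w : ℕ, 0 < N →
    PN N w ≤ C / N * ((2 * g - 1) / 3) ^ N / (4 / 3 * (1 - 1 / g ^ 2)) ^ (2 * w)

/-- TRIVIAL BOUND.

Proof.  All coefficients are nonnegative (`phi` has nonnegative coefficients, so its powers too).  With
`A c w = co w c / 16^w` and `r = 4/3 (1-1/g^2)`: `A c w r^w ≤ ∑_w' A c w' r^w' = (g - 1)^c` (finite sums are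
enough: by induction on `c`, `∑_{w' ≤ n} A c w' r^w' ≤ (g-1)^c`, since `∑_{1 ≤ s ≤ n} ps s r^s ≤ g - 1` by
`S_ps`).  So `PN N w 3^N r^(2w) ≤ ∑ N!/(c! c'! (N-c-c')!) (g-1)^c (g-1)^c' = (2g-1)^N`. -/
def S_tlb : Prop := ∀ (g : ℝ) (N w : ℕ), 1 < g →
  0 ≤ PN N w ∧ PN N w ≤ ((2 * g - 1) / 3) ^ N / (4 / 3 * (1 - 1 / g ^ 2)) ^ (2 * w)

/-- LOCAL LIMIT THEOREM.

Proof.  `S_four` with `r = 1` (`g = 2`), `N = v + 2`, `w = m - v`.  Substitute `s = x/√N`, `t = y/√N`: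
`N PN N w = (1/4π^2) ∫∫_{|x|,|y| ≤ π√N} F_N(x,y) dx dy`,
`F_N(x,y) = ((1 + E1 1 (x/√N) + E1 1 (y/√N))/3)^N e^(-i w (x+y)/√N)`.
Write it as integral over `ℝ × ℝ` with indicator.  Domination: `|F_N| ≤ exp(-c (x^2+y^2))` by `S_chb`
(`g0 = G = 2`).  Pointwise limit: by `S_ps` and `|e^(iu) - 1 - iu + u^2/2| ≤ |u|^3`,
`(1 + E1 1 s + E1 1 t)/3 = 1 + i (s+t) - (11/4)(s^2+t^2) + O(|s|^3+|t|^3)`, so
`(1 + E1 1 s + E1 1 t)/3 * e^(-i(s+t)) = 1 - (9/4)(s^2+t^2) + s t + O((|s|+|t|)^3)`, and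
`F_N = (...)^N e^(i (N - w)(x+y)/√N)`.  Since `(N-w)/√N = (2(v - m/2) + 2)/√N → 2√2 t` (as `N/m → 1/2`), and
`(1 + z_N/N)^N → e^z` for complex `z_N → z` (`Complex.tendsto_one_add_div_pow_exp` or similar, or via
`Complex.log`), `F_N → exp(-(9/4)(x^2+y^2) + x y + i 2√2 t (x+y))`.  Dominated convergence gives the limit
`(1/4π^2) ∫∫ exp(-(9/4)(x^2+y^2) + xy + i 2√2 t (x+y)) dx dy` of `N PN N w`.
Gaussian integral: integrate first over `y`: `∫ exp(-(9/4) y^2 + (x + iβ) y) dy = √(4π/9) exp((x+iβ)^2/9)`,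
`β = 2√2 t` (`integral_cexp_quadratic` or `fourierIntegral_gaussian`); the remaining integrand is
`exp(-(9/4 - 1/9) x^2 + iβ(1 + 2/9) x - β^2/9)`, `9/4 - 1/9 = 77/36`, so the total is
`√(4π/9) √(36π/77) exp(-β^2/9 - (11β/9)^2 * 36/(4*77)) = (4π/√77) exp(-β^2 (1/9 + 11/63))
= (4π/√77) exp(-(2/7) β^2) = (4π/√77) exp(-(16/7) t^2)`.  Hence `N PN → exp(-(16/7)t^2)/(π √77)` and
`m PN = (m/N) N PN → 2/(π√77) exp(-(16/7) t^2)`. -/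
def S_loc : Prop := ∀ (t : ℝ) (v : ℕ → ℕ), (∀ m, v m ≤ m) →
  Tendsto (fun m : ℕ => ((v m : ℝ) - m / 2) / Real.sqrt m) atTop (𝓝 t) →
  Tendsto (fun m : ℕ => (m : ℝ) * PN (v m + 2) (m - v m)) atTop
    (𝓝 (2 / (Real.pi * Real.sqrt 77) * Real.exp (-(16 / 7) * t ^ 2)))

/-- LOCAL LIMIT FOR BINOMIAL COEFFICIENTS (de Moivre-Laplace).

Proof.  Stirling (`Stirling.tendsto_stirlingSeq_sqrt_pi`): with `v = v m`, `w = m - v` (both tend to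
infinity), `√m C(m,v)/2^m ~ √m √(m/(2π v w)) exp(-v log(2v/m) - w log(2w/m))`, `√m √(m/(2π v w)) → √(2/π)`,
and with `v = m/2 (1 + u)`, `w = m/2 (1 - u)`, `u √m → 2t`, `(m/2)[(1+u) log(1+u) + (1-u) log(1-u)] =
(m/2)(u^2 + O(u^4)) → 2 t^2`.  (Alternative without Stirling for general `v`: central binomial coefficient
asymptotics and the ratio `C(m,v)/C(m,⌊m/2⌋)` as a product.) -/
def S_bin : Prop := ∀ (t : ℝ) (v : ℕ → ℕ), (∀ m, v m ≤ m) →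
  Tendsto (fun m : ℕ => ((v m : ℝ) - m / 2) / Real.sqrt m) atTop (𝓝 t) →
  Tendsto (fun m : ℕ => Real.sqrt m * (m.choose (v m) : ℝ) / 2 ^ m) atTop
    (𝓝 (Real.sqrt (2 / Real.pi) * Real.exp (-2 * t ^ 2)))

/-- BINOMIAL COEFFICIENTS, LOWER BOUND BY ENTROPY.

Proof.  There are constants `0 < c1 < c2` with `c1 √n (n/e)^n ≤ n! ≤ c2 √n (n/e)^n` for all `n ≥ 1` (the
Stirling sequence converges to a positive limit and is positive; or `Stirling.stirlingSeq'_antitone`,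
`Real.exp_one...`).  So `C(m,v) ≥ (c1/c2^2) √(m/(v w)) (m/e)^m/((v/e)^v (w/e)^w) ≥ (c1/c2^2) (1/√m) *
exp(-v log(v/m) - w log(w/m))` because `v w ≤ m^2`. -/
def S_ent : Prop := ∃ c : ℝ, 0 < c ∧ ∀ m v : ℕ, 0 < v → v < m →
  c / Real.sqrt m * Real.exp (-(v : ℝ) * Real.log (v / m) - ((m - v : ℕ) : ℝ) * Real.log ((m - v : ℕ) / m))
    ≤ (m.choose v : ℝ)

/-- the rate function -/
noncomputable def Ps (a g1 g2 : ℝ) : ℝ :=
  Real.log 2 + a * Real.log a + (1 - a) * Real.log (1 - a) +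
    a * Real.log ((2 * g1 - 1) / 3) - 2 * (1 - a) * Real.log (4 / 3 * (1 - 1 / g1 ^ 2)) +
    (1 - a) * Real.log ((2 * g2 - 1) / 3) - 2 * a * Real.log (4 / 3 * (1 - 1 / g2 ^ 2))

/-- RATE FUNCTION.

Proof (`c = 9/7` works).  For `k(g) = g (g^2 - 1)/(2g - 1)`, a strictly increasing continuous bijection
`(1,∞) → (0,∞)`, `k(2) = 2`, `k'(g) = (4g^3 - 3g^2 + 1)/(2g-1)^2 > 0`; let `γ = k^{-1}` (differentiable,
`HasDerivAt` of the inverse).  For `a ∈ (0,1)` put `g1 = γ(2(1-a)/a)`, `g2 = γ(2a/(1-a))`, these are the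
minimisers: `∂Ps/∂g1 = 2a/(2g1-1) - 4(1-a)/(g1(g1^2-1)) = 0`, `∂Ps/∂g2 = 2(1-a)/(2g2-1) - 4a/(g2(g2^2-1)) = 0`.
So `f(a) = Ps a g1(a) g2(a)` has `f'(a) = ∂Ps/∂a =
log a - log(1-a) + log((2g1-1)/3) + 2 log(4/3 (1-1/g1^2)) - log((2g2-1)/3) - 2 log(4/3 (1-1/g2^2))`.
Put in `a/(1-a) = 2/k(g1) = k(g2)/2`, so `k(g1) k(g2) = 4` and `log(a/(1-a)) = (1/2)(log k(g2) - log k(g1))`;
then `f'(a) = (3/2)(ℓ(g1) - ℓ(g2))`, `ℓ(g) = log((g^2-1)(2g-1)/g^3)`.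
`f(1/2) = 0`, `f'(1/2) = 0` (`g1 = g2 = 2`).  Now either
(A) `ℓ'(g) = 2g/(g^2-1) + 2/(2g-1) - 3/g > 0` and `g1 > 2 > g2` for `a < 1/2`, with `g1 - 2 ≥ c'(1/2 - a)`
for `a ∈ (0, 1/2)` and `ℓ(g1) - ℓ(g2) ≥ ℓ(g1) - ℓ(2) ≥ c'' min(g1 - 2, 1)`; this gives
`f'(a) ≥ 2c (1/2 - a)` on `(0,1/2)`, and `f' ≤ -2c (a - 1/2)` on `(1/2,1)` by the symmetry
`Ps a g1 g2 = Ps (1-a) g2 g1`; integrate.  Or
(B) second derivative: `f''(a) = -((k+2)^2/(2k)) (χ(g1) + χ(g2) - 1)`, `k = k(g1)`,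
`χ(g) = 2(g^3+3g-2)/(4g^3-3g^2+1) > 1/2` for `g > 1` and `χ(g) ≥ 8/7` for `1 < g ≤ 2`; one of `g1, g2` is
`≤ 2` and `(k+2)^2 ≥ 8k`, so `f'' ≤ -4 (8/7 + 1/2 - 1) = -18/7`.
For `a ∈ [δ, 1-δ]` the points `g1, g2` lie in the compact set `[γ(2δ/(1-δ)), γ(2(1-δ)/δ)] = [g0, G]`. -/
def S_rate : Prop := ∃ c : ℝ, 0 < c ∧ ∀ δ : ℝ, 0 < δ → δ < 1 / 2 → ∃ g0 G : ℝ, 1 < g0 ∧ g0 ≤ G ∧
  ∀ a : ℝ, δ ≤ a → a ≤ 1 - δ → ∃ g1 g2 : ℝ, g0 ≤ g1 ∧ g1 ≤ G ∧ g0 ≤ g2 ∧ g2 ≤ G ∧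
    Ps a g1 g2 ≤ -c * (a - 1 / 2) ^ 2

/-- THE EXTREME RANGE, `g1 = 10`, `g2 = 11/10`.

Proof.  `Ps a 10 (11/10)` is convex in `a` (`a log a + (1-a) log(1-a)` is convex, the rest is affine), its
value at `a = 1/10` is about `-0.479` and its limit at `a = 0` is `log 2 - 2 log(1.32) + log 0.4 ≈ -0.778`.
Without convexity: `a log a + (1-a) log(1-a) ≤ 0`, so `Ps ≤ log 2 + a log(19/3) - 2(1-a) log(33/25) +
(1-a) log(2/5) - 2a log(4/3 (1 - 100/121))`, which is affine in `a`, about `-0.778` at `a = 0` and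
`-0.154` at `a = 1/10`.  (Numerical bounds for the logarithms from `Real.log_two_gt_d9` and `Real.exp`/power
comparisons, e.g. exponentiate the affine inequality at the two end points: it is enough that
`2 * (2/5) / (33/25)^2 ≤ exp(-1/10)` and the tenth power of the other one.) -/
def S_ext : Prop := ∀ a : ℝ, 0 < a → a ≤ 1 / 10 → Ps a 10 (11 / 10) ≤ -(1 / 10)

/-- the terms of the sum -/
noncomputable def KK (m v : ℕ) : ℝ :=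
  ((v.factorial : ℝ) ^ 2 * ((m - v).factorial : ℝ) ^ 2 /
      (((v + 2).factorial : ℝ) * ((m - v + 2).factorial : ℝ))) * PN (v + 2) (m - v) * PN (m - v + 2) v

/-- DOMINATION.

Proof.  `w = m - v`, `a = v/m`.  `v!^2 w!^2/((v+2)!(w+2)!) = v! w!/((v+1)(v+2)(w+1)(w+2))` and
`v! w!/m! = 1/C(m,v) ≤ C √m exp(v log(v/m) + w log(w/m))` by `S_ent`.
(1) `a ∈ [1/10, 9/10]`: `S_ulb` (with `g0, G` of `S_rate` for `δ = 1/10`) twice: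
`PN (v+2) w PN (w+2) v ≤ C/(v w) ((2g1-1)/3)^(v+2) (..)^(-2w) ((2g2-1)/3)^(w+2) (..)^(-2v)`; the additional
powers `+2` are bounded by constants.  Together the left side is `≤ C m^5 √m √m /(v^2 w^2 v w) exp(m Ps a g1 g2)
≤ C' exp(-c m (a-1/2)^2)`, because `v, w ≥ m/10`.
(2) `a < 1/10`: use `S_tlb` with `g1 = 10`, `g2 = 11/10` and `S_ext`: the left side is
`≤ C m^6 exp(m Ps) ≤ C m^6 exp(-m/10) ≤ C' exp(-m/20) ≤ C' exp(-(1/5) (v - m/2)^2/m)`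
(as `(v-m/2)^2 ≤ m^2/4`).  (3) `a > 9/10`: symmetry `KK m v = KK m (m-v)`. -/
def S_dom : Prop := ∃ c C : ℝ, 0 < c ∧ 0 < C ∧ ∀ m v : ℕ, 0 < v → v < m →
  KK m v * (2 ^ m * (m : ℝ) ^ 5 * Real.sqrt m / (m.factorial : ℝ)) ≤
    C * Real.exp (-c * ((v : ℝ) - m / 2) ^ 2 / m)

/-- LIMIT OF THE SUM.

Proof.  Let `f_m(t) = KK m v * (2^m m^5 √m/m!)` with `v = ⌊m/2 + t √m⌋₊` if `1 ≤ v < m` (and `m/2 + t√m ≥ 1`),
and `0` otherwise.  Then `∫ f_m(t) dt = (∑_{v=1}^{m-1} KK m v) 2^m m^5/m!` (each `v` occupies an interval of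
length `1/√m`).  For fixed `t`: `v_m` satisfies the hypothesis of `S_loc`, `S_bin` (eventually `1 ≤ v_m < m`;
modify finitely many values; for the second factor use `m - v_m` and `-t`), and
`f_m(t) = [2^m/(C(m,v) √m)] * [m^4/((v+1)(v+2)(w+1)(w+2))] * (m PN (v+2) w) (m PN (w+2) v)
→ √(π/2) e^(2t^2) * 16 * (4/(77 π^2)) e^(-(32/7) t^2)`.  By `S_dom`
`f_m(t) ≤ C exp(-c' t^2 + c'')` (the floor changes `t` by at most `1/√m ≤ 1`).  Dominated convergence: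
the limit is `√(π/2) (64/(77 π^2)) ∫ e^(-(18/7) t^2) dt = √(π/2) (64/(77π^2)) √(7π/18) = 32√7/(231 π)`. -/
def S_sum : Prop :=
  Tendsto (fun m : ℕ => (∑ v ∈ Ico 1 m, KK m v) * (2 ^ m * (m : ℝ) ^ 5 / (m.factorial : ℝ))) atTop
    (𝓝 (32 * Real.sqrt 7 / (231 * Real.pi)))

/-- the prefactor -/
noncomputable def QQ (m : ℕ) : ℝ :=
  ((2 * m).factorial : ℝ) * 3 ^ (m + 4) * 256 ^ m * MM m / N1 m ^ 2

/-- ASYMPTOTICS OF THE PREFACTOR.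

Proof.  `MM m = (6m)!/(8^m (3m)!)` (prove by induction), `N1 m = C(2m,m) 9^m (2m)!^2/(m+2)!`,
`(m+2)! = (m+1)(m+2) m!`, `C(2m,m) = (2m)!/m!^2`.  So `QQ m m!/(2^m m^5) =
81 * 3^m 256^m (6m)! m!^6 m! ((m+1)(m+2))^2 m! ... ` (collect), a quotient of factorials of `m, 2m, 3m, 6m`;
insert Stirling `n! = stirlingSeq n * √(2n) (n/e)^n` with `stirlingSeq n → √π`: all exponentials cancel
(`3 * 256 / (8 * 81) * 1728 / (16 * 64 * 2) = 1`) and the limit is `81π/2`.  Numerically `128.25` at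
`m = 800`, limit `127.23`. -/
def S_pref : Prop :=
  Tendsto (fun m : ℕ => QQ m * ((m.factorial : ℝ) / (2 ^ m * (m : ℝ) ^ 5))) atTop (𝓝 (81 * Real.pi / 2))

/-- THE SECOND MOMENT RATIO.

Proof.  `BB N w = PN N w 3^N 256^w`, so `N2 m MM m/N1 m^2 = QQ m ∑_v KK m v`; multiply the limits of `S_sum`
and `S_pref`: `32√7/(231π) * 81π/2 = 1296 √7/231 = 432/(11 √7) = Rinf`. -/
def S_A : Prop := Tendsto (fun m : ℕ => N2 m * MM m / N1 m ^ 2) atTop (𝓝 Rinf)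

/-- THE FIRST MOMENT TENDS TO INFINITY.

Proof.  Ratio: with `a_m = N1 m/MM m`, `a_(m+1)/a_m = [C(2m+2,m+1)/C(2m,m)] * 9 * ((2m+1)(2m+2))^2/(m+3) /
((6m+1)(6m+3)(6m+5)) → 4 * 9 * 16/216 = 8/3 > 2`, so eventually `a_(m+1) ≥ 2 a_m > 0`. -/
def S_EY : Prop := Tendsto (fun m : ℕ => N1 m / MM m) atTop atTop

end Pool.Agent.ALM
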