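import Pool.Agent.Lib.MP_fc2a59_co.ALM.A.Stm

set_option autoImplicit false

namespace Pool.Agent.ALM

open Finset Filter Topology
open scoped Classical

private theorem A_BB (N w : ℕ) : BB N w = PN N w * (3 ^ N * 256 ^ w) := by
  rw [PN, div_mul_cancel₀]
  positivity

private theorem A_term (m v : ℕ) (hv : v ∈ Ico 1 m) :
    ((v.factorial : ℝ) ^ 2 * ((m - v).factorial : ℝ) ^ 2 /
      (((v + 2).factorial : ℝ) * ((m - v + 2).factorial : ℝ))) * BB (v + 2) (m - v) *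
        BB (m - v + 2) v = KK m v * (3 ^ (m + 4) * 256 ^ m) := by
  have hm : v ≤ m := (mem_Ico.1 hv).2.le
  have e1 : (3 : ℝ) ^ (m + 4) = 3 ^ (v + 2) * 3 ^ (m - v + 2) := by
    rw [← pow_add]
    congr 1
    omega
  have e2 : (256 : ℝ) ^ m = 256 ^ (m - v) * 256 ^ v := by
    rw [← pow_add]
    congr 1
    omega
  rw [A_BB, A_BB, KK, e1, e2]
  ring

private theorem A_N2 (m : ℕ) : N2 m = ((2 * m).factorial : ℝ) * 3 ^ (m + 4) * 256 ^ m *
    ∑ v ∈ Ico 1 m, KK m v := by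
  rw [N2, Finset.sum_congr rfl (A_term m), ← Finset.sum_mul]
  ring

theorem p_A (h1 : S_sum) (h2 : S_pref) : S_A := by
  have h3 := Tendsto.mul h1 h2
  have e : 32 * Real.sqrt 7 / (231 * Real.pi) * (81 * Real.pi / 2) = Rinf := by
    have h7 : Real.sqrt 7 * Real.sqrt 7 = 7 := Real.mul_self_sqrt (by norm_num)
    have hs : Real.sqrt 7 ≠ 0 := by
      intro h
      rw [h, mul_zero] at h7
      norm_num at h7
    have hp : Real.pi ≠ 0 := Real.pi_ne_zero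
    rw [Rinf]
    field_simp
    nlinarith
  rw [e] at h3
  refine h3.congr' ?_
  filter_upwards [eventually_ge_atTop 1] with m hm
  have hf : (m.factorial : ℝ) ≠ 0 := Nat.cast_ne_zero.2 (Nat.factorial_ne_zero m)
  have hm0 : (m : ℝ) ≠ 0 := Nat.cast_ne_zero.2 (by omega)
  have h2' : (2 : ℝ) ^ m ≠ 0 := by positivity
  have key : (2 ^ m * (m : ℝ) ^ 5 / (m.factorial : ℝ)) * ((m.factorial : ℝ) / (2 ^ m * (m : ℝ) ^ 5)) = 1 := by
    field_simp
  calc (∑ v ∈ Ico 1 m, KK m v) * (2 ^ m * (m : ℝ) ^ 5 / (m.factorial : ℝ)) *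
        (QQ m * ((m.factorial : ℝ) / (2 ^ m * (m : ℝ) ^ 5)))
      = (∑ v ∈ Ico 1 m, KK m v) * QQ m * ((2 ^ m * (m : ℝ) ^ 5 / (m.factorial : ℝ)) *
        ((m.factorial : ℝ) / (2 ^ m * (m : ℝ) ^ 5))) := by ring
    _ = (∑ v ∈ Ico 1 m, KK m v) * QQ m := by rw [key, mul_one]
    _ = N2 m * MM m / N1 m ^ 2 := by
        rw [A_N2, QQ]
        ring

end Pool.Agent.ALM
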