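import Pool.Agent.Lib.MP_fc2a59_co.ALM.A.Stm
import Pool.Agent.Lib.MP_fc2a59_co.ALM.M.p_grow

set_option autoImplicit false

namespace Pool.Agent.ALM

theorem p_EY : S_EY := EY_of_grow

end Pool.Agent.ALM
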