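import Pool.Agent.Lib.MP_fc2a59_co.ALM.A.Stm

set_option autoImplicit false

namespace Pool.Agent.ALM

open Finset Filter Topology
open scoped Classical

namespace binX

theorem fact_eq (n : ℕ) (hn : 0 < n) : (n.factorial : ℝ) =
    Stirling.stirlingSeq n * (Real.sqrt (2 * n) * (n / Real.exp 1) ^ n) := by
  have h1 : (0 : ℝ) < n := by exact_mod_cast hn
  have h2 : (0 : ℝ) < Real.sqrt (2 * n) * (n / Real.exp 1) ^ n := by positivity
  unfold Stirling.stirlingSeq
  rw [div_mul_cancel₀ _ h2.ne']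

theorem key (v w : ℕ) (hv : 0 < v) (hw : 0 < w) :
    Real.sqrt ((v + w : ℕ) : ℝ) * ((v + w).choose v : ℝ) / 2 ^ (v + w) =
      (Stirling.stirlingSeq (v + w) / (Stirling.stirlingSeq v * Stirling.stirlingSeq w)) *
      (1 / (Real.sqrt 2 * Real.sqrt ((v : ℝ) / ((v + w : ℕ) : ℝ) * ((w : ℝ) / ((v + w : ℕ) : ℝ))))) *
      Real.exp (-((v : ℝ) * Real.log (2 * v / ((v + w : ℕ) : ℝ)) +
        (w : ℝ) * Real.log (2 * w / ((v + w : ℕ) : ℝ)))) := by
  have hv' : (0 : ℝ) < v := by exact_mod_cast hv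
  have hw' : (0 : ℝ) < w := by exact_mod_cast hw
  have hm : 0 < v + w := by omega
  set m : ℕ := v + w with hmdef
  have hm' : (0 : ℝ) < m := by exact_mod_cast hm
  have hS : ∀ n : ℕ, 0 < n → 0 < Stirling.stirlingSeq n := by
    intro n hn
    have h1 : (0 : ℝ) < n := by exact_mod_cast hn
    unfold Stirling.stirlingSeq
    positivity
  have hSv := hS v hv
  have hSw := hS w hw
  have hSm := hS m hm
  have hch : ((m.choose v : ℕ) : ℝ) = (m.factorial : ℝ) / ((v.factorial : ℝ) * (w.factorial : ℝ)) := by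
    have h := Nat.choose_mul_factorial_mul_factorial (Nat.le_add_right v w)
    rw [Nat.add_sub_cancel_left] at h
    have h' : ((m.choose v : ℕ) : ℝ) * (v.factorial : ℝ) * (w.factorial : ℝ) = (m.factorial : ℝ) := by
      exact_mod_cast h
    have hvf : ((v.factorial : ℕ) : ℝ) ≠ 0 := by positivity
    have hwf : ((w.factorial : ℕ) : ℝ) ≠ 0 := by positivity
    field_simp
    linarith
  have hexp : Real.exp (-((v : ℝ) * Real.log (2 * v / (m : ℝ)) +
        (w : ℝ) * Real.log (2 * w / (m : ℝ)))) = (m : ℝ) ^ m / ((v : ℝ) ^ v * (w : ℝ) ^ w * 2 ^ m) := by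
    have e1 : Real.exp ((v : ℝ) * Real.log (2 * v / (m : ℝ))) = (2 * v / (m : ℝ)) ^ v := by
      rw [mul_comm, Real.exp_mul, Real.exp_log (by positivity), Real.rpow_natCast]
    have e2 : Real.exp ((w : ℝ) * Real.log (2 * w / (m : ℝ))) = (2 * w / (m : ℝ)) ^ w := by
      rw [mul_comm, Real.exp_mul, Real.exp_log (by positivity), Real.rpow_natCast]
    rw [Real.exp_neg, Real.exp_add, e1, e2, div_pow, div_pow, mul_pow, mul_pow]
    have h2 : (2 : ℝ) ^ m = 2 ^ v * 2 ^ w := by rw [hmdef, pow_add]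
    have h3 : (m : ℝ) ^ m = (m : ℝ) ^ v * (m : ℝ) ^ w := by
      conv_lhs => rw [hmdef]
      rw [pow_add]
    rw [h2, h3]
    field_simp
  rw [hexp, hch, fact_eq m hm, fact_eq v hv, fact_eq w hw]
  have s1 : Real.sqrt (2 * (m : ℝ)) = Real.sqrt 2 * Real.sqrt m := Real.sqrt_mul (by norm_num) _
  have s2 : Real.sqrt (2 * (v : ℝ)) = Real.sqrt 2 * Real.sqrt v := Real.sqrt_mul (by norm_num) _
  have s3 : Real.sqrt (2 * (w : ℝ)) = Real.sqrt 2 * Real.sqrt w := Real.sqrt_mul (by norm_num) _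
  have s4 : Real.sqrt ((v : ℝ) / (m : ℝ) * ((w : ℝ) / (m : ℝ))) =
      Real.sqrt v * Real.sqrt w / m := by
    have : (v : ℝ) / (m : ℝ) * ((w : ℝ) / (m : ℝ)) = (v : ℝ) * w / (m : ℝ) ^ 2 := by
      field_simp
    rw [this, Real.sqrt_div (by positivity), Real.sqrt_sq hm'.le, Real.sqrt_mul hv'.le]
  have s5 : Real.sqrt (m : ℝ) * Real.sqrt (m : ℝ) = m := Real.mul_self_sqrt hm'.le
  rw [s1, s2, s3, s4, div_pow, div_pow, div_pow]
  have h3 : (Real.exp 1) ^ m = (Real.exp 1) ^ v * (Real.exp 1) ^ w := by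
    conv_lhs => rw [hmdef]
    rw [pow_add]
  rw [h3]
  have q1 : 0 < Real.sqrt (v : ℝ) := Real.sqrt_pos.2 hv'
  have q2 : 0 < Real.sqrt (w : ℝ) := Real.sqrt_pos.2 hw'
  have q3 : 0 < Real.sqrt (m : ℝ) := Real.sqrt_pos.2 hm'
  have q4 : 0 < Real.sqrt (2 : ℝ) := by positivity
  have q5 : 0 < (Real.exp 1) ^ v := by positivity
  have q6 : 0 < (Real.exp 1) ^ w := by positivity
  have q7 : 0 < (v : ℝ) ^ v := by positivity
  have q8 : 0 < (w : ℝ) ^ w := by positivity
  have q9 : 0 < (m : ℝ) ^ m := by positivity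
  generalize (Real.exp 1) ^ v = X1 at *
  generalize (Real.exp 1) ^ w = X2 at *
  generalize (v : ℝ) ^ v = X3 at *
  generalize (w : ℝ) ^ w = X4 at *
  generalize (m : ℝ) ^ m = X5 at *
  generalize (2 : ℝ) ^ m = X6 at *
  generalize Real.sqrt (v : ℝ) = Y1 at *
  generalize Real.sqrt (w : ℝ) = Y2 at *
  generalize Real.sqrt (2 : ℝ) = Y4 at *
  generalize Real.sqrt (m : ℝ) = Y3 at *
  rw [← s5]
  field_simp

theorem hbound (u : ℝ) (hu : |u| ≤ 1 / 2) :
    |(1 + u) * Real.log (1 + u) + (1 - u) * Real.log (1 - u) - u ^ 2| ≤ 4 * |u| ^ 3 := by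
  have hlt : |u| < 1 := by linarith
  have hlt' : |(-u)| < 1 := by rw [abs_neg]; exact hlt
  have h1 := Real.abs_log_sub_add_sum_range_le hlt 2
  have h2 := Real.abs_log_sub_add_sum_range_le hlt' 2
  rw [abs_neg] at h2
  simp only [Finset.sum_range_succ, Finset.sum_range_zero] at h1 h2
  norm_num at h1 h2
  have hfr : |u| ^ 3 / (1 - |u|) ≤ 2 * |u| ^ 3 := by
    rw [div_le_iff₀ (by linarith)]
    have h0 : 0 ≤ |u| ^ 3 := by positivity
    nlinarith
  have h1' := h1.trans hfr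
  have h2' := h2.trans hfr
  obtain ⟨hu1, hu2⟩ := abs_le.1 hu
  obtain ⟨a1, a2⟩ := abs_le.1 h1'
  obtain ⟨b1, b2⟩ := abs_le.1 h2'
  set L1 := Real.log (1 - u)
  set L2 := Real.log (1 + u)
  set K := |u| ^ 3 with hK
  have e : (1 + u) * L2 + (1 - u) * L1 - u ^ 2 =
      (1 + u) * (-u + u ^ 2 / 2 + L2) + (1 - u) * (u + u ^ 2 / 2 + L1) := by ring
  rw [e, abs_le]
  constructor
  · nlinarith [mul_nonneg (by linarith : (0 : ℝ) ≤ 1 + u) (by linarith : (0 : ℝ) ≤ -u + u ^ 2 / 2 + L2 + 2 * K),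
      mul_nonneg (by linarith : (0 : ℝ) ≤ 1 - u) (by linarith : (0 : ℝ) ≤ u + u ^ 2 / 2 + L1 + 2 * K)]
  · nlinarith [mul_nonneg (by linarith : (0 : ℝ) ≤ 1 + u) (by linarith : (0 : ℝ) ≤ 2 * K - (-u + u ^ 2 / 2 + L2)),
      mul_nonneg (by linarith : (0 : ℝ) ≤ 1 - u) (by linarith : (0 : ℝ) ≤ 2 * K - (u + u ^ 2 / 2 + L1))]

end binX

open binX in
theorem p_bin : S_bin := by
  intro t v hvm hlim
  set τ : ℕ → ℝ := fun m => ((v m : ℝ) - m / 2) / Real.sqrt m with hτ
  set u : ℕ → ℝ := fun m => 2 * τ m * (1 / Real.sqrt m) with hu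
  have hsq : Tendsto (fun m : ℕ => Real.sqrt (m : ℝ)) atTop atTop :=
    Real.tendsto_sqrt_atTop.comp tendsto_natCast_atTop_atTop
  have hinv : Tendsto (fun m : ℕ => 1 / Real.sqrt (m : ℝ)) atTop (𝓝 0) := by
    have h := hsq.inv_tendsto_atTop
    refine h.congr ?_
    intro m
    simp
  have hu0 : Tendsto u atTop (𝓝 0) := by
    have h := (hlim.const_mul 2).mul hinv
    rw [mul_zero] at h
    exact h
  -- the identity `2 v = m (1 + u)`
  have h2v : ∀ m : ℕ, 0 < m → 2 * (v m : ℝ) = m * (1 + u m) := by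
    intro m hm
    have hm' : (0 : ℝ) < m := by exact_mod_cast hm
    have hs : 0 < Real.sqrt (m : ℝ) := Real.sqrt_pos.2 hm'
    have hss : Real.sqrt (m : ℝ) * Real.sqrt (m : ℝ) = m := Real.mul_self_sqrt hm'.le
    simp only [hu, hτ]
    have : 2 * (((v m : ℝ) - m / 2) / Real.sqrt m) * (1 / Real.sqrt m) =
        2 * ((v m : ℝ) - m / 2) / m := by
      generalize Real.sqrt (m : ℝ) = y at *
      rw [← hss]
      field_simp
    rw [this]
    field_simp
    ring
  have h2w : ∀ m : ℕ, 0 < m → 2 * ((m - v m : ℕ) : ℝ) = m * (1 - u m) := by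
    intro m hm
    have h1 := h2v m hm
    rw [Nat.cast_sub (hvm m)]
    linarith
  have hvdiv : ∀ m : ℕ, 0 < m → (v m : ℝ) / m = (1 + u m) / 2 := by
    intro m hm
    have hm' : (0 : ℝ) < m := by exact_mod_cast hm
    rw [div_eq_div_iff hm'.ne' (by norm_num)]
    linarith [h2v m hm]
  have hwdiv : ∀ m : ℕ, 0 < m → ((m - v m : ℕ) : ℝ) / m = (1 - u m) / 2 := by
    intro m hm
    have hm' : (0 : ℝ) < m := by exact_mod_cast hm
    rw [div_eq_div_iff hm'.ne' (by norm_num)]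
    linarith [h2w m hm]
  -- `v` and `w` tend to infinity
  have hcast : Tendsto (fun m : ℕ => (m : ℝ)) atTop atTop := tendsto_natCast_atTop_atTop
  have hvinf : Tendsto v atTop atTop := by
    rw [← tendsto_natCast_atTop_iff (R := ℝ)]
    have h1 : Tendsto (fun m : ℕ => (m : ℝ) * ((1 + u m) / 2)) atTop atTop := by
      refine hcast.atTop_mul_pos (C := (1 + 0) / 2) (by norm_num) ?_
      exact (hu0.const_add 1).div_const 2
    refine h1.congr' ?_
    filter_upwards [eventually_gt_atTop 0] with m hm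
    linarith [h2v m hm]
  have hwinf : Tendsto (fun m => m - v m) atTop atTop := by
    rw [← tendsto_natCast_atTop_iff (R := ℝ)]
    have h1 : Tendsto (fun m : ℕ => (m : ℝ) * ((1 - u m) / 2)) atTop atTop := by
      refine hcast.atTop_mul_pos (C := (1 - 0) / 2) (by norm_num) ?_
      exact (hu0.const_sub 1).div_const 2
    refine h1.congr' ?_
    filter_upwards [eventually_gt_atTop 0] with m hm
    linarith [h2w m hm]
  have hS := Stirling.tendsto_stirlingSeq_sqrt_pi
  -- the three factors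
  have f1 : Tendsto (fun m : ℕ => Stirling.stirlingSeq m /
      (Stirling.stirlingSeq (v m) * Stirling.stirlingSeq (m - v m))) atTop
      (𝓝 (Real.sqrt Real.pi / (Real.sqrt Real.pi * Real.sqrt Real.pi))) := by
    refine hS.div ((hS.comp hvinf).mul (hS.comp hwinf)) ?_
    have : 0 < Real.sqrt Real.pi := Real.sqrt_pos.2 Real.pi_pos
    positivity
  have f2 : Tendsto (fun m : ℕ => 1 / (Real.sqrt 2 *
      Real.sqrt ((1 + u m) / 2 * ((1 - u m) / 2)))) atTop
      (𝓝 (1 / (Real.sqrt 2 * Real.sqrt ((1 + 0) / 2 * ((1 - 0) / 2))))) := by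
    refine Tendsto.div tendsto_const_nhds (Tendsto.const_mul _ ?_) ?_
    · refine (Real.continuous_sqrt.tendsto _).comp ?_
      exact ((hu0.const_add 1).div_const 2).mul ((hu0.const_sub 1).div_const 2)
    · have : 0 < Real.sqrt ((1 + 0) / 2 * ((1 - 0) / 2) : ℝ) := Real.sqrt_pos.2 (by norm_num)
      positivity
  have f3 : Tendsto (fun m : ℕ => (m : ℝ) / 2 * ((1 + u m) * Real.log (1 + u m) +
      (1 - u m) * Real.log (1 - u m))) atTop (𝓝 (2 * t ^ 2)) := by
    have g1 : Tendsto (fun m : ℕ => 2 * τ m ^ 2) atTop (𝓝 (2 * t ^ 2)) :=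
      (hlim.pow 2).const_mul 2
    have g2 : Tendsto (fun m : ℕ => 16 * |τ m| ^ 3 * (1 / Real.sqrt m)) atTop (𝓝 0) := by
      have := ((hlim.abs.pow 3).const_mul 16).mul hinv
      simpa using this
    have g3 : Tendsto (fun m : ℕ => (m : ℝ) / 2 * ((1 + u m) * Real.log (1 + u m) +
      (1 - u m) * Real.log (1 - u m)) - 2 * τ m ^ 2) atTop (𝓝 0) := by
      refine squeeze_zero_norm' ?_ g2
      have hu1 : ∀ᶠ m in atTop, |u m| ≤ 1 / 2 := by
        have : ∀ᶠ m in atTop, |u m| < 1 / 2 := by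
          have h1 := hu0.abs
          rw [abs_zero] at h1
          exact h1.eventually_lt_const (by norm_num)
        exact this.mono fun _ h => h.le
      filter_upwards [hu1, eventually_gt_atTop 0] with m hm1 hm
      have hm' : (0 : ℝ) < m := by exact_mod_cast hm
      have hs : 0 < Real.sqrt (m : ℝ) := Real.sqrt_pos.2 hm'
      have hss : Real.sqrt (m : ℝ) * Real.sqrt (m : ℝ) = m := Real.mul_self_sqrt hm'.le
      have hb := hbound (u m) hm1
      have e1 : 2 * τ m ^ 2 = (m : ℝ) / 2 * u m ^ 2 := by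
        simp only [hu]
        generalize Real.sqrt (m : ℝ) = y at *
        rw [← hss]
        field_simp
        try ring
      have e2 : (m : ℝ) / 2 * (4 * |u m| ^ 3) = 16 * |τ m| ^ 3 * (1 / Real.sqrt m) := by
        simp only [hu]
        rw [abs_mul, abs_mul, abs_two, abs_of_pos (by positivity : 0 < 1 / Real.sqrt (m : ℝ))]
        generalize hy : Real.sqrt (m : ℝ) = y at *
        rw [← hss]
        field_simp
        try ring
      rw [Real.norm_eq_abs, e1, ← mul_sub, abs_mul, abs_of_pos (by positivity : 0 < (m : ℝ) / 2),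
        ← e2]
      exact mul_le_mul_of_nonneg_left hb (by positivity)
    have := g3.add g1
    simpa using this
  have f4 : Tendsto (fun m : ℕ => Real.exp (-((m : ℝ) / 2 * ((1 + u m) * Real.log (1 + u m) +
      (1 - u m) * Real.log (1 - u m))))) atTop (𝓝 (Real.exp (-(2 * t ^ 2)))) :=
    (Real.continuous_exp.tendsto _).comp f3.neg
  have hmain := (f1.mul f2).mul f4
  have hval : Real.sqrt Real.pi / (Real.sqrt Real.pi * Real.sqrt Real.pi) *
      (1 / (Real.sqrt 2 * Real.sqrt ((1 + 0) / 2 * ((1 - 0) / 2)))) * Real.exp (-(2 * t ^ 2)) =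
      Real.sqrt (2 / Real.pi) * Real.exp (-2 * t ^ 2) := by
    have hp : 0 < Real.sqrt Real.pi := Real.sqrt_pos.2 Real.pi_pos
    have h2 : 0 < Real.sqrt 2 := Real.sqrt_pos.2 (by norm_num)
    have h22 : Real.sqrt 2 * Real.sqrt 2 = 2 := Real.mul_self_sqrt (by norm_num)
    have h4 : Real.sqrt ((1 + 0) / 2 * ((1 - 0) / 2)) = 1 / 2 := by
      rw [Real.sqrt_eq_iff_mul_self_eq] <;> norm_num
    have h5 : Real.sqrt (2 / Real.pi) = Real.sqrt 2 / Real.sqrt Real.pi :=
      Real.sqrt_div (by norm_num) _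
    rw [h4, h5]
    congr 1
    · field_simp
      linarith
    · congr 1
      ring
  rw [hval] at hmain
  refine hmain.congr' ?_
  filter_upwards [hvinf.eventually_ge_atTop 1, hwinf.eventually_ge_atTop 1,
    eventually_gt_atTop 0] with m hv1 hw1 hm
  have hvw : v m + (m - v m) = m := Nat.add_sub_cancel' (hvm m)
  have hk := key (v m) (m - v m) (by omega) (by omega)
  rw [hvw] at hk
  have hm' : (0 : ℝ) < m := by exact_mod_cast hm
  have e3 : 2 * (v m : ℝ) / m = 1 + u m := by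
    rw [div_eq_iff hm'.ne']
    linarith [h2v m hm]
  have e4 : 2 * ((m - v m : ℕ) : ℝ) / m = 1 - u m := by
    rw [div_eq_iff hm'.ne']
    linarith [h2w m hm]
  have e5 : (v m : ℝ) = m * (1 + u m) / 2 := by linarith [h2v m hm]
  have e6 : ((m - v m : ℕ) : ℝ) = m * (1 - u m) / 2 := by linarith [h2w m hm]
  rw [hk, hvdiv m hm, hwdiv m hm, e3, e4]
  congr 2
  rw [e5, e6]
  ring

end Pool.Agent.ALM
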