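import Pool.Agent.Lib.MP_fc2a59_co.ALM.A.Stm

set_option autoImplicit false

namespace Pool.Agent.ALM

open Finset
open scoped Classical

namespace chbX

lemma ps_nonneg (s : ℕ) : 0 ≤ ps s := by
  unfold ps
  positivity

lemma ps_zero : ps 0 = 1 := by
  simp [ps]

lemma ps_one : ps 1 = 3 / 8 := by
  simp only [ps, Nat.centralBinom, pow_one]
  norm_num [Nat.choose]

/-- the terms of `E1` -/
noncomputable def F (r t : ℝ) (s : ℕ) : ℂ :=
  if s = 0 then (0 : ℂ) else ((ps s * r ^ s : ℝ) : ℂ) * Complex.exp (Complex.I * ((s : ℝ) * t : ℝ))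

lemma norm_F (r t : ℝ) (hr : 0 ≤ r) (s : ℕ) : ‖F r t s‖ ≤ ps s * r ^ s := by
  have h0 : 0 ≤ ps s * r ^ s := mul_nonneg (ps_nonneg s) (pow_nonneg hr s)
  unfold F
  split_ifs with h
  · simpa using h0
  · rw [norm_mul, Complex.norm_real, Real.norm_of_nonneg h0, mul_comm Complex.I,
      Complex.norm_exp_ofReal_mul_I, mul_one]

lemma E1_sub (r t g : ℝ) (hr : 0 ≤ r) (hs : HasSum (fun s : ℕ => ps s * r ^ s) g) :
    ‖E1 r t - ((3 / 8 * r : ℝ) : ℂ) * Complex.exp ((t : ℝ) * Complex.I)‖ ≤ g - 1 - 3 / 8 * r := by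
  have hsum : Summable (fun s : ℕ => ps s * r ^ s) := hs.summable
  have hF : Summable (fun s => ‖F r t s‖) :=
    Summable.of_nonneg_of_le (fun _ => norm_nonneg _) (norm_F r t hr) hsum
  have hF' : Summable (F r t) := hF.of_norm
  have e1 : E1 r t = ∑' s, F r t s := rfl
  have e2 := hF'.sum_add_tsum_nat_add 2
  have e3 := hsum.sum_add_tsum_nat_add 2
  rw [hs.tsum_eq] at e3
  simp only [Finset.sum_range_succ, Finset.sum_range_zero, zero_add] at e2 e3
  have f0 : F r t 0 = 0 := by simp [F]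
  have f1 : F r t 1 = ((3 / 8 * r : ℝ) : ℂ) * Complex.exp ((t : ℝ) * Complex.I) := by
    simp only [F, one_ne_zero, if_false, ps_one, pow_one, Nat.cast_one, one_mul]
    rw [mul_comm Complex.I]
  rw [f0, f1, zero_add] at e2
  rw [e1, ← e2, add_sub_cancel_left]
  have h2 : Summable (fun s => ‖F r t (s + 2)‖) := (summable_nat_add_iff 2).2 hF
  have h3 : Summable (fun s => ps (s + 2) * r ^ (s + 2)) := (summable_nat_add_iff 2).2 hsum
  calc ‖∑' s, F r t (s + 2)‖ ≤ ∑' s, ‖F r t (s + 2)‖ := norm_tsum_le_tsum_norm h2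
    _ ≤ ∑' s, ps (s + 2) * r ^ (s + 2) :=
        h2.tsum_le_tsum (fun s => norm_F r t hr (s + 2)) h3
    _ = g - 1 - 3 / 8 * r := by
        rw [ps_zero, ps_one] at e3
        simp only [pow_zero, pow_one, one_mul] at e3
        linarith

lemma half_bound (a t : ℝ) (ha : 0 ≤ a) (ha' : a ≤ 1 / 2) (ht : |t| ≤ Real.pi) :
    ‖(1 / 2 : ℂ) + (a : ℂ) * Complex.exp ((t : ℝ) * Complex.I)‖ ≤
      1 / 2 + a - a / Real.pi ^ 2 * t ^ 2 := by
  have hpi : 0 < Real.pi := Real.pi_pos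
  have hcos : Real.cos t ≤ 1 - 2 / Real.pi ^ 2 * t ^ 2 := Real.cos_le_one_sub_mul_cos_sq ht
  have hre : ‖(1 / 2 : ℂ) + (a : ℂ) * Complex.exp ((t : ℝ) * Complex.I)‖ ^ 2 =
      (1 / 2 + a) ^ 2 - a * (1 - Real.cos t) := by
    rw [← Complex.normSq_eq_norm_sq, Complex.normSq_apply, Complex.exp_mul_I]
    have h1 : ((1 / 2 : ℂ) + (a : ℂ) * (Complex.cos (t : ℝ) + Complex.sin (t : ℝ) * Complex.I)).re =
        1 / 2 + a * Real.cos t := by
      rw [← Complex.ofReal_cos, ← Complex.ofReal_sin]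
      simp [-Complex.ofReal_cos, -Complex.ofReal_sin]
    have h2 : ((1 / 2 : ℂ) + (a : ℂ) * (Complex.cos (t : ℝ) + Complex.sin (t : ℝ) * Complex.I)).im =
        a * Real.sin t := by
      rw [← Complex.ofReal_cos, ← Complex.ofReal_sin]
      simp [-Complex.ofReal_cos, -Complex.ofReal_sin]
    rw [h1, h2]
    have h3 := Real.sin_sq_add_cos_sq t
    nlinarith [h3]
  have hq : t ^ 2 ≤ Real.pi ^ 2 := by
    rw [← sq_abs t]
    exact pow_le_pow_left₀ (abs_nonneg _) ht 2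
  have hq' : t ^ 2 / Real.pi ^ 2 ≤ 1 := (div_le_one (by positivity)).2 hq
  have hq0 : 0 ≤ t ^ 2 / Real.pi ^ 2 := by positivity
  have hrhs : 0 ≤ 1 / 2 + a - a / Real.pi ^ 2 * t ^ 2 := by
    have : a / Real.pi ^ 2 * t ^ 2 = a * (t ^ 2 / Real.pi ^ 2) := by ring
    rw [this]
    nlinarith
  refine abs_le_of_sq_le_sq' ?_ hrhs |>.2
  rw [hre]
  have e : a / Real.pi ^ 2 * t ^ 2 = a * (t ^ 2 / Real.pi ^ 2) := by ring
  have e' : 2 / Real.pi ^ 2 * t ^ 2 = 2 * (t ^ 2 / Real.pi ^ 2) := by ring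
  rw [e'] at hcos
  rw [e]
  have h4 : a * (2 * (t ^ 2 / Real.pi ^ 2)) ≤ a * (1 - Real.cos t) :=
    mul_le_mul_of_nonneg_left (by linarith) ha
  have h5 : (1 / 2 + a) * (a * (t ^ 2 / Real.pi ^ 2)) ≤ 1 * (a * (t ^ 2 / Real.pi ^ 2)) :=
    mul_le_mul_of_nonneg_right (by linarith) (by positivity)
  nlinarith [sq_nonneg (a * (t ^ 2 / Real.pi ^ 2))]

end chbX

open chbX in
theorem p_chb (h1 : S_ps) : S_chb := by
  intro g0 G hg0 hG
  have hpi : 0 < Real.pi := Real.pi_pos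
  have hg0' : 0 < 1 - 1 / g0 ^ 2 := by
    have : 1 / g0 ^ 2 < 1 := by
      rw [div_lt_one (by positivity)]
      nlinarith
    linarith
  set a0 : ℝ := 1 / 2 * (1 - 1 / g0 ^ 2) with ha0
  have ha0p : 0 < a0 := by positivity
  have hGp : 0 < 2 * G - 1 := by linarith
  refine ⟨a0 / Real.pi ^ 2 / (2 * G - 1), by positivity, ?_⟩
  intro g hg hgG s t hs ht
  have hg1 : 1 < g := lt_of_lt_of_le hg0 hg
  have hsum := h1.2.2.2.2 g hg1
  set r : ℝ := 4 / 3 * (1 - 1 / g ^ 2) with hr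
  have hgi : 1 / g ^ 2 ≤ 1 / g0 ^ 2 := by
    apply one_div_le_one_div_of_le (by positivity)
    exact pow_le_pow_left₀ (by linarith) hg 2
  have hgi0 : 0 < 1 / g ^ 2 := by positivity
  have hrn : 0 ≤ r := by
    rw [hr]
    have : 0 ≤ 1 - 1 / g ^ 2 := by linarith
    positivity
  have hA1 : a0 ≤ 3 / 8 * r := by
    rw [ha0, hr]
    linarith
  have hA2 : 3 / 8 * r ≤ 1 / 2 := by
    rw [hr]
    linarith
  set a : ℝ := 3 / 8 * r with ha
  have hb1 := E1_sub r s g hrn hsum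
  have hb2 := E1_sub r t g hrn hsum
  rw [← ha] at hb1 hb2
  have hc1 := half_bound a s (by linarith) hA2 hs
  have hc2 := half_bound a t (by linarith) hA2 ht
  have key : ‖1 + E1 r s + E1 r t‖ ≤ 2 * g - 1 - a / Real.pi ^ 2 * (s ^ 2 + t ^ 2) := by
    have e : 1 + E1 r s + E1 r t =
        (((1 / 2 : ℂ) + (a : ℂ) * Complex.exp ((s : ℝ) * Complex.I)) +
        ((1 / 2 : ℂ) + (a : ℂ) * Complex.exp ((t : ℝ) * Complex.I))) +
        ((E1 r s - (a : ℂ) * Complex.exp ((s : ℝ) * Complex.I)) +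
        (E1 r t - (a : ℂ) * Complex.exp ((t : ℝ) * Complex.I))) := by ring
    rw [e]
    refine (norm_add_le _ _).trans ?_
    refine (add_le_add (norm_add_le _ _) (norm_add_le _ _)).trans ?_
    nlinarith [hb1, hb2, hc1, hc2]
  refine key.trans ?_
  have hQ : 0 ≤ s ^ 2 + t ^ 2 := by positivity
  have hexp : 1 - a0 / Real.pi ^ 2 / (2 * G - 1) * (s ^ 2 + t ^ 2) ≤
      Real.exp (-(a0 / Real.pi ^ 2 / (2 * G - 1)) * (s ^ 2 + t ^ 2)) := by
    have := Real.add_one_le_exp (-(a0 / Real.pi ^ 2 / (2 * G - 1)) * (s ^ 2 + t ^ 2))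
    linarith
  have hgp : 0 < 2 * g - 1 := by linarith
  refine le_trans ?_ (mul_le_mul_of_nonneg_left hexp hgp.le)
  have h6 : (2 * g - 1) * (a0 / Real.pi ^ 2 / (2 * G - 1)) ≤ a / Real.pi ^ 2 := by
    have h7 : (2 * g - 1) * (a0 / Real.pi ^ 2 / (2 * G - 1)) ≤
        (2 * G - 1) * (a0 / Real.pi ^ 2 / (2 * G - 1)) :=
      mul_le_mul_of_nonneg_right (by linarith) (by positivity)
    have h8 : (2 * G - 1) * (a0 / Real.pi ^ 2 / (2 * G - 1)) = a0 / Real.pi ^ 2 := by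
      field_simp
    have h9 : a0 / Real.pi ^ 2 ≤ a / Real.pi ^ 2 := div_le_div_of_nonneg_right hA1 (by positivity)
    linarith
  have h10 := mul_le_mul_of_nonneg_right h6 hQ
  nlinarith [h10]

end Pool.Agent.ALM
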