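import Pool.Agent.Lib.MP_fc2a59_co.ALM.A.Stm

set_option autoImplicit false

namespace Pool.Agent.ALM

open Finset
open scoped Classical

namespace domX

/-- the bounding function of `S_ulb` and `S_tlb` -/
noncomputable def TT (g : ℝ) (N w : ℕ) : ℝ :=
  ((2 * g - 1) / 3) ^ N / (4 / 3 * (1 - 1 / g ^ 2)) ^ (2 * w)

/-- the quantity to bound -/
noncomputable def LH (m v : ℕ) : ℝ :=
  KK m v * (2 ^ m * (m : ℝ) ^ 5 * Real.sqrt m / (m.factorial : ℝ))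

/-- entropy exponential -/
noncomputable def EN (v w : ℕ) : ℝ :=
  Real.exp (((v + w : ℕ) : ℝ) * Real.log 2 + (v : ℝ) * Real.log ((v : ℝ) / ((v + w : ℕ) : ℝ)) +
    (w : ℝ) * Real.log ((w : ℝ) / ((v + w : ℕ) : ℝ)))

/-- denominators -/
noncomputable def DD (v w : ℕ) : ℝ :=
  ((v : ℝ) + 1) * ((v : ℝ) + 2) * (((w : ℝ) + 1) * ((w : ℝ) + 2))

lemma DD_pos (v w : ℕ) : 0 < DD v w := by unfold DD; positivity

lemma LH_eq (v w : ℕ) : LH (v + w) v =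
    ((v.factorial : ℝ) * (w.factorial : ℝ) / ((v + w).factorial : ℝ)) *
      (2 ^ (v + w) * (((v + w : ℕ) : ℝ)) ^ 5 * Real.sqrt ((v + w : ℕ) : ℝ) / DD v w *
        (PN (v + 2) w * PN (w + 2) v)) := by
  have h1 : v + w - v = w := by omega
  have hv : ((v + 2).factorial : ℝ) = ((v : ℝ) + 2) * (((v : ℝ) + 1) * (v.factorial : ℝ)) := by
    rw [Nat.factorial_succ, Nat.factorial_succ]; push_cast; ring
  have hw : ((w + 2).factorial : ℝ) = ((w : ℝ) + 2) * (((w : ℝ) + 1) * (w.factorial : ℝ)) := by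
    rw [Nat.factorial_succ, Nat.factorial_succ]; push_cast; ring
  unfold LH KK DD
  rw [h1, hv, hw]
  have a1 : (v.factorial : ℝ) ≠ 0 := by positivity
  have a2 : (w.factorial : ℝ) ≠ 0 := by positivity
  have a3 : ((v + w).factorial : ℝ) ≠ 0 := by positivity
  have a4 : (v : ℝ) + 1 ≠ 0 := by positivity
  have a5 : (v : ℝ) + 2 ≠ 0 := by positivity
  have a6 : (w : ℝ) + 1 ≠ 0 := by positivity
  have a7 : (w : ℝ) + 2 ≠ 0 := by positivity
  field_simp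

/-- symmetry -/
lemma LH_symm (v w : ℕ) : LH (v + w) v = LH (v + w) w := by
  have h := LH_eq v w
  have h' := LH_eq w v
  rw [Nat.add_comm w v] at h'
  rw [h, h']
  unfold DD
  ring

lemma fact_le (c : ℝ) (hc : 0 < c)
    (hent : ∀ m v : ℕ, 0 < v → v < m →
      c / Real.sqrt m * Real.exp (-(v : ℝ) * Real.log (v / m) -
        ((m - v : ℕ) : ℝ) * Real.log ((m - v : ℕ) / m)) ≤ (m.choose v : ℝ))
    (v w : ℕ) (hv : 0 < v) (hw : 0 < w) :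
    (v.factorial : ℝ) * (w.factorial : ℝ) / ((v + w).factorial : ℝ) * 2 ^ (v + w) ≤
      Real.sqrt ((v + w : ℕ) : ℝ) / c * EN v w := by
  have h := hent (v + w) v hv (by omega)
  have h1 : v + w - v = w := by omega
  rw [h1] at h
  have hB : (((v + w).choose v : ℕ) : ℝ) * (v.factorial : ℝ) * (w.factorial : ℝ) =
      ((v + w).factorial : ℝ) := by
    have := Nat.choose_mul_factorial_mul_factorial (n := v + w) (k := v) (by omega)
    rw [h1] at this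
    exact_mod_cast this
  have hf : (0 : ℝ) < ((v + w).factorial : ℝ) := by positivity
  have hs : 0 < Real.sqrt ((v + w : ℕ) : ℝ) := Real.sqrt_pos.2 (by positivity)
  have hEN : EN v w = 2 ^ (v + w) * Real.exp (-(-(v : ℝ) * Real.log ((v : ℝ) / ((v + w : ℕ) : ℝ)) -
        (w : ℝ) * Real.log ((w : ℝ) / ((v + w : ℕ) : ℝ)))) := by
    unfold EN
    have : (2 : ℝ) ^ (v + w) = Real.exp (((v + w : ℕ) : ℝ) * Real.log 2) := by
      rw [Real.exp_nat_mul, Real.exp_log (by norm_num)]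
    rw [this, ← Real.exp_add]
    congr 1
    ring
  rw [hEN]
  set X : ℝ := -(v : ℝ) * Real.log ((v : ℝ) / ((v + w : ℕ) : ℝ)) -
        (w : ℝ) * Real.log ((w : ℝ) / ((v + w : ℕ) : ℝ)) with hX
  have hE : Real.exp X * Real.exp (-X) = 1 := by
    rw [← Real.exp_add]; simp
  have hEp : 0 < Real.exp (-X) := Real.exp_pos _
  -- the key inequality
  have key : (v.factorial : ℝ) * (w.factorial : ℝ) / ((v + w).factorial : ℝ) ≤
      Real.sqrt ((v + w : ℕ) : ℝ) / c * Real.exp (-X) := by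
    rw [div_le_iff₀ hf, ← hB]
    have h2 : 1 ≤ Real.sqrt ((v + w : ℕ) : ℝ) / c * Real.exp (-X) *
        (((v + w).choose v : ℕ) : ℝ) := by
      have h3 : Real.sqrt ((v + w : ℕ) : ℝ) / c * Real.exp (-X) *
          (c / Real.sqrt ((v + w : ℕ) : ℝ) * Real.exp X) = 1 := by
        have : Real.sqrt ((v + w : ℕ) : ℝ) / c * Real.exp (-X) *
          (c / Real.sqrt ((v + w : ℕ) : ℝ) * Real.exp X) =
          (Real.exp X * Real.exp (-X)) * (Real.sqrt ((v + w : ℕ) : ℝ) / c *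
            (c / Real.sqrt ((v + w : ℕ) : ℝ))) := by ring
        rw [this, hE]
        field_simp
      calc (1 : ℝ) = Real.sqrt ((v + w : ℕ) : ℝ) / c * Real.exp (-X) *
          (c / Real.sqrt ((v + w : ℕ) : ℝ) * Real.exp X) := h3.symm
        _ ≤ _ := mul_le_mul_of_nonneg_left h (by positivity)
    calc (v.factorial : ℝ) * (w.factorial : ℝ) = 1 * ((v.factorial : ℝ) * (w.factorial : ℝ)) := by
          ring
      _ ≤ (Real.sqrt ((v + w : ℕ) : ℝ) / c * Real.exp (-X) *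
        (((v + w).choose v : ℕ) : ℝ)) * ((v.factorial : ℝ) * (w.factorial : ℝ)) :=
          mul_le_mul_of_nonneg_right h2 (by positivity)
      _ = _ := by ring
  calc (v.factorial : ℝ) * (w.factorial : ℝ) / ((v + w).factorial : ℝ) * 2 ^ (v + w)
      ≤ (Real.sqrt ((v + w : ℕ) : ℝ) / c * Real.exp (-X)) * 2 ^ (v + w) :=
        mul_le_mul_of_nonneg_right key (by positivity)
    _ = _ := by ring

/-- the basic bound -/
lemma base (c : ℝ) (hc : 0 < c)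
    (hent : ∀ m v : ℕ, 0 < v → v < m →
      c / Real.sqrt m * Real.exp (-(v : ℝ) * Real.log (v / m) -
        ((m - v : ℕ) : ℝ) * Real.log ((m - v : ℕ) / m)) ≤ (m.choose v : ℝ))
    (v w : ℕ) (hv : 0 < v) (hw : 0 < w) (P Q : ℝ) (hP0 : 0 ≤ PN (v + 2) w) (hP : PN (v + 2) w ≤ P)
    (hQ0 : 0 ≤ PN (w + 2) v) (hQ : PN (w + 2) v ≤ Q) :
    LH (v + w) v ≤ 1 / c * (((v + w : ℕ) : ℝ) ^ 6 / DD v w) * (EN v w * (P * Q)) := by
  have h1 := fact_le c hc hent v w hv hw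
  have hs0 : (0 : ℝ) ≤ ((v + w : ℕ) : ℝ) := by positivity
  have hss : Real.sqrt ((v + w : ℕ) : ℝ) * Real.sqrt ((v + w : ℕ) : ℝ) = ((v + w : ℕ) : ℝ) :=
    Real.mul_self_sqrt hs0
  have hPQ : PN (v + 2) w * PN (w + 2) v ≤ P * Q :=
    mul_le_mul hP hQ hQ0 (le_trans hP0 hP)
  have hPQ0 : 0 ≤ PN (v + 2) w * PN (w + 2) v := mul_nonneg hP0 hQ0
  have hD := DD_pos v w
  have hEN : 0 < EN v w := by unfold EN; exact Real.exp_pos _
  rw [LH_eq]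
  calc (v.factorial : ℝ) * (w.factorial : ℝ) / ((v + w).factorial : ℝ) *
      (2 ^ (v + w) * (((v + w : ℕ) : ℝ)) ^ 5 * Real.sqrt ((v + w : ℕ) : ℝ) / DD v w *
        (PN (v + 2) w * PN (w + 2) v))
      = ((v.factorial : ℝ) * (w.factorial : ℝ) / ((v + w).factorial : ℝ) * 2 ^ (v + w)) *
        ((((v + w : ℕ) : ℝ)) ^ 5 * Real.sqrt ((v + w : ℕ) : ℝ) / DD v w *
        (PN (v + 2) w * PN (w + 2) v)) := by ring
    _ ≤ (Real.sqrt ((v + w : ℕ) : ℝ) / c * EN v w) *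
        ((((v + w : ℕ) : ℝ)) ^ 5 * Real.sqrt ((v + w : ℕ) : ℝ) / DD v w * (P * Q)) := by
        apply mul_le_mul h1 _ (by positivity) (by positivity)
        exact mul_le_mul_of_nonneg_left hPQ (by positivity)
    _ = 1 / c * ((((v + w : ℕ) : ℝ) ^ 5 *
        (Real.sqrt ((v + w : ℕ) : ℝ) * Real.sqrt ((v + w : ℕ) : ℝ))) / DD v w) *
          (EN v w * (P * Q)) := by ring
    _ = _ := by rw [hss]; ring

lemma one_sub_inv_pos {g : ℝ} (hg : 1 < g) : 0 < 4 / 3 * (1 - 1 / g ^ 2) := by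
  have h2 : 1 < g ^ 2 := by nlinarith
  have : 1 / g ^ 2 < 1 := by rw [div_lt_one (by linarith)]; exact h2
  linarith

lemma p_pos {g : ℝ} (hg : 1 < g) : 0 < (2 * g - 1) / 3 := by linarith

lemma TT_eq {g : ℝ} (hg : 1 < g) (N w : ℕ) : TT g (N + 2) w =
    ((2 * g - 1) / 3) ^ 2 * Real.exp ((N : ℝ) * Real.log ((2 * g - 1) / 3) -
      2 * (w : ℝ) * Real.log (4 / 3 * (1 - 1 / g ^ 2))) := by
  have hp := p_pos hg
  have hq := one_sub_inv_pos hg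
  unfold TT
  rw [Real.exp_sub, Real.exp_nat_mul, Real.exp_log hp]
  have : 2 * (w : ℝ) * Real.log (4 / 3 * (1 - 1 / g ^ 2)) =
      ((2 * w : ℕ) : ℝ) * Real.log (4 / 3 * (1 - 1 / g ^ 2)) := by push_cast; ring
  rw [this, Real.exp_nat_mul, Real.exp_log hq, pow_add]
  ring

lemma comb {g1 g2 : ℝ} (h1 : 1 < g1) (h2 : 1 < g2) (v w : ℕ) (hv : 0 < v) :
    EN v w * (TT g1 (v + 2) w * TT g2 (w + 2) v) =
      ((2 * g1 - 1) / 3) ^ 2 * ((2 * g2 - 1) / 3) ^ 2 *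
        Real.exp (((v + w : ℕ) : ℝ) * Ps ((v : ℝ) / ((v + w : ℕ) : ℝ)) g1 g2) := by
  rw [TT_eq h1, TT_eq h2]
  unfold EN
  have hm : (0 : ℝ) < ((v + w : ℕ) : ℝ) := by positivity
  have e1 : 1 - (v : ℝ) / ((v + w : ℕ) : ℝ) = (w : ℝ) / ((v + w : ℕ) : ℝ) := by
    rw [eq_div_iff hm.ne', sub_mul, div_mul_cancel₀ _ hm.ne']
    push_cast; ring
  have e2 : ((v + w : ℕ) : ℝ) * Ps ((v : ℝ) / ((v + w : ℕ) : ℝ)) g1 g2 =
      (((v + w : ℕ) : ℝ) * Real.log 2 + (v : ℝ) * Real.log ((v : ℝ) / ((v + w : ℕ) : ℝ)) +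
    (w : ℝ) * Real.log ((w : ℝ) / ((v + w : ℕ) : ℝ))) +
      (((v : ℝ) * Real.log ((2 * g1 - 1) / 3) -
      2 * (w : ℝ) * Real.log (4 / 3 * (1 - 1 / g1 ^ 2))) +
      ((w : ℝ) * Real.log ((2 * g2 - 1) / 3) -
      2 * (v : ℝ) * Real.log (4 / 3 * (1 - 1 / g2 ^ 2)))) := by
    unfold Ps
    rw [e1]
    have e3 : ((v + w : ℕ) : ℝ) * ((v : ℝ) / ((v + w : ℕ) : ℝ)) = v := by
      field_simp
    have e4 : ((v + w : ℕ) : ℝ) * ((w : ℝ) / ((v + w : ℕ) : ℝ)) = w := by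
      field_simp
    generalize Real.log ((v : ℝ) / ((v + w : ℕ) : ℝ)) = la
    generalize Real.log ((w : ℝ) / ((v + w : ℕ) : ℝ)) = lb
    generalize Real.log ((2 * g1 - 1) / 3) = lc
    generalize Real.log ((2 * g2 - 1) / 3) = ld
    generalize Real.log (4 / 3 * (1 - 1 / g1 ^ 2)) = le
    generalize Real.log (4 / 3 * (1 - 1 / g2 ^ 2)) = lf
    generalize Real.log 2 = l2
    generalize hA : (v : ℝ) / ((v + w : ℕ) : ℝ) = A at *
    generalize hB : (w : ℝ) / ((v + w : ℕ) : ℝ) = B at *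
    generalize hM : ((v + w : ℕ) : ℝ) = M at *
    rw [← e3, ← e4]
    ring
  rw [e2]
  generalize (((v + w : ℕ) : ℝ) * Real.log 2 + (v : ℝ) * Real.log ((v : ℝ) / ((v + w : ℕ) : ℝ)) +
    (w : ℝ) * Real.log ((w : ℝ) / ((v + w : ℕ) : ℝ))) = XA
  generalize ((v : ℝ) * Real.log ((2 * g1 - 1) / 3) -
      2 * (w : ℝ) * Real.log (4 / 3 * (1 - 1 / g1 ^ 2))) = XB
  generalize ((w : ℝ) * Real.log ((2 * g2 - 1) / 3) -
      2 * (v : ℝ) * Real.log (4 / 3 * (1 - 1 / g2 ^ 2))) = XC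
  rw [Real.exp_add XA (XB + XC), Real.exp_add XB XC]
  ring

/-- the middle range -/
lemma mid (h1 : S_ulb) (h2 : S_tlb) (h3 : S_ent) (h4 : S_rate) :
    ∃ c C : ℝ, 0 < c ∧ 0 < C ∧ ∀ v w : ℕ, 0 < v → 0 < w →
      ((v + w : ℕ) : ℝ) / 10 ≤ v → ((v + w : ℕ) : ℝ) / 10 ≤ w →
      LH (v + w) v ≤ C * Real.exp (-c * ((v : ℝ) - ((v + w : ℕ) : ℝ) / 2) ^ 2 / ((v + w : ℕ) : ℝ)) := by
  obtain ⟨c3, hc3, hent⟩ := h3
  obtain ⟨c4, hc4, hrate⟩ := h4
  obtain ⟨g0, G, hg0, hgG, hr⟩ := hrate (1 / 10) (by norm_num) (by norm_num)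
  obtain ⟨C1, hC1, hu⟩ := h1 g0 G hg0 hgG
  have hG : 0 < (2 * G - 1) / 3 := p_pos (by linarith)
  refine ⟨c4, 1 / c3 * 10000 * (100 * C1 ^ 2) * (((2 * G - 1) / 3) ^ 2 * ((2 * G - 1) / 3) ^ 2), hc4,
    by positivity, ?_⟩
  intro v w hv hw hv' hw'
  have hm : (0 : ℝ) < ((v + w : ℕ) : ℝ) := by positivity
  have hsum : ((v + w : ℕ) : ℝ) = (v : ℝ) + w := by push_cast; ring
  obtain ⟨g1, g2, a1, a2, a3, a4, hPs⟩ := hr ((v : ℝ) / ((v + w : ℕ) : ℝ))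
    (by rw [le_div_iff₀ hm]; linarith) (by
      rw [div_le_iff₀ hm]
      linarith)
  have b1 : 1 < g1 := by linarith
  have b2 : 1 < g2 := by linarith
  have u1 := hu g1 a1 a2 (v + 2) w (by omega)
  have u2 := hu g2 a3 a4 (w + 2) v (by omega)
  have t1 : 0 ≤ PN (v + 2) w := (h2 g1 (v + 2) w b1).1
  have t2 : 0 ≤ PN (w + 2) v := (h2 g2 (w + 2) v b2).1
  have TTp : ∀ g : ℝ, 1 < g → ∀ N w : ℕ, 0 < TT g N w := by
    intro g hg N w
    unfold TT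
    have := p_pos hg
    have := one_sub_inv_pos hg
    positivity
  have v1 : PN (v + 2) w ≤ C1 * 10 / ((v + w : ℕ) : ℝ) * TT g1 (v + 2) w := by
    refine le_trans u1 ?_
    have : C1 / ((v + 2 : ℕ) : ℝ) ≤ C1 * 10 / ((v + w : ℕ) : ℝ) := by
      rw [div_le_div_iff₀ (by positivity) hm]
      have : ((v + w : ℕ) : ℝ) ≤ 10 * ((v + 2 : ℕ) : ℝ) := by push_cast at hv' ⊢; linarith
      nlinarith
    have h5 := mul_le_mul_of_nonneg_right this (TTp g1 b1 (v + 2) w).le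
    refine le_trans (le_of_eq ?_) h5
    unfold TT
    ring
  have v2 : PN (w + 2) v ≤ C1 * 10 / ((v + w : ℕ) : ℝ) * TT g2 (w + 2) v := by
    refine le_trans u2 ?_
    have : C1 / ((w + 2 : ℕ) : ℝ) ≤ C1 * 10 / ((v + w : ℕ) : ℝ) := by
      rw [div_le_div_iff₀ (by positivity) hm]
      have : ((v + w : ℕ) : ℝ) ≤ 10 * ((w + 2 : ℕ) : ℝ) := by push_cast at hw' ⊢; linarith
      nlinarith
    have h5 := mul_le_mul_of_nonneg_right this (TTp g2 b2 (w + 2) v).le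
    refine le_trans (le_of_eq ?_) h5
    unfold TT
    ring
  refine le_trans (base c3 hc3 hent v w hv hw _ _ t1 v1 t2 v2) ?_
  have hcomb := comb b1 b2 v w hv
  have e1 : EN v w * (C1 * 10 / ((v + w : ℕ) : ℝ) * TT g1 (v + 2) w *
      (C1 * 10 / ((v + w : ℕ) : ℝ) * TT g2 (w + 2) v)) =
      (100 * C1 ^ 2) / ((v + w : ℕ) : ℝ) ^ 2 *
      (((2 * g1 - 1) / 3) ^ 2 * ((2 * g2 - 1) / 3) ^ 2 *
        Real.exp (((v + w : ℕ) : ℝ) * Ps ((v : ℝ) / ((v + w : ℕ) : ℝ)) g1 g2)) := by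
    rw [← hcomb]; ring
  rw [e1]
  have hD : ((v + w : ℕ) : ℝ) ^ 4 ≤ 10000 * DD v w := by
    have d1 : ((v + w : ℕ) : ℝ) / 10 * (((v + w : ℕ) : ℝ) / 10) ≤ ((v : ℝ) + 1) * ((v : ℝ) + 2) :=
      mul_le_mul (by linarith) (by linarith) (by positivity) (by positivity)
    have d2 : ((v + w : ℕ) : ℝ) / 10 * (((v + w : ℕ) : ℝ) / 10) ≤ ((w : ℝ) + 1) * ((w : ℝ) + 2) :=
      mul_le_mul (by linarith) (by linarith) (by positivity) (by positivity)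
    have d3 := mul_le_mul d1 d2 (by positivity) (by positivity)
    unfold DD
    calc ((v + w : ℕ) : ℝ) ^ 4 = 10000 * (((v + w : ℕ) : ℝ) / 10 * (((v + w : ℕ) : ℝ) / 10) *
        (((v + w : ℕ) : ℝ) / 10 * (((v + w : ℕ) : ℝ) / 10))) := by ring
      _ ≤ _ := by linarith
  have hDp := DD_pos v w
  have e2 : ((v + w : ℕ) : ℝ) ^ 6 / DD v w ≤ 10000 * ((v + w : ℕ) : ℝ) ^ 2 := by
    rw [div_le_iff₀ hDp]
    calc ((v + w : ℕ) : ℝ) ^ 6 = ((v + w : ℕ) : ℝ) ^ 2 * ((v + w : ℕ) : ℝ) ^ 4 := by ring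
      _ ≤ ((v + w : ℕ) : ℝ) ^ 2 * (10000 * DD v w) := mul_le_mul_of_nonneg_left hD (by positivity)
      _ = _ := by ring
  have e3 : ((2 * g1 - 1) / 3) ^ 2 * ((2 * g2 - 1) / 3) ^ 2 ≤
      ((2 * G - 1) / 3) ^ 2 * ((2 * G - 1) / 3) ^ 2 := by
    have q1 := p_pos b1
    have q2 := p_pos b2
    apply mul_le_mul
    · exact pow_le_pow_left₀ q1.le (by linarith) 2
    · exact pow_le_pow_left₀ q2.le (by linarith) 2
    · positivity
    · positivity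
  have e4 : Real.exp (((v + w : ℕ) : ℝ) * Ps ((v : ℝ) / ((v + w : ℕ) : ℝ)) g1 g2) ≤
      Real.exp (-c4 * ((v : ℝ) - ((v + w : ℕ) : ℝ) / 2) ^ 2 / ((v + w : ℕ) : ℝ)) := by
    apply Real.exp_le_exp.2
    refine le_trans (mul_le_mul_of_nonneg_left hPs hm.le) (le_of_eq ?_)
    generalize hM : ((v + w : ℕ) : ℝ) = M at *
    field_simp
  calc 1 / c3 * (((v + w : ℕ) : ℝ) ^ 6 / DD v w) * ((100 * C1 ^ 2) / ((v + w : ℕ) : ℝ) ^ 2 *
      (((2 * g1 - 1) / 3) ^ 2 * ((2 * g2 - 1) / 3) ^ 2 *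
        Real.exp (((v + w : ℕ) : ℝ) * Ps ((v : ℝ) / ((v + w : ℕ) : ℝ)) g1 g2)))
      ≤ 1 / c3 * (10000 * ((v + w : ℕ) : ℝ) ^ 2) * ((100 * C1 ^ 2) / ((v + w : ℕ) : ℝ) ^ 2 *
      ((((2 * G - 1) / 3) ^ 2 * ((2 * G - 1) / 3) ^ 2) *
        Real.exp (-c4 * ((v : ℝ) - ((v + w : ℕ) : ℝ) / 2) ^ 2 / ((v + w : ℕ) : ℝ)))) := by
        apply mul_le_mul
        · exact mul_le_mul_of_nonneg_left e2 (by positivity)
        · apply mul_le_mul_of_nonneg_left _ (by positivity)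
          exact mul_le_mul e3 e4 (Real.exp_pos _).le (by positivity)
        · have q1 := p_pos b1
          have q2 := p_pos b2
          positivity
        · positivity
    _ = _ := by
        generalize Real.exp (-c4 * ((v : ℝ) - ((v + w : ℕ) : ℝ) / 2) ^ 2 / ((v + w : ℕ) : ℝ)) = E
        have : ((v + w : ℕ) : ℝ) ≠ 0 := hm.ne'
        field_simp

/-- the extreme range -/
lemma ext (h2 : S_tlb) (h3 : S_ent) (h5 : S_ext) :
    ∃ C : ℝ, 0 < C ∧ ∀ v w : ℕ, 0 < v → 0 < w → (v : ℝ) ≤ ((v + w : ℕ) : ℝ) / 10 →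
      LH (v + w) v ≤ C * Real.exp (-(1 / 5) * ((v : ℝ) - ((v + w : ℕ) : ℝ) / 2) ^ 2 /
        ((v + w : ℕ) : ℝ)) := by
  obtain ⟨c3, hc3, hent⟩ := h3
  refine ⟨1 / c3 * (20 ^ 6 * 720) * (((2 * 10 - 1) / 3) ^ 2 * ((2 * (11 / 10) - 1) / 3) ^ 2),
    by positivity, ?_⟩
  intro v w hv hw hv'
  have hm : (0 : ℝ) < ((v + w : ℕ) : ℝ) := by positivity
  have hsum : ((v + w : ℕ) : ℝ) = (v : ℝ) + w := by push_cast; ring
  have hvp : (0 : ℝ) < v := by exact_mod_cast hv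
  have b1 : (1 : ℝ) < 10 := by norm_num
  have b2 : (1 : ℝ) < 11 / 10 := by norm_num
  have t1 := h2 10 (v + 2) w b1
  have t2 := h2 (11 / 10) (w + 2) v b2
  have hPs := h5 ((v : ℝ) / ((v + w : ℕ) : ℝ)) (by positivity) (by
    rw [div_le_iff₀ hm]; linarith)
  refine le_trans (base c3 hc3 hent v w hv hw _ _ t1.1 t1.2 t2.1 t2.2) ?_
  have hcomb := comb b1 b2 v w hv
  have hcomb' : EN v w * (((2 * 10 - 1) / 3) ^ (v + 2) / (4 / 3 * (1 - 1 / 10 ^ 2)) ^ (2 * w) *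
      (((2 * (11 / 10) - 1) / 3) ^ (w + 2) / (4 / 3 * (1 - 1 / (11 / 10) ^ 2)) ^ (2 * v))) =
      ((2 * 10 - 1) / 3) ^ 2 * ((2 * (11 / 10) - 1) / 3) ^ 2 *
        Real.exp (((v + w : ℕ) : ℝ) * Ps ((v : ℝ) / ((v + w : ℕ) : ℝ)) 10 (11 / 10)) := by
    rw [← hcomb]; rfl
  rw [hcomb']
  have hDp := DD_pos v w
  have hD1 : 1 ≤ DD v w := by
    unfold DD
    have x1 : (1 : ℝ) ≤ ((v : ℝ) + 1) * ((v : ℝ) + 2) := by nlinarith
    have hwp : (0 : ℝ) < w := by exact_mod_cast hw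
    have x2 : (1 : ℝ) ≤ ((w : ℝ) + 1) * ((w : ℝ) + 2) := by nlinarith
    nlinarith
  have e2 : ((v + w : ℕ) : ℝ) ^ 6 / DD v w ≤ ((v + w : ℕ) : ℝ) ^ 6 :=
    div_le_self (by positivity) hD1
  have e3 : ((v + w : ℕ) : ℝ) ^ 6 ≤ 20 ^ 6 * 720 * Real.exp (((v + w : ℕ) : ℝ) / 20) := by
    have h := Real.pow_div_factorial_le_exp (((v + w : ℕ) : ℝ) / 20) (by positivity) 6
    have h6 : ((Nat.factorial 6 : ℕ) : ℝ) = 720 := by norm_num [Nat.factorial]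
    rw [h6, div_le_iff₀ (by norm_num), div_pow, div_le_iff₀ (by norm_num)] at h
    linarith
  have e4 : Real.exp (((v + w : ℕ) : ℝ) * Ps ((v : ℝ) / ((v + w : ℕ) : ℝ)) 10 (11 / 10)) ≤
      Real.exp (-((v + w : ℕ) : ℝ) / 10) := by
    apply Real.exp_le_exp.2
    refine le_trans (mul_le_mul_of_nonneg_left hPs hm.le) (le_of_eq ?_)
    ring
  have e5 : Real.exp (((v + w : ℕ) : ℝ) / 20) * Real.exp (-((v + w : ℕ) : ℝ) / 10) ≤
      Real.exp (-(1 / 5) * ((v : ℝ) - ((v + w : ℕ) : ℝ) / 2) ^ 2 / ((v + w : ℕ) : ℝ)) := by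
    rw [← Real.exp_add]
    apply Real.exp_le_exp.2
    rw [le_div_iff₀ hm]
    nlinarith
  calc 1 / c3 * (((v + w : ℕ) : ℝ) ^ 6 / DD v w) * (((2 * 10 - 1) / 3) ^ 2 *
      ((2 * (11 / 10) - 1) / 3) ^ 2 *
        Real.exp (((v + w : ℕ) : ℝ) * Ps ((v : ℝ) / ((v + w : ℕ) : ℝ)) 10 (11 / 10)))
      ≤ 1 / c3 * (20 ^ 6 * 720 * Real.exp (((v + w : ℕ) : ℝ) / 20)) * (((2 * 10 - 1) / 3) ^ 2 *
      ((2 * (11 / 10) - 1) / 3) ^ 2 * Real.exp (-((v + w : ℕ) : ℝ) / 10)) := by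
        apply mul_le_mul
        · exact mul_le_mul_of_nonneg_left (le_trans e2 e3) (by positivity)
        · exact mul_le_mul_of_nonneg_left e4 (by positivity)
        · positivity
        · positivity
    _ = 1 / c3 * (20 ^ 6 * 720) * (((2 * 10 - 1) / 3) ^ 2 * ((2 * (11 / 10) - 1) / 3) ^ 2) *
        (Real.exp (((v + w : ℕ) : ℝ) / 20) * Real.exp (-((v + w : ℕ) : ℝ) / 10)) := by ring
    _ ≤ _ := mul_le_mul_of_nonneg_left e5 (by positivity)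

lemma expmono {c c' C C' X : ℝ} (hc : c ≤ c') (hC : C ≤ C') (hC0 : 0 < C) (hX : 0 ≤ X) :
    C * Real.exp (-c' * X) ≤ C' * Real.exp (-c * X) := by
  apply mul_le_mul hC _ (Real.exp_pos _).le (by linarith)
  apply Real.exp_le_exp.2
  nlinarith

end domX

open domX in
theorem p_dom (h1 : S_ulb) (h2 : S_tlb) (h3 : S_ent) (h4 : S_rate) (h5 : S_ext) : S_dom := by
  obtain ⟨c1, C1, hc1, hC1, hmid⟩ := mid h1 h2 h3 h4
  obtain ⟨C2, hC2, hext⟩ := ext h2 h3 h5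
  refine ⟨min c1 (1 / 5), C1 + C2, by positivity, by positivity, ?_⟩
  intro m v hv hvm
  obtain ⟨w, rfl⟩ : ∃ w, m = v + w := ⟨m - v, by omega⟩
  have hw : 0 < w := by omega
  have hm : (0 : ℝ) < ((v + w : ℕ) : ℝ) := by positivity
  have hX : 0 ≤ ((v : ℝ) - ((v + w : ℕ) : ℝ) / 2) ^ 2 / ((v + w : ℕ) : ℝ) := by positivity
  change LH (v + w) v ≤ _
  rw [mul_div_assoc]
  by_cases ha : ((v + w : ℕ) : ℝ) / 10 ≤ v
  · by_cases hb : ((v + w : ℕ) : ℝ) / 10 ≤ w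
    · refine le_trans (hmid v w hv hw ha hb) ?_
      rw [mul_div_assoc]
      exact expmono (min_le_left _ _) (by linarith) hC1 hX
    · rw [LH_symm]
      have h := hext w v hw hv (by rw [Nat.add_comm w v]; linarith)
      rw [Nat.add_comm w v] at h
      refine le_trans h ?_
      have e : ((w : ℝ) - ((v + w : ℕ) : ℝ) / 2) ^ 2 = ((v : ℝ) - ((v + w : ℕ) : ℝ) / 2) ^ 2 := by
        push_cast; ring
      rw [e, mul_div_assoc]
      exact expmono (min_le_right _ _) (by linarith) hC2 hX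
  · refine le_trans (hext v w hv hw (by linarith)) ?_
    rw [mul_div_assoc]
    exact expmono (min_le_right _ _) (by linarith) hC2 hX

end Pool.Agent.ALM
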