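import Pool.Agent.Lib.MP_fc2a59_co.ALM.A.Stm

set_option autoImplicit false

namespace Pool.Agent.ALM

open Finset
open scoped Classical

namespace entX

/-- upper bound for the factorial -/
theorem fact_le (n : ℕ) (hn : 0 < n) :
    ((n.factorial : ℕ) : ℝ) ≤ Real.exp 1 * Real.sqrt n * ((n : ℝ) / Real.exp 1) ^ n := by
  have h1 : Stirling.stirlingSeq n ≤ Stirling.stirlingSeq 1 := by
    have h := Stirling.stirlingSeq'_antitone (Nat.zero_le (n - 1))
    simp only [Function.comp] at h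
    have e : Nat.succ (n - 1) = n := by omega
    rw [e] at h
    exact h
  rw [Stirling.stirlingSeq_one] at h1
  have hnR : (0 : ℝ) < n := by exact_mod_cast hn
  have hpos : 0 < Real.sqrt (2 * n) * ((n : ℝ) / Real.exp 1) ^ n := by positivity
  unfold Stirling.stirlingSeq at h1
  rw [div_le_iff₀ hpos] at h1
  refine h1.trans (le_of_eq ?_)
  rw [Real.sqrt_mul (by norm_num : (0 : ℝ) ≤ 2)]
  have h2 : (0 : ℝ) < Real.sqrt 2 := by positivity
  field_simp

/-- lower bound for the factorial -/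
theorem le_fact (n : ℕ) :
    Real.sqrt n * ((n : ℝ) / Real.exp 1) ^ n ≤ ((n.factorial : ℕ) : ℝ) := by
  refine le_trans ?_ (Stirling.le_factorial_stirling n)
  have h : Real.sqrt n ≤ Real.sqrt (2 * Real.pi * n) := by
    apply Real.sqrt_le_sqrt
    have h3 := Real.pi_gt_three
    have hn : (0 : ℝ) ≤ n := Nat.cast_nonneg n
    nlinarith
  exact mul_le_mul_of_nonneg_right h (by positivity)

/-- the entropy factor cancels -/
theorem ent_eq (m v : ℕ) (hv : 0 < v) (hvm : v < m) :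
    Real.exp (-(v : ℝ) * Real.log (v / m) - ((m - v : ℕ) : ℝ) * Real.log ((m - v : ℕ) / m)) *
      (((v : ℝ) / m) ^ v * (((m - v : ℕ) : ℝ) / m) ^ (m - v)) = 1 := by
  have hvR : (0 : ℝ) < v := by exact_mod_cast hv
  have hmR : (0 : ℝ) < m := by exact_mod_cast (hv.trans hvm)
  have hwR : (0 : ℝ) < ((m - v : ℕ) : ℝ) := by
    have : 0 < m - v := by omega
    exact_mod_cast this
  have h1 : ((v : ℝ) / m) ^ v = Real.exp ((v : ℝ) * Real.log (v / m)) := by
    rw [Real.exp_nat_mul, Real.exp_log (by positivity)]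
  have h2 : (((m - v : ℕ) : ℝ) / m) ^ (m - v) =
      Real.exp (((m - v : ℕ) : ℝ) * Real.log ((m - v : ℕ) / m)) := by
    rw [Real.exp_nat_mul, Real.exp_log (by positivity)]
  rw [h1, h2, ← Real.exp_add, ← Real.exp_add]
  rw [← Real.exp_zero]
  congr 1
  ring

end entX

theorem p_ent : S_ent := by
  refine ⟨1 / Real.exp 1 ^ 2, by positivity, ?_⟩
  intro m v hv hvm
  have hvR : (0 : ℝ) < v := by exact_mod_cast hv
  have hmR : (0 : ℝ) < m := by exact_mod_cast (hv.trans hvm)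
  have hw : 0 < m - v := by omega
  have hwR : (0 : ℝ) < ((m - v : ℕ) : ℝ) := by exact_mod_cast hw
  have hsum : v + (m - v) = m := by omega
  have hE := entX.ent_eq m v hv hvm
  set E : ℝ := Real.exp (-(v : ℝ) * Real.log (v / m) -
    ((m - v : ℕ) : ℝ) * Real.log ((m - v : ℕ) / m)) with hEdef
  have hEpos : 0 < E := Real.exp_pos _
  have hchoose : (m.choose v : ℝ) * (v.factorial : ℝ) * ((m - v).factorial : ℝ) =
      (m.factorial : ℝ) := by
    have h := Nat.choose_mul_factorial_mul_factorial hvm.le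
    exact_mod_cast h
  have hfv := entX.fact_le v hv
  have hfw := entX.fact_le (m - v) hw
  have hfm := entX.le_fact m
  have hvf : (0 : ℝ) < (v.factorial : ℝ) := by exact_mod_cast Nat.factorial_pos v
  have hwf : (0 : ℝ) < ((m - v).factorial : ℝ) := by exact_mod_cast Nat.factorial_pos (m - v)
  have hvle : Real.sqrt v ≤ Real.sqrt m := Real.sqrt_le_sqrt (by exact_mod_cast hvm.le)
  have hwle : Real.sqrt ((m - v : ℕ) : ℝ) ≤ Real.sqrt m :=
    Real.sqrt_le_sqrt (by exact_mod_cast (Nat.sub_le m v))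
  have hsm : 0 < Real.sqrt (m : ℝ) := Real.sqrt_pos.mpr hmR
  -- product of the factorial bounds
  have hprod : (v.factorial : ℝ) * ((m - v).factorial : ℝ) ≤
      (Real.exp 1 * Real.sqrt v * ((v : ℝ) / Real.exp 1) ^ v) *
        (Real.exp 1 * Real.sqrt ((m - v : ℕ) : ℝ) *
          (((m - v : ℕ) : ℝ) / Real.exp 1) ^ (m - v)) :=
    mul_le_mul hfv hfw hwf.le (by positivity)
  have hpow : ((v : ℝ) / Real.exp 1) ^ v * (((m - v : ℕ) : ℝ) / Real.exp 1) ^ (m - v) =
      (((v : ℝ) / m) ^ v * (((m - v : ℕ) : ℝ) / m) ^ (m - v)) * ((m : ℝ) / Real.exp 1) ^ m := by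
    have h1 : ((m : ℝ) / Real.exp 1) ^ m =
        ((m : ℝ) / Real.exp 1) ^ v * ((m : ℝ) / Real.exp 1) ^ (m - v) := by
      rw [← pow_add, hsum]
    rw [h1]
    have h2 : ((v : ℝ) / Real.exp 1) = ((v : ℝ) / m) * ((m : ℝ) / Real.exp 1) := by
      field_simp
    have h3 : (((m - v : ℕ) : ℝ) / Real.exp 1) =
        (((m - v : ℕ) : ℝ) / m) * ((m : ℝ) / Real.exp 1) := by
      field_simp
    rw [h2, h3, mul_pow, mul_pow]
    ring
  have hss : Real.sqrt v * Real.sqrt ((m - v : ℕ) : ℝ) ≤ Real.sqrt m * Real.sqrt m :=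
    mul_le_mul hvle hwle (Real.sqrt_nonneg _) hsm.le
  have hkey : 1 / Real.exp 1 ^ 2 / Real.sqrt m * E *
      ((v.factorial : ℝ) * ((m - v).factorial : ℝ)) ≤ (m.factorial : ℝ) := by
    have hc : 0 ≤ 1 / Real.exp 1 ^ 2 / Real.sqrt m * E := by positivity
    calc 1 / Real.exp 1 ^ 2 / Real.sqrt m * E *
          ((v.factorial : ℝ) * ((m - v).factorial : ℝ))
        ≤ 1 / Real.exp 1 ^ 2 / Real.sqrt m * E *
          ((Real.exp 1 * Real.sqrt v * ((v : ℝ) / Real.exp 1) ^ v) *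
          (Real.exp 1 * Real.sqrt ((m - v : ℕ) : ℝ) *
          (((m - v : ℕ) : ℝ) / Real.exp 1) ^ (m - v))) :=
          mul_le_mul_of_nonneg_left hprod hc
      _ = 1 / Real.exp 1 ^ 2 / Real.sqrt m * E * (Real.exp 1 ^ 2 *
          (Real.sqrt v * Real.sqrt ((m - v : ℕ) : ℝ)) *
          (((v : ℝ) / Real.exp 1) ^ v * (((m - v : ℕ) : ℝ) / Real.exp 1) ^ (m - v))) := by
          ring
      _ = 1 / Real.sqrt m * (Real.sqrt v * Real.sqrt ((m - v : ℕ) : ℝ)) *
          ((m : ℝ) / Real.exp 1) ^ m *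
          (E * (((v : ℝ) / m) ^ v * (((m - v : ℕ) : ℝ) / m) ^ (m - v))) := by
          rw [hpow]
          have he : Real.exp 1 ≠ 0 := (Real.exp_pos 1).ne'
          field_simp
      _ = 1 / Real.sqrt m * (Real.sqrt v * Real.sqrt ((m - v : ℕ) : ℝ)) *
          ((m : ℝ) / Real.exp 1) ^ m := by rw [hE, mul_one]
      _ ≤ 1 / Real.sqrt m * (Real.sqrt m * Real.sqrt m) * ((m : ℝ) / Real.exp 1) ^ m := by
          apply mul_le_mul_of_nonneg_right _ (by positivity)
          exact mul_le_mul_of_nonneg_left hss (by positivity)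
      _ = Real.sqrt m * ((m : ℝ) / Real.exp 1) ^ m := by
          congr 1
          field_simp
      _ ≤ (m.factorial : ℝ) := hfm
  have hVW : 0 < (v.factorial : ℝ) * ((m - v).factorial : ℝ) := mul_pos hvf hwf
  rw [← hchoose, mul_assoc (m.choose v : ℝ)] at hkey
  exact le_of_mul_le_mul_right hkey hVW

end Pool.Agent.ALM
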