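import Pool.Agent.Lib.MP_fc2a59_co.ALM.A.Stm

set_option autoImplicit false

/-! # Project ALM, section A: the extreme range -/

namespace Pool.Agent.ALM

open Finset
open scoped Classical

namespace extX

private lemma aux0 : Real.log 2 - 2 * Real.log (33 / 25) + Real.log (2 / 5) ≤ -(1 / 10) := by
  have h1 : Real.log 2 - 2 * Real.log (33 / 25) + Real.log (2 / 5) =
      Real.log (2 / (33 / 25) ^ 2 * (2 / 5)) := by
    rw [Real.log_mul (x := 2 / (33 / 25) ^ 2) (y := 2 / 5) (by norm_num) (by norm_num),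
      Real.log_div (x := 2) (y := (33 / 25) ^ 2) (by norm_num) (by norm_num), Real.log_pow]
    push_cast
    ring
  rw [h1]
  have h2 := Real.log_le_sub_one_of_pos (show (0 : ℝ) < 2 / (33 / 25) ^ 2 * (2 / 5) by norm_num)
  refine h2.trans ?_
  norm_num

private lemma aux1 : 10 * Real.log 2 + Real.log (19 / 3) - 18 * Real.log (33 / 25) +
    9 * Real.log (2 / 5) - 2 * Real.log (28 / 121) ≤ -1 := by
  have h1 : 10 * Real.log 2 + Real.log (19 / 3) - 18 * Real.log (33 / 25) +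
      9 * Real.log (2 / 5) - 2 * Real.log (28 / 121) + Real.log (Real.exp 1) =
      Real.log (2 ^ 10 * (19 / 3) / (33 / 25) ^ 18 * (2 / 5) ^ 9 / (28 / 121) ^ 2 * Real.exp 1) := by
    rw [Real.log_mul (x := 2 ^ 10 * (19 / 3) / (33 / 25) ^ 18 * (2 / 5) ^ 9 / (28 / 121) ^ 2)
        (y := Real.exp 1) (by norm_num) (Real.exp_ne_zero _),
      Real.log_div (x := 2 ^ 10 * (19 / 3) / (33 / 25) ^ 18 * (2 / 5) ^ 9)
        (y := (28 / 121) ^ 2) (by norm_num) (by norm_num),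
      Real.log_mul (x := 2 ^ 10 * (19 / 3) / (33 / 25) ^ 18) (y := (2 / 5) ^ 9)
        (by norm_num) (by norm_num),
      Real.log_div (x := 2 ^ 10 * (19 / 3)) (y := (33 / 25) ^ 18) (by norm_num) (by norm_num),
      Real.log_mul (x := 2 ^ 10) (y := 19 / 3) (by norm_num) (by norm_num), Real.log_pow,
      Real.log_pow, Real.log_pow, Real.log_pow]
    push_cast
    ring
  rw [Real.log_exp] at h1
  have h3 := Real.exp_one_lt_d9
  have h4 := Real.exp_pos 1
  have h2 := Real.log_le_sub_one_of_pos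
    (show (0 : ℝ) < 2 ^ 10 * (19 / 3) / (33 / 25) ^ 18 * (2 / 5) ^ 9 / (28 / 121) ^ 2 *
      Real.exp 1 by positivity)
  have h5 : (2 : ℝ) ^ 10 * (19 / 3) / (33 / 25) ^ 18 * (2 / 5) ^ 9 / (28 / 121) ^ 2 *
      Real.exp 1 ≤ 2 ^ 10 * (19 / 3) / (33 / 25) ^ 18 * (2 / 5) ^ 9 / (28 / 121) ^ 2 *
      2.7182818286 := by
    apply mul_le_mul_of_nonneg_left h3.le
    positivity
  have h6 : (2 : ℝ) ^ 10 * (19 / 3) / (33 / 25) ^ 18 * (2 / 5) ^ 9 / (28 / 121) ^ 2 *
      2.7182818286 ≤ 1 := by norm_num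
  linarith

end extX

/-- the extreme range -/
theorem p_ext : S_ext := by
  intro a ha ha1
  unfold Ps
  have e1 : ((2 : ℝ) * 10 - 1) / 3 = 19 / 3 := by norm_num
  have e2 : (4 : ℝ) / 3 * (1 - 1 / 10 ^ 2) = 33 / 25 := by norm_num
  have e3 : ((2 : ℝ) * (11 / 10) - 1) / 3 = 2 / 5 := by norm_num
  have e4 : (4 : ℝ) / 3 * (1 - 1 / (11 / 10) ^ 2) = 28 / 121 := by norm_num
  rw [e1, e2, e3, e4]
  have l1 : a * Real.log a ≤ 0 :=
    mul_nonpos_of_nonneg_of_nonpos ha.le (Real.log_nonpos ha.le (by linarith))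
  have l2 : (1 - a) * Real.log (1 - a) ≤ 0 :=
    mul_nonpos_of_nonneg_of_nonpos (by linarith) (Real.log_nonpos (by linarith) (by linarith))
  have h0 := extX.aux0
  have h1 := extX.aux1
  have k0 := mul_le_mul_of_nonneg_left h0 (show (0 : ℝ) ≤ 1 - 10 * a by linarith)
  have k1 := mul_le_mul_of_nonneg_left h1 ha.le
  linarith

end Pool.Agent.ALM
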