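import Pool.Agent.Lib.MP_fc2a59_co.ALM.A.Stm
set_option autoImplicit false
namespace Pool.Agent.ALM
open Finset
open scoped Classical

namespace fourX

/-- scaled coefficients -/
noncomputable def aa (r : ℝ) (c w : ℕ) : ℝ := co w c * (r / 16) ^ w

/-- the exponential -/
noncomputable def ee (t : ℝ) (w : ℕ) : ℂ := Complex.exp (Complex.I * ((w : ℝ) * t : ℝ))

lemma ee_zero (t : ℝ) : ee t 0 = 1 := by simp [ee]

lemma ee_add (t : ℝ) (i j : ℕ) : ee t (i + j) = ee t i * ee t j := by
  unfold ee; rw [← Complex.exp_add]; congr 1; push_cast; ring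

lemma norm_ee (t : ℝ) (w : ℕ) : ‖ee t w‖ = 1 := by
  unfold ee
  rw [mul_comm]; exact Complex.norm_exp_ofReal_mul_I _

lemma ps_nonneg (s : ℕ) : 0 ≤ ps s := by unfold ps; positivity

lemma ps_le (s : ℕ) : ps s ≤ (3 / 4) ^ s := by
  unfold ps
  have h : (Nat.centralBinom s : ℝ) ≤ 4 ^ s := by
    have h2 : Nat.centralBinom s ≤ 4 ^ s := by
      rw [Nat.centralBinom_eq_two_mul_choose]
      calc (2 * s).choose s ≤ ∑ i ∈ range (2 * s + 1), (2 * s).choose i :=
            Finset.single_le_sum (f := fun i => (2 * s).choose i) (fun i _ => Nat.zero_le _)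
              (by simp; omega)
        _ = 2 ^ (2 * s) := Nat.sum_range_choose _
        _ = 4 ^ s := by rw [pow_mul]; norm_num
    exact_mod_cast h2
  calc (Nat.centralBinom s : ℝ) * (3 / 16) ^ s ≤ 4 ^ s * (3 / 16) ^ s := by gcongr
    _ = (3 / 4) ^ s := by rw [← mul_pow]; norm_num

/-- the basic sequence -/
noncomputable def bb (r : ℝ) (s : ℕ) : ℝ := if s = 0 then 0 else ps s * r ^ s

lemma bb_nonneg {r : ℝ} (h : 0 < r) (s : ℕ) : 0 ≤ bb r s := by
  unfold bb; split_ifs
  · exact le_rfl
  · exact mul_nonneg (ps_nonneg s) (by positivity)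

lemma bb_summable {r : ℝ} (h0 : 0 < r) (h1 : r < 4 / 3) : Summable (bb r) := by
  refine Summable.of_nonneg_of_le (bb_nonneg h0) (g := bb r) (f := fun s => (3 / 4 * r) ^ s) ?_ ?_
  · intro s
    unfold bb; split_ifs
    · positivity
    · rw [mul_pow]; exact mul_le_mul_of_nonneg_right (ps_le s) (by positivity)
  · exact summable_geometric_of_lt_one (by positivity) (by linarith)

lemma coeff_phi (r : ℝ) (s : ℕ) : PowerSeries.coeff s phi * (r / 16) ^ s = bb r s := by
  unfold phi bb ps
  rw [PowerSeries.coeff_mk]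
  split_ifs with h
  · simp
  · rw [div_pow, div_pow]
    have : (16 : ℝ) ^ s ≠ 0 := by positivity
    field_simp

lemma aa_nonneg {r : ℝ} (h : 0 < r) (c w : ℕ) : 0 ≤ aa r c w := by
  unfold aa co
  refine mul_nonneg ?_ (by positivity)
  induction c generalizing w with
  | zero => simp only [pow_zero, PowerSeries.coeff_one]; split_ifs <;> norm_num
  | succ c ih =>
    rw [pow_succ, PowerSeries.coeff_mul]
    refine Finset.sum_nonneg fun p _ => mul_nonneg (ih _) ?_
    unfold phi; rw [PowerSeries.coeff_mk]; split_ifs <;> positivity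

lemma aa_succ (r : ℝ) (c w : ℕ) :
    aa r (c + 1) w = ∑ p ∈ antidiagonal w, aa r c p.1 * bb r p.2 := by
  unfold aa co
  rw [pow_succ, PowerSeries.coeff_mul, Finset.sum_mul]
  refine Finset.sum_congr rfl fun p hp => ?_
  rw [← coeff_phi, ← Finset.HasAntidiagonal.mem_antidiagonal.mp hp, pow_add]; ring

/-- the terms -/
noncomputable def ff (r t : ℝ) (c w : ℕ) : ℂ := (aa r c w : ℂ) * ee t w

lemma ff_succ (r t : ℝ) (c w : ℕ) :
    ff r t (c + 1) w = ∑ p ∈ antidiagonal w, ff r t c p.1 * ((bb r p.2 : ℂ) * ee t p.2) := by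
  unfold ff
  rw [aa_succ]; push_cast; rw [Finset.sum_mul]
  refine Finset.sum_congr rfl fun p hp => ?_
  rw [← Finset.HasAntidiagonal.mem_antidiagonal.mp hp, ee_add]; ring

lemma E1_eq (r t : ℝ) : E1 r t = ∑' s, (bb r s : ℂ) * ee t s := by
  unfold E1 bb ee
  refine tsum_congr fun s => ?_
  split_ifs <;> simp

lemma norm_term (r t : ℝ) (h : 0 < r) (s : ℕ) : ‖(bb r s : ℂ) * ee t s‖ = bb r s := by
  rw [norm_mul, norm_ee, mul_one, Complex.norm_real, Real.norm_of_nonneg (bb_nonneg h s)]

lemma norm_ff (r t : ℝ) (h : 0 < r) (c w : ℕ) : ‖ff r t c w‖ = aa r c w := by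
  unfold ff
  rw [norm_mul, norm_ee, mul_one, Complex.norm_real, Real.norm_of_nonneg (aa_nonneg h c w)]

lemma main_series {r : ℝ} (h0 : 0 < r) (h1 : r < 4 / 3) (t : ℝ) (c : ℕ) :
    Summable (fun w => ‖ff r t c w‖) ∧ ∑' w, ff r t c w = (E1 r t) ^ c := by
  have hs : Summable fun s => ‖(bb r s : ℂ) * ee t s‖ := by
    simp_rw [norm_term r t h0]; exact bb_summable h0 h1
  induction c with
  | zero =>
    have hz : ∀ w, ff r t 0 w = if w = 0 then 1 else 0 := by
      intro w
      unfold ff aa co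
      simp only [pow_zero, PowerSeries.coeff_one]
      split_ifs with h
      · subst h; simp [ee_zero]
      · simp
    constructor
    · refine summable_of_ne_finset_zero (s := {0}) fun w hw => ?_
      rw [hz, if_neg (by simpa using hw)]; simp
    · rw [pow_zero]
      simp_rw [hz]
      rw [tsum_ite_eq]
  | succ c ih =>
    have hf : (fun w => ff r t (c + 1) w) =
        fun w => ∑ p ∈ antidiagonal w, ff r t c p.1 * ((bb r p.2 : ℂ) * ee t p.2) := by
      funext w; exact ff_succ r t c w
    constructor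
    · have := summable_norm_sum_mul_antidiagonal_of_summable_norm ih.1 hs
      refine this.congr fun w => ?_
      rw [ff_succ]
    · rw [pow_succ, ← ih.2, E1_eq, tsum_mul_tsum_eq_tsum_sum_antidiagonal_of_summable_norm ih.1 hs]
      exact tsum_congr fun w => ff_succ r t c w

lemma cont_E1 {r : ℝ} (h0 : 0 < r) (h1 : r < 4 / 3) : Continuous (E1 r) := by
  have : E1 r = fun t => ∑' s, (bb r s : ℂ) * ee t s := by funext t; exact E1_eq r t
  rw [this]
  refine continuous_tsum (u := bb r) (fun s => ?_) (bb_summable h0 h1) fun s t => ?_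
  · unfold ee; fun_prop
  · rw [norm_term r t h0]

/-- orthogonality -/
lemma orth (k w : ℕ) :
    ∫ t in (-Real.pi)..Real.pi, ee t k * Complex.exp (-Complex.I * ((w : ℝ) * t : ℝ)) =
      if k = w then (2 * Real.pi : ℂ) else 0 := by
  have h : ∀ t : ℝ, ee t k * Complex.exp (-Complex.I * ((w : ℝ) * t : ℝ)) =
      Complex.exp (((k : ℂ) - w) * Complex.I * t) := by
    intro t; unfold ee; rw [← Complex.exp_add]; congr 1; push_cast; ring
  simp_rw [h]
  split_ifs with hk
  · subst hk; simp; ring
  · have hne : (((k : ℂ) - w) * Complex.I) ≠ 0 := by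
      refine mul_ne_zero ?_ Complex.I_ne_zero
      rw [sub_ne_zero]; exact_mod_cast hk
    rw [integral_exp_mul_complex hne]
    have : Complex.exp (((k : ℂ) - w) * Complex.I * (Real.pi : ℝ)) =
        Complex.exp (((k : ℂ) - w) * Complex.I * ((-Real.pi : ℝ))) := by
      rw [Complex.exp_eq_exp_iff_exists_int]
      refine ⟨(k : ℤ) - w, ?_⟩
      push_cast; ring
    rw [this, sub_self, zero_div]

lemma J_eq {r : ℝ} (h0 : 0 < r) (h1 : r < 4 / 3) (c w : ℕ) :
    ∫ t in (-Real.pi)..Real.pi, (E1 r t) ^ c * Complex.exp (-Complex.I * ((w : ℝ) * t : ℝ)) =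
      2 * Real.pi * aa r c w := by
  have hsum : HasSum
      (fun k : ℕ => ∫ t in (-Real.pi)..Real.pi,
        ff r t c k * Complex.exp (-Complex.I * ((w : ℝ) * t : ℝ)))
      (∫ t in (-Real.pi)..Real.pi, (E1 r t) ^ c * Complex.exp (-Complex.I * ((w : ℝ) * t : ℝ))) := by
    have hsa : Summable (aa r c) := by
      have := (main_series h0 h1 0 c).1
      simp_rw [norm_ff r 0 h0] at this; exact this
    have hnorm : ∀ t : ℝ, ‖Complex.exp (-Complex.I * ((w : ℝ) * t : ℝ))‖ = 1 := by
      intro t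
      have : -Complex.I * ((w : ℝ) * t : ℝ) = ((-(w * t) : ℝ) : ℂ) * Complex.I := by push_cast; ring
      rw [this]; exact Complex.norm_exp_ofReal_mul_I _
    refine intervalIntegral.hasSum_integral_of_dominated_convergence (fun k _ => aa r c k) ?_ ?_ ?_ ?_ ?_
    · intro k
      refine Continuous.aestronglyMeasurable ?_
      unfold ff ee; fun_prop
    · intro k
      refine Filter.Eventually.of_forall fun t _ => ?_
      rw [norm_mul, hnorm, mul_one, norm_ff r t h0]
    · exact Filter.Eventually.of_forall fun t _ => hsa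
    · exact intervalIntegrable_const
    · refine Filter.Eventually.of_forall fun t _ => ?_
      have h := main_series h0 h1 t c
      have h2 : HasSum (fun k => ff r t c k) ((E1 r t) ^ c) := by
        rw [← h.2]; exact h.1.of_norm.hasSum
      exact h2.mul_right _
  have hval : ∀ k : ℕ, (∫ t in (-Real.pi)..Real.pi,
        ff r t c k * Complex.exp (-Complex.I * ((w : ℝ) * t : ℝ))) =
      if k = w then (2 * Real.pi : ℂ) * aa r c w else 0 := by
    intro k
    have : ∀ t : ℝ, ff r t c k * Complex.exp (-Complex.I * ((w : ℝ) * t : ℝ)) =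
        (aa r c k : ℂ) * (ee t k * Complex.exp (-Complex.I * ((w : ℝ) * t : ℝ))) := by
      intro t; unfold ff; ring
    simp_rw [this]
    rw [intervalIntegral.integral_const_mul, orth]
    split_ifs with hk
    · subst hk; ring
    · ring
  simp_rw [hval] at hsum
  exact (hsum.unique (hasSum_ite_eq w _))

lemma trinomial (N : ℕ) (x y : ℂ) :
    (1 + x + y) ^ N = ∑ c ∈ range (N + 1), ∑ c' ∈ range (N + 1 - c),
      (N.factorial : ℂ) / ((c.factorial : ℂ) * (c'.factorial : ℂ) * ((N - c - c').factorial : ℂ)) *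
        (x ^ c * y ^ c') := by
  have h : (1 + x + y) ^ N = (x + (y + 1)) ^ N := by ring
  rw [h, add_pow]
  refine Finset.sum_congr rfl fun c hc => ?_
  have hc' : c ≤ N := by simpa [Nat.lt_succ_iff] using hc
  rw [add_pow, Finset.mul_sum, Finset.sum_mul]
  have hr : N - c + 1 = N + 1 - c := by omega
  rw [hr]
  refine Finset.sum_congr rfl fun c' hc2 => ?_
  have hc3 : c' ≤ N - c := by rw [mem_range] at hc2; omega
  rw [one_pow, mul_one, Nat.cast_choose ℂ hc', Nat.cast_choose ℂ hc3]
  have e1 : (c.factorial : ℂ) ≠ 0 := by exact_mod_cast Nat.factorial_ne_zero _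
  have e2 : (c'.factorial : ℂ) ≠ 0 := by exact_mod_cast Nat.factorial_ne_zero _
  have e3 : ((N - c).factorial : ℂ) ≠ 0 := by exact_mod_cast Nat.factorial_ne_zero _
  have e4 : ((N - c - c').factorial : ℂ) ≠ 0 := by exact_mod_cast Nat.factorial_ne_zero _
  field_simp

lemma lhs_eq (N w : ℕ) (r : ℝ) :
    PN N w * 3 ^ N * r ^ (2 * w) = ∑ c ∈ range (N + 1), ∑ c' ∈ range (N + 1 - c),
      (N.factorial : ℝ) / ((c.factorial : ℝ) * (c'.factorial : ℝ) * ((N - c - c').factorial : ℝ)) *
        (aa r c w * aa r c' w) := by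
  unfold PN BB aa
  have h3 : (3 : ℝ) ^ N ≠ 0 := by positivity
  have h256 : (256 : ℝ) ^ w ≠ 0 := by positivity
  have h16 : (16 : ℝ) ^ w * 16 ^ w = 256 ^ w := by rw [← mul_pow]; norm_num
  have h16' : (16 : ℝ) ^ w ≠ 0 := by positivity
  rw [Finset.sum_div, Finset.sum_mul, Finset.sum_mul]
  refine Finset.sum_congr rfl fun c _ => ?_
  rw [Finset.sum_div, Finset.sum_mul, Finset.sum_mul]
  refine Finset.sum_congr rfl fun c' _ => ?_
  rw [div_pow, ← h16, two_mul, pow_add]
  field_simp

end fourX

open fourX in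
theorem p_four (_h1 : S_ps) : S_four := by
  intro N w r h0 h1
  have hc := cont_E1 h0 h1
  have hpi : (Real.pi : ℂ) ≠ 0 := by exact_mod_cast Real.pi_ne_zero
  set K : ℕ → ℕ → ℂ := fun c c' => (N.factorial : ℂ) /
    ((c.factorial : ℂ) * (c'.factorial : ℂ) * ((N - c - c').factorial : ℂ)) with hK
  -- rewrite the integrand
  have hint : ∀ s t : ℝ, (1 + E1 r s + E1 r t) ^ N * Complex.exp (-Complex.I * ((w : ℝ) * (s + t) : ℝ)) =
      ∑ c ∈ range (N + 1), ∑ c' ∈ range (N + 1 - c),
        (K c c' * (E1 r s ^ c * Complex.exp (-Complex.I * ((w : ℝ) * s : ℝ)))) *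
          (E1 r t ^ c' * Complex.exp (-Complex.I * ((w : ℝ) * t : ℝ))) := by
    intro s t
    rw [trinomial, Finset.sum_mul]
    refine Finset.sum_congr rfl fun c _ => ?_
    rw [Finset.sum_mul]
    refine Finset.sum_congr rfl fun c' _ => ?_
    have : Complex.exp (-Complex.I * ((w : ℝ) * (s + t) : ℝ)) =
        Complex.exp (-Complex.I * ((w : ℝ) * s : ℝ)) * Complex.exp (-Complex.I * ((w : ℝ) * t : ℝ)) := by
      rw [← Complex.exp_add]; congr 1; push_cast; ring
    rw [this]; ring
  have hcont : ∀ c : ℕ, Continuous fun t : ℝ =>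
      E1 r t ^ c * Complex.exp (-Complex.I * ((w : ℝ) * t : ℝ)) := by
    intro c
    refine (hc.pow c).mul ?_
    fun_prop
  have hinner : ∀ s : ℝ, (∫ t in (-Real.pi)..Real.pi,
      (1 + E1 r s + E1 r t) ^ N * Complex.exp (-Complex.I * ((w : ℝ) * (s + t) : ℝ))) =
      ∑ c ∈ range (N + 1), ∑ c' ∈ range (N + 1 - c),
        (K c c' * (2 * Real.pi * aa r c' w)) *
          (E1 r s ^ c * Complex.exp (-Complex.I * ((w : ℝ) * s : ℝ))) := by
    intro s
    simp_rw [hint s]
    rw [intervalIntegral.integral_finsetSum]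
    · refine Finset.sum_congr rfl fun c _ => ?_
      rw [intervalIntegral.integral_finsetSum]
      · refine Finset.sum_congr rfl fun c' _ => ?_
        rw [intervalIntegral.integral_const_mul, J_eq h0 h1]; ring
      · intro c' _
        exact (continuous_const.mul (hcont c')).intervalIntegrable _ _
    · intro c _
      refine Continuous.intervalIntegrable ?_ _ _
      exact continuous_finsetSum _ fun c' _ => continuous_const.mul (hcont c')
  simp_rw [hinner]
  have hl : ((PN N w * 3 ^ N * r ^ (2 * w) : ℝ) : ℂ) = ∑ c ∈ range (N + 1), ∑ c' ∈ range (N + 1 - c),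
      K c c' * ((aa r c w : ℂ) * (aa r c' w : ℂ)) := by
    rw [lhs_eq]; push_cast; rfl
  rw [hl, intervalIntegral.integral_finsetSum]
  · rw [Finset.mul_sum]
    refine Finset.sum_congr rfl fun c _ => ?_
    rw [intervalIntegral.integral_finsetSum]
    · rw [Finset.mul_sum]
      refine Finset.sum_congr rfl fun c' _ => ?_
      rw [intervalIntegral.integral_const_mul, J_eq h0 h1]
      push_cast
      field_simp
      ring
    · intro c' _
      exact (continuous_const.mul (hcont c)).intervalIntegrable _ _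
  · intro c _
    refine Continuous.intervalIntegrable ?_ _ _
    exact continuous_finsetSum _ fun c' _ => continuous_const.mul (hcont c)

end Pool.Agent.ALM
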