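import Pool.Agent.Lib.MP_fc2a59_co.ALM.A.Stm

set_option autoImplicit false

namespace Pool.Agent.ALM

open Finset Filter Topology MeasureTheory
open scoped Classical

namespace locX

/-- cubic Taylor bound for the exponential -/
lemma taylor (u : ℝ) :
    ‖Complex.exp (Complex.I * (u : ℂ)) - 1 - Complex.I * u + (u : ℂ) ^ 2 / 2‖ ≤ 4 * |u| ^ 3 := by
  have h2 : ‖Complex.I * (u : ℂ)‖ = |u| := by simp
  have h0 : 0 ≤ |u| := abs_nonneg u
  rcases le_or_gt |u| 1 with h | h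
  · have h3 := Complex.exp_bound (x := Complex.I * (u : ℂ)) (by rw [h2]; exact h) (n := 3)
      (by norm_num)
    rw [h2] at h3
    have e1 : (∑ m ∈ range 3, (Complex.I * (u : ℂ)) ^ m / (m.factorial : ℂ)) =
        1 + Complex.I * u - (u : ℂ) ^ 2 / 2 := by
      simp only [Finset.sum_range_succ, Finset.sum_range_zero, Nat.factorial]
      push_cast
      linear_combination ((u : ℂ) ^ 2 / 2) * Complex.I_sq
    rw [e1] at h3
    have e2 : Complex.exp (Complex.I * (u : ℂ)) - 1 - Complex.I * u + (u : ℂ) ^ 2 / 2 =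
        Complex.exp (Complex.I * (u : ℂ)) - (1 + Complex.I * u - (u : ℂ) ^ 2 / 2) := by ring
    rw [e2]
    refine h3.trans ?_
    have h4 : 0 ≤ |u| ^ 3 := by positivity
    norm_num [Nat.factorial]
    linarith
  · have hn : ‖Complex.exp (Complex.I * (u : ℂ))‖ = 1 := by
      rw [mul_comm]; exact Complex.norm_exp_ofReal_mul_I u
    have h5 : ‖(u : ℂ) ^ 2 / 2‖ = |u| ^ 2 / 2 := by
      rw [norm_div, norm_pow, Complex.norm_real, Real.norm_eq_abs]; norm_num
    calc ‖Complex.exp (Complex.I * (u : ℂ)) - 1 - Complex.I * u + (u : ℂ) ^ 2 / 2‖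
        ≤ ‖Complex.exp (Complex.I * (u : ℂ))‖ + ‖(1 : ℂ)‖ + ‖Complex.I * (u : ℂ)‖ +
            ‖(u : ℂ) ^ 2 / 2‖ := by
          refine (norm_add_le _ _).trans ?_
          gcongr
          refine (norm_sub_le _ _).trans ?_
          gcongr
          exact norm_sub_le _ _
      _ = 1 + 1 + |u| + |u| ^ 2 / 2 := by rw [hn, h2, h5, norm_one]
      _ ≤ 4 * |u| ^ 3 := by nlinarith [mul_pos (sub_pos.mpr h) (sub_pos.mpr h), sq_nonneg (|u|)]

/-- the terms of `E1 1 t` -/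
noncomputable def F (t : ℝ) (s : ℕ) : ℂ :=
  if s = 0 then (0 : ℂ) else ((ps s * 1 ^ s : ℝ) : ℂ) * Complex.exp (Complex.I * ((s : ℝ) * t : ℝ))

lemma E1_eq (t : ℝ) : E1 1 t = ∑' s, F t s := rfl

lemma ps_nonneg (s : ℕ) : 0 ≤ ps s := by unfold ps; positivity

lemma ps_zero : ps 0 = 1 := by simp [ps]

lemma norm_F (t : ℝ) (s : ℕ) : ‖F t s‖ ≤ ps s := by
  unfold F
  split_ifs with h
  · rw [norm_zero]; exact ps_nonneg s
  · rw [norm_mul, mul_comm Complex.I, Complex.norm_exp_ofReal_mul_I, one_pow, mul_one, mul_one,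
      Complex.norm_real, Real.norm_eq_abs, abs_of_nonneg (ps_nonneg s)]

lemma cont (h1 : S_ps) : Continuous (E1 1) := by
  have : E1 1 = fun t => ∑' s, F t s := by funext t; exact E1_eq t
  rw [this]
  refine continuous_tsum (u := ps) (fun s => ?_) h1.1.summable fun s t => norm_F t s
  unfold F
  split_ifs
  · fun_prop
  · fun_prop

lemma expand (h1 : S_ps) : ∃ C : ℝ, 0 ≤ C ∧ ∀ t : ℝ,
    ‖E1 1 t - 1 - (3 * Complex.I) * t - (-(33 / 4)) * (t : ℂ) ^ 2‖ ≤ C * |t| ^ 3 := by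
  obtain ⟨p0, p1, p2, p3, -⟩ := h1
  refine ⟨4 * ∑' s : ℕ, (s : ℝ) ^ 3 * ps s, ?_, ?_⟩
  · have : 0 ≤ ∑' s : ℕ, (s : ℝ) ^ 3 * ps s :=
      tsum_nonneg fun s => mul_nonneg (by positivity) (ps_nonneg s)
    linarith
  intro t
  have q0 : HasSum (fun s : ℕ => if s = 0 then (0 : ℂ) else ((ps s : ℝ) : ℂ)) 1 := by
    have a := (hasSum_ite_eq (0 : ℕ) (1 : ℂ))
    have b := (Complex.hasSum_ofReal (f := fun s : ℕ => ps s) (x := 2)).mpr p0
    have c := b.sub a
    have e : (((2 : ℝ) : ℂ) - 1) = 1 := by push_cast; norm_num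
    rw [e] at c
    refine c.congr_fun ?_ |> fun h => h
    intro s
    by_cases hs : s = 0
    · subst hs; simp [ps_zero]
    · simp [hs]
  have q1 := (Complex.hasSum_ofReal (f := fun s : ℕ => (s : ℝ) * ps s) (x := 3)).mpr p1
  have q2 := (Complex.hasSum_ofReal (f := fun s : ℕ => (s : ℝ) ^ 2 * ps s) (x := 33 / 2)).mpr p2
  have qF : HasSum (F t) (E1 1 t) := by
    rw [E1_eq]
    exact (Summable.of_norm_bounded p0.summable (norm_F t)).hasSum
  have q := ((qF.sub q0).sub (q1.mul_left (Complex.I * t))).add (q2.mul_left ((t : ℂ) ^ 2 / 2))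
  have e : E1 1 t - 1 - (3 * Complex.I) * t - (-(33 / 4)) * (t : ℂ) ^ 2 =
      E1 1 t - 1 - Complex.I * t * ((3 : ℝ) : ℂ) + (t : ℂ) ^ 2 / 2 * ((33 / 2 : ℝ) : ℂ) := by
    push_cast; ring
  rw [e, ← q.tsum_eq]
  have hb : ∀ s : ℕ, ‖F t s - (if s = 0 then (0 : ℂ) else ((ps s : ℝ) : ℂ)) -
      Complex.I * t * (((s : ℝ) * ps s : ℝ) : ℂ) +
      (t : ℂ) ^ 2 / 2 * (((s : ℝ) ^ 2 * ps s : ℝ) : ℂ)‖ ≤ 4 * |t| ^ 3 * ((s : ℝ) ^ 3 * ps s) := by
    intro s
    by_cases hs : s = 0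
    · subst hs
      simp [F]
    · have e3 : F t s - (if s = 0 then (0 : ℂ) else ((ps s : ℝ) : ℂ)) -
          Complex.I * t * (((s : ℝ) * ps s : ℝ) : ℂ) +
          (t : ℂ) ^ 2 / 2 * (((s : ℝ) ^ 2 * ps s : ℝ) : ℂ) =
          ((ps s : ℝ) : ℂ) * (Complex.exp (Complex.I * (((s : ℝ) * t : ℝ) : ℂ)) - 1 -
            Complex.I * (((s : ℝ) * t : ℝ) : ℂ) + (((s : ℝ) * t : ℝ) : ℂ) ^ 2 / 2) := by
        simp only [F, hs, if_false]
        push_cast
        ring
      rw [e3, norm_mul, Complex.norm_real, Real.norm_eq_abs, abs_of_nonneg (ps_nonneg s)]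
      have h6 := taylor ((s : ℝ) * t)
      have h7 : |(s : ℝ) * t| ^ 3 = (s : ℝ) ^ 3 * |t| ^ 3 := by
        rw [abs_mul, mul_pow, Nat.abs_cast]
      rw [h7] at h6
      calc ps s * _ ≤ ps s * (4 * ((s : ℝ) ^ 3 * |t| ^ 3)) :=
            mul_le_mul_of_nonneg_left h6 (ps_nonneg s)
        _ = 4 * |t| ^ 3 * ((s : ℝ) ^ 3 * ps s) := by ring
  have hs := p3.mul_left (4 * |t| ^ 3)
  refine (tsum_of_norm_bounded hs.hasSum hb).trans ?_
  rw [tsum_mul_left]
  apply le_of_eq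
  ring

lemma expand2 : ∀ t : ℝ, ‖Complex.exp (-(Complex.I * t)) - 1 - (-Complex.I) * t -
    (-(1 / 2)) * (t : ℂ) ^ 2‖ ≤ 4 * |t| ^ 3 := by
  intro t
  have h := taylor (-t)
  rw [abs_neg] at h
  refine le_trans (le_of_eq ?_) h
  congr 1
  push_cast
  ring_nf

/-- second order difference quotients -/
lemma quad (f : ℝ → ℂ) (a b : ℂ) (C : ℝ)
    (h : ∀ t : ℝ, ‖f t - 1 - a * t - b * (t : ℂ) ^ 2‖ ≤ C * |t| ^ 3) (x : ℝ) (e : ℕ → ℝ)
    (he : Tendsto e atTop (𝓝 0)) (he0 : ∀ᶠ n in atTop, e n ≠ 0) :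
    Tendsto (fun n => (f (x * e n) - 1 - a * ((x * e n : ℝ) : ℂ)) / (e n : ℂ) ^ 2) atTop
      (𝓝 (b * (x : ℂ) ^ 2)) := by
  rw [tendsto_iff_norm_sub_tendsto_zero]
  have hz : Tendsto (fun n => C * |x| ^ 3 * |e n|) atTop (𝓝 0) := by
    have : Tendsto (fun n => C * |x| ^ 3 * |e n|) atTop (𝓝 (C * |x| ^ 3 * |(0 : ℝ)|)) :=
      (he.abs).const_mul _
    simpa using this
  refine squeeze_zero' (Eventually.of_forall fun n => norm_nonneg _) ?_ hz
  filter_upwards [he0] with n hn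
  have hn' : (e n : ℂ) ≠ 0 := by exact_mod_cast hn
  have e1 : (f (x * e n) - 1 - a * ((x * e n : ℝ) : ℂ)) / (e n : ℂ) ^ 2 - b * (x : ℂ) ^ 2 =
      (f (x * e n) - 1 - a * ((x * e n : ℝ) : ℂ) - b * ((x * e n : ℝ) : ℂ) ^ 2) / (e n : ℂ) ^ 2 := by
    push_cast
    field_simp
  rw [e1, norm_div, norm_pow, Complex.norm_real, Real.norm_eq_abs]
  rw [div_le_iff₀ (by positivity)]
  refine (h (x * e n)).trans (le_of_eq ?_)
  rw [abs_mul]
  ring

end locX

open locX

theorem p_loc (h1 : S_ps) (h2 : S_four) (h3 : S_chb) : S_loc := by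
  intro t v hv ht
  have hpi := Real.pi_pos
  -- the sequences
  have hsq : Tendsto (fun m : ℕ => 1 / Real.sqrt m) atTop (𝓝 0) := by
    have : Tendsto (fun m : ℕ => Real.sqrt (m : ℝ)) atTop atTop :=
      Real.tendsto_sqrt_atTop.comp tendsto_natCast_atTop_atTop
    have h4 := this.inv_tendsto_atTop
    refine h4.congr fun m => ?_
    rw [one_div]; rfl
  have hvm : Tendsto (fun m : ℕ => (v m : ℝ) / m) atTop (𝓝 (1 / 2)) := by
    have h4 : Tendsto (fun m : ℕ => 1 / 2 + ((v m : ℝ) - m / 2) / Real.sqrt m * (1 / Real.sqrt m))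
        atTop (𝓝 (1 / 2 + t * 0)) := (ht.mul hsq).const_add _
    rw [mul_zero, add_zero] at h4
    refine h4.congr' ?_
    filter_upwards [eventually_gt_atTop 0] with m hm
    have hm' : (0 : ℝ) < m := by exact_mod_cast hm
    have h5 : Real.sqrt m * Real.sqrt m = m := Real.mul_self_sqrt hm'.le
    have h6 : Real.sqrt m ≠ 0 := (Real.sqrt_pos.mpr hm').ne'
    have : ((v m : ℝ) - m / 2) / Real.sqrt m * (1 / Real.sqrt m) = ((v m : ℝ) - m / 2) / m := by
      rw [div_mul_div_comm, mul_one, h5]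
    rw [this]
    field_simp
    ring
  have hinv : Tendsto (fun m : ℕ => 1 / (m : ℝ)) atTop (𝓝 0) := tendsto_one_div_atTop_nhds_zero_nat
  have hNm : Tendsto (fun m : ℕ => ((v m + 2 : ℕ) : ℝ) / m) atTop (𝓝 (1 / 2)) := by
    have h4 := hvm.add (hinv.const_mul 2)
    rw [mul_zero, add_zero] at h4
    refine h4.congr fun m => ?_
    push_cast
    ring
  have hmN : Tendsto (fun m : ℕ => (m : ℝ) / ((v m + 2 : ℕ) : ℝ)) atTop (𝓝 2) := by
    have h4 := hNm.inv₀ (by norm_num)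
    have : ((1 : ℝ) / 2)⁻¹ = 2 := by norm_num
    rw [this] at h4
    refine h4.congr fun m => ?_
    rw [inv_div]
  have hN : Tendsto (fun m : ℕ => v m + 2) atTop atTop := by
    have h4 : Tendsto (fun m : ℕ => ((v m + 2 : ℕ) : ℝ) / m * m) atTop atTop :=
      hNm.pos_mul_atTop (by norm_num) tendsto_natCast_atTop_atTop
    have h5 : Tendsto (fun m : ℕ => ((v m + 2 : ℕ) : ℝ)) atTop atTop := by
      refine h4.congr' ?_
      filter_upwards [eventually_gt_atTop 0] with m hm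
      have hm' : (m : ℝ) ≠ 0 := by exact_mod_cast hm.ne'
      field_simp
    exact tendsto_natCast_atTop_iff.mp h5
  obtain ⟨e, he⟩ : ∃ e : ℕ → ℝ, e = fun N : ℕ => 1 / Real.sqrt (N : ℝ) := ⟨_, rfl⟩
  have he0 : Tendsto e atTop (𝓝 0) := by rw [he]; exact hsq
  have hepos : ∀ N : ℕ, 0 < N → 0 < e N := by
    intro N hN
    rw [he]
    have : (0 : ℝ) < N := by exact_mod_cast hN
    positivity
  have hesq : ∀ N : ℕ, 0 < N → e N ^ 2 * N = 1 := by
    intro N hN
    rw [he]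
    have h4 : (0 : ℝ) < N := by exact_mod_cast hN
    simp only
    rw [div_pow, Real.sq_sqrt h4.le]
    field_simp
  have hene : ∀ᶠ N in atTop, e N ≠ 0 := by
    filter_upwards [eventually_gt_atTop 0] with N hN using (hepos N hN).ne'
  -- exponents
  have hβ : Tendsto (fun m : ℕ => ((v m + 2 : ℕ) - ((m - v m : ℕ) : ℝ)) * e (v m + 2)) atTop
      (𝓝 (2 * Real.sqrt 2 * t)) := by
    have h4 : Tendsto (fun m : ℕ => Real.sqrt ((m : ℝ) / ((v m + 2 : ℕ) : ℝ))) atTop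
        (𝓝 (Real.sqrt 2)) := (Real.continuous_sqrt.tendsto 2).comp hmN
    have h5 : Tendsto (fun m : ℕ => 2 * (((v m : ℝ) - m / 2) / Real.sqrt m *
        Real.sqrt ((m : ℝ) / ((v m + 2 : ℕ) : ℝ))) + 2 * e (v m + 2)) atTop
        (𝓝 (2 * (t * Real.sqrt 2) + 2 * 0)) :=
      ((ht.mul h4).const_mul 2).add ((he0.comp hN).const_mul 2)
    have h6 : 2 * (t * Real.sqrt 2) + 2 * 0 = 2 * Real.sqrt 2 * t := by ring
    rw [h6] at h5
    refine h5.congr' ?_
    filter_upwards [eventually_gt_atTop 0] with m hm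
    have hm' : (0 : ℝ) < m := by exact_mod_cast hm
    have h7 : Real.sqrt m ≠ 0 := (Real.sqrt_pos.mpr hm').ne'
    have h8 : (0 : ℝ) < ((v m + 2 : ℕ) : ℝ) := by positivity
    have h9 : Real.sqrt ((v m + 2 : ℕ) : ℝ) ≠ 0 := (Real.sqrt_pos.mpr h8).ne'
    rw [Real.sqrt_div hm'.le, Nat.cast_sub (hv m), he]
    simp only
    generalize Real.sqrt ((v m + 2 : ℕ) : ℝ) = q at h9 ⊢
    push_cast
    field_simp
    ring
  -- the pointwise limit of the powers
  have hpt : ∀ x y : ℝ, Tendsto (fun N : ℕ => ((1 + E1 1 (x * e N) + E1 1 (y * e N)) / 3 *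
      Complex.exp (-(Complex.I * (((x + y) * e N : ℝ) : ℂ)))) ^ N) atTop
      (𝓝 (Complex.exp (-(9 / 4) * ((x : ℂ) ^ 2 + (y : ℂ) ^ 2) + (x : ℂ) * y))) := by
    intro x y
    obtain ⟨C, -, hC⟩ := expand h1
    have ha := quad (E1 1) (3 * Complex.I) (-(33 / 4)) C hC x e he0 hene
    have hb := quad (E1 1) (3 * Complex.I) (-(33 / 4)) C hC y e he0 hene
    have hc := quad (fun u => Complex.exp (-(Complex.I * u))) (-Complex.I) (-(1 / 2)) 4 expand2
      (x + y) e he0 hene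
    have hec : Tendsto (fun N => ((e N : ℝ) : ℂ)) atTop (𝓝 (0 : ℂ)) := by
      have h4 := (Complex.continuous_ofReal.tendsto 0).comp he0
      rw [Complex.ofReal_zero] at h4
      exact h4
    have hlim := (hc.add_const (((x : ℂ) + y) ^ 2)).add
      ((((hec.mul hc).const_mul (Complex.I * ((x : ℂ) + y)))).add
        (((ha.add hb).div_const 3).mul
          ((tendsto_const_nhds (x := (1 : ℂ))).sub
            (hec.const_mul (Complex.I * ((x : ℂ) + y))) |>.add ((hec.pow 2).mul hc))))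
    have hg : Tendsto (fun N : ℕ => (N : ℂ) * ((1 + E1 1 (x * e N) + E1 1 (y * e N)) / 3 *
        Complex.exp (-(Complex.I * (((x + y) * e N : ℝ) : ℂ))) - 1)) atTop
        (𝓝 (-(9 / 4) * ((x : ℂ) ^ 2 + (y : ℂ) ^ 2) + (x : ℂ) * y)) := by
      have hval : (-(9 / 4) * ((x : ℂ) ^ 2 + (y : ℂ) ^ 2) + (x : ℂ) * y) =
          (-(1 / 2)) * (((x + y : ℝ) : ℂ)) ^ 2 + ((x : ℂ) + y) ^ 2 +
          (Complex.I * ((x : ℂ) + y) * (0 * ((-(1 / 2)) * (((x + y : ℝ) : ℂ)) ^ 2)) +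
            ((-(33 / 4)) * (x : ℂ) ^ 2 + (-(33 / 4)) * (y : ℂ) ^ 2) / 3 *
              (1 - Complex.I * ((x : ℂ) + y) * 0 + 0 ^ 2 * ((-(1 / 2)) * (((x + y : ℝ) : ℂ)) ^ 2))) := by
        push_cast
        ring
      rw [hval]
      refine hlim.congr' ?_
      filter_upwards [eventually_gt_atTop 0] with N hN
      have h5 := hesq N hN
      have h6 : ((e N : ℝ) : ℂ) ^ 2 * (N : ℂ) = 1 := by exact_mod_cast h5
      have h7 : ((e N : ℝ) : ℂ) ≠ 0 := by exact_mod_cast (hepos N hN).ne'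
      have h8 : (N : ℂ) = 1 / ((e N : ℝ) : ℂ) ^ 2 := by
        field_simp
        rw [mul_comm]
        exact h6
      rw [h8]
      simp only [Complex.ofReal_mul, Complex.ofReal_add]
      generalize ((e N : ℝ) : ℂ) = q at h7 ⊢
      generalize E1 1 (x * e N) = A
      generalize E1 1 (y * e N) = B
      generalize Complex.exp (-(Complex.I * (((x : ℂ) + y) * q))) = D
      field_simp
      linear_combination (((x : ℂ) + y) ^ 2 * q ^ 2 * 3) * Complex.I_sq
    have := Complex.tendsto_one_add_pow_exp_of_tendsto hg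
    refine this.congr fun N => ?_
    rw [add_sub_cancel]
  -- the integrand
  obtain ⟨P, hP⟩ : ∃ P : Set (ℝ × ℝ), P = Set.Ioc (-Real.pi) Real.pi ×ˢ Set.Ioc (-Real.pi) Real.pi :=
    ⟨_, rfl⟩
  have hPm : MeasurableSet P := by rw [hP]; exact measurableSet_Ioc.prod measurableSet_Ioc
  obtain ⟨f, hf⟩ : ∃ f : ℕ → ℝ × ℝ → ℂ, f = fun (m : ℕ) (z : ℝ × ℝ) =>
      (1 + E1 1 z.1 + E1 1 z.2) ^ (v m + 2) *
        Complex.exp (-Complex.I * ((((m - v m : ℕ) : ℝ) * (z.1 + z.2) : ℝ) : ℂ)) := ⟨_, rfl⟩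
  have hcE := cont h1
  have hfc : ∀ m, Continuous (f m) := by
    intro m
    rw [hf]
    have a1 : Continuous fun z : ℝ × ℝ => E1 1 z.1 := hcE.comp continuous_fst
    have a2 : Continuous fun z : ℝ × ℝ => E1 1 z.2 := hcE.comp continuous_snd
    have a3 : Continuous fun z : ℝ × ℝ =>
        Complex.exp (-Complex.I * ((((m - v m : ℕ) : ℝ) * (z.1 + z.2) : ℝ) : ℂ)) := by fun_prop
    exact (((continuous_const.add a1).add a2).pow _).mul a3
  obtain ⟨c, hc, hchb⟩ := h3 2 2 (by norm_num) le_rfl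
  have hchb' : ∀ s u : ℝ, |s| ≤ Real.pi → |u| ≤ Real.pi →
      ‖1 + E1 1 s + E1 1 u‖ ≤ 3 * Real.exp (-c * (s ^ 2 + u ^ 2)) := by
    intro s u hs hu
    have h4 := hchb 2 le_rfl le_rfl s u hs hu
    have h5 : (4 / 3 * (1 - 1 / (2 : ℝ) ^ 2)) = 1 := by norm_num
    have h6 : (2 * (2 : ℝ) - 1) = 3 := by norm_num
    rw [h5, h6] at h4
    exact h4
  -- the formula for `N * PN`
  have hform : ∀ m : ℕ, ((((v m + 2 : ℕ) : ℝ) * PN (v m + 2) (m - v m) : ℝ) : ℂ) =
      (1 / (4 * Real.pi ^ 2 : ℝ) : ℂ) *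
        ∫ z : ℝ × ℝ, P.indicator (f m) (e (v m + 2) • z) / 3 ^ (v m + 2) := by
    intro m
    have h4 := h2 (v m + 2) (m - v m) 1 one_pos (by norm_num)
    have h5 : (∫ s in (-Real.pi)..Real.pi, ∫ u in (-Real.pi)..Real.pi,
        (1 + E1 1 s + E1 1 u) ^ (v m + 2) *
          Complex.exp (-Complex.I * ((((m - v m : ℕ) : ℝ) * (s + u) : ℝ) : ℂ))) =
        ∫ z : ℝ × ℝ, P.indicator (f m) z := by
      rw [integral_indicator hPm, hP]
      have hint : IntegrableOn (f m) (Set.Ioc (-Real.pi) Real.pi ×ˢ Set.Ioc (-Real.pi) Real.pi)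
          (volume.prod volume) := by
        have h6 : IntegrableOn (f m) (Set.Icc (-Real.pi) Real.pi ×ˢ Set.Icc (-Real.pi) Real.pi)
            (volume.prod volume) :=
          (hfc m).continuousOn.integrableOn_compact (isCompact_Icc.prod isCompact_Icc)
        exact h6.mono_set (Set.prod_mono Set.Ioc_subset_Icc_self Set.Ioc_subset_Icc_self)
      have h7 := setIntegral_prod (f m) hint
      have h8 : (volume : Measure (ℝ × ℝ)) = volume.prod volume := rfl
      rw [h8, h7, intervalIntegral.integral_of_le (by linarith)]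
      refine setIntegral_congr_fun measurableSet_Ioc fun s _ => ?_
      rw [intervalIntegral.integral_of_le (by linarith), hf]
    have hNp : 0 < v m + 2 := by omega
    have h9 := hesq (v m + 2) hNp
    have h10 := hepos (v m + 2) hNp
    have h11 := Measure.integral_comp_smul (volume : Measure (ℝ × ℝ)) (P.indicator (f m))
      (e (v m + 2))
    have h12 : Module.finrank ℝ (ℝ × ℝ) = 2 := by simp
    have h13 : |(e (v m + 2) ^ 2)⁻¹| = ((v m + 2 : ℕ) : ℝ) := by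
      rw [abs_of_nonneg (by positivity)]
      exact inv_eq_of_mul_eq_one_right h9
    rw [h12, h13] at h11
    have h14 : (∫ z : ℝ × ℝ, P.indicator (f m) (e (v m + 2) • z) / 3 ^ (v m + 2)) =
        (((v m + 2 : ℕ) : ℝ) : ℂ) * (∫ z : ℝ × ℝ, P.indicator (f m) z) / 3 ^ (v m + 2) := by
      rw [integral_div, h11]
      simp
    rw [h14, ← h5]
    rw [one_pow, mul_one] at h4
    have h15 : ((((v m + 2 : ℕ) : ℝ) * PN (v m + 2) (m - v m) : ℝ) : ℂ) =
        (((v m + 2 : ℕ) : ℝ) : ℂ) * ((PN (v m + 2) (m - v m) * 3 ^ (v m + 2) : ℝ) : ℂ) /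
          3 ^ (v m + 2) := by
      push_cast
      field_simp
    rw [h15, h4]
    ring
  -- dominated convergence
  obtain ⟨β, hβd⟩ : ∃ β : ℝ, β = 2 * Real.sqrt 2 * t := ⟨_, rfl⟩
  rw [← hβd] at hβ
  obtain ⟨L, hL⟩ : ∃ L : ℝ × ℝ → ℂ, L = fun z : ℝ × ℝ =>
      Complex.exp (-(9 / 4) * ((z.1 : ℂ) ^ 2 + (z.2 : ℂ) ^ 2) + (z.1 : ℂ) * z.2) *
        Complex.exp (Complex.I * ((β * (z.1 + z.2) : ℝ) : ℂ)) := ⟨_, rfl⟩
  have hdom : ∀ (m : ℕ) (z : ℝ × ℝ), ‖P.indicator (f m) (e (v m + 2) • z) / 3 ^ (v m + 2)‖ ≤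
      Real.exp (-c * z.1 ^ 2) * Real.exp (-c * z.2 ^ 2) := by
    intro m z
    by_cases hz : e (v m + 2) • z ∈ P
    · rw [Set.indicator_of_mem hz, norm_div, norm_pow]
      have hz' := hz
      rw [hP] at hz'
      have z1 : |e (v m + 2) * z.1| ≤ Real.pi := abs_le.mpr ⟨hz'.1.1.le, hz'.1.2⟩
      have z2 : |e (v m + 2) * z.2| ≤ Real.pi := abs_le.mpr ⟨hz'.2.1.le, hz'.2.2⟩
      have h4 := hchb' _ _ z1 z2
      have h5 := hesq (v m + 2) (by omega)
      have h6 : ‖f m (e (v m + 2) • z)‖ ≤ 3 ^ (v m + 2) *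
          (Real.exp (-c * z.1 ^ 2) * Real.exp (-c * z.2 ^ 2)) := by
        rw [hf]
        simp only [Prod.smul_fst, Prod.smul_snd, smul_eq_mul]
        rw [norm_mul, norm_pow]
        have h7 : ‖Complex.exp (-Complex.I * ((((m - v m : ℕ) : ℝ) *
            (e (v m + 2) * z.1 + e (v m + 2) * z.2) : ℝ) : ℂ))‖ = 1 := by
          rw [Complex.norm_exp]
          simp
        rw [h7, mul_one]
        calc ‖1 + E1 1 (e (v m + 2) * z.1) + E1 1 (e (v m + 2) * z.2)‖ ^ (v m + 2)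
            ≤ (3 * Real.exp (-c * ((e (v m + 2) * z.1) ^ 2 + (e (v m + 2) * z.2) ^ 2))) ^
                (v m + 2) := pow_le_pow_left₀ (norm_nonneg _) h4 _
          _ = 3 ^ (v m + 2) * (Real.exp (-c * z.1 ^ 2) * Real.exp (-c * z.2 ^ 2)) := by
              rw [mul_pow, ← Real.exp_nat_mul, ← Real.exp_add]
              congr 2
              linear_combination (-c * (z.1 ^ 2 + z.2 ^ 2)) * h5
      have h8 : ‖(3 : ℂ)‖ = 3 := by simp
      rw [h8, div_le_iff₀ (by positivity)]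
      linarith
    · rw [Set.indicator_of_notMem hz, zero_div, norm_zero]
      positivity
  have hlimz : ∀ z : ℝ × ℝ, Tendsto
      (fun m : ℕ => P.indicator (f m) (e (v m + 2) • z) / 3 ^ (v m + 2)) atTop (𝓝 (L z)) := by
    intro z
    have h4 := (hpt z.1 z.2).comp hN
    have h5 : Tendsto (fun m : ℕ => Complex.exp (Complex.I *
        ((((((v m + 2 : ℕ) : ℝ) - ((m - v m : ℕ) : ℝ)) * e (v m + 2)) * (z.1 + z.2) : ℝ) : ℂ)))
        atTop (𝓝 (Complex.exp (Complex.I * ((β * (z.1 + z.2) : ℝ) : ℂ)))) := by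
      have h6 : Continuous fun u : ℝ => Complex.exp (Complex.I * ((u * (z.1 + z.2) : ℝ) : ℂ)) := by
        fun_prop
      exact (h6.tendsto β).comp hβ
    have h7 := h4.mul h5
    rw [hL]
    refine h7.congr' ?_
    have h8 : Tendsto (fun m : ℕ => e (v m + 2) * z.1) atTop (𝓝 0) := by
      have := (he0.comp hN).mul_const z.1
      rw [zero_mul] at this
      exact this
    have h9 : Tendsto (fun m : ℕ => e (v m + 2) * z.2) atTop (𝓝 0) := by
      have := (he0.comp hN).mul_const z.2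
      rw [zero_mul] at this
      exact this
    have hnb : Set.Ioc (-Real.pi) Real.pi ∈ 𝓝 (0 : ℝ) := Ioc_mem_nhds (by linarith) hpi
    filter_upwards [h8.eventually_mem hnb, h9.eventually_mem hnb] with m hm1 hm2
    have hz : e (v m + 2) • z ∈ P := by
      rw [hP]
      exact ⟨hm1, hm2⟩
    rw [Set.indicator_of_mem hz, hf]
    simp only [Function.comp, Prod.smul_fst, Prod.smul_snd, smul_eq_mul]
    rw [mul_pow, div_pow, ← Complex.exp_nat_mul, mul_comm z.1, mul_comm z.2, mul_assoc,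
      ← Complex.exp_add, div_mul_eq_mul_div]
    congr 3
    push_cast
    ring
  have hconv : Tendsto (fun m : ℕ => ∫ z : ℝ × ℝ,
      P.indicator (f m) (e (v m + 2) • z) / 3 ^ (v m + 2)) atTop (𝓝 (∫ z : ℝ × ℝ, L z)) := by
    refine tendsto_integral_of_dominated_convergence
      (fun z : ℝ × ℝ => Real.exp (-c * z.1 ^ 2) * Real.exp (-c * z.2 ^ 2)) ?_ ?_ ?_ ?_
    · intro m
      have h4 : Measurable (P.indicator (f m)) := (hfc m).measurable.indicator hPm
      have h5 : Measurable fun z : ℝ × ℝ => e (v m + 2) • z := measurable_const_smul _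
      exact ((h4.comp h5).div_const _).aestronglyMeasurable
    · exact (integrable_exp_neg_mul_sq hc).mul_prod (integrable_exp_neg_mul_sq hc)
    · intro m
      exact Eventually.of_forall fun z => hdom m z
    · exact Eventually.of_forall fun z => hlimz z
  -- the Gaussian integral
  have hLint : Integrable L := by
    have h4 : Integrable fun z : ℝ × ℝ => Real.exp (-(7 / 4) * z.1 ^ 2) *
        Real.exp (-(7 / 4) * z.2 ^ 2) :=
      (integrable_exp_neg_mul_sq (b := 7 / 4) (by norm_num)).mul_prod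
        (integrable_exp_neg_mul_sq (b := 7 / 4) (by norm_num))
    refine h4.mono' ?_ (Eventually.of_forall fun z => ?_)
    · have h5 : Continuous L := by
        rw [hL]
        fun_prop
      exact h5.aestronglyMeasurable
    · rw [hL]
      simp only
      rw [norm_mul, mul_comm Complex.I, Complex.norm_exp_ofReal_mul_I, mul_one, Complex.norm_exp,
        ← Real.exp_add]
      apply Real.exp_le_exp.mpr
      have h6 : (-(9 / 4) * ((z.1 : ℂ) ^ 2 + (z.2 : ℂ) ^ 2) + (z.1 : ℂ) * z.2) =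
          ((-(9 / 4) * (z.1 ^ 2 + z.2 ^ 2) + z.1 * z.2 : ℝ) : ℂ) := by
        push_cast; ring
      rw [h6, Complex.ofReal_re]
      nlinarith [sq_nonneg (z.1 - z.2)]
  have hgauss : ∫ z : ℝ × ℝ, L z =
      ((4 * Real.pi / Real.sqrt 77 * Real.exp (-(16 / 7) * t ^ 2) : ℝ) : ℂ) := by
    have h4 : (volume : Measure (ℝ × ℝ)) = volume.prod volume := rfl
    rw [h4] at hLint ⊢
    rw [integral_prod _ hLint]
    have h5 : ∀ x : ℝ, (∫ y : ℝ, L (x, y)) = ((Real.sqrt (4 * Real.pi / 9) : ℝ) : ℂ) *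
        Complex.exp (-(77 / 36) * (x : ℂ) ^ 2 + (11 * Complex.I * β / 9) * x + (-(β : ℂ) ^ 2 / 9)) := by
      intro x
      have h6 := integral_cexp_quadratic (b := (-(9 / 4) : ℂ)) (by norm_num)
        ((x : ℂ) + Complex.I * β) (-(9 / 4) * (x : ℂ) ^ 2 + Complex.I * β * x)
      have h7 : ((Real.pi : ℂ) / -(-(9 / 4) : ℂ)) ^ (1 / 2 : ℂ) =
          ((Real.sqrt (4 * Real.pi / 9) : ℝ) : ℂ) := by
        have h8 : ((Real.pi : ℂ) / -(-(9 / 4) : ℂ)) = ((4 * Real.pi / 9 : ℝ) : ℂ) := by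
          push_cast; ring
        rw [h8, Real.sqrt_eq_rpow, Complex.ofReal_cpow (by positivity)]
        norm_num
      rw [h7] at h6
      have h9 : (-(9 / 4) * (x : ℂ) ^ 2 + Complex.I * β * x -
          ((x : ℂ) + Complex.I * β) ^ 2 / (4 * (-(9 / 4)))) =
          (-(77 / 36) * (x : ℂ) ^ 2 + (11 * Complex.I * β / 9) * x + (-(β : ℂ) ^ 2 / 9)) := by
        linear_combination ((β : ℂ) ^ 2 / 9) * Complex.I_sq
      rw [h9] at h6
      rw [← h6]
      refine integral_congr_ae (Eventually.of_forall fun y => ?_)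
      rw [hL]
      simp only
      rw [← Complex.exp_add]
      congr 1
      push_cast
      ring
    have h10 : (∫ x : ℝ, ∫ y : ℝ, L (x, y)) = ∫ x : ℝ, ((Real.sqrt (4 * Real.pi / 9) : ℝ) : ℂ) *
        Complex.exp (-(77 / 36) * (x : ℂ) ^ 2 + (11 * Complex.I * β / 9) * x +
          (-(β : ℂ) ^ 2 / 9)) :=
      integral_congr_ae (Eventually.of_forall fun x => h5 x)
    have h11 := integral_cexp_quadratic (b := (-(77 / 36) : ℂ)) (by norm_num)
      (11 * Complex.I * β / 9) (-(β : ℂ) ^ 2 / 9)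
    have h12 : ((Real.pi : ℂ) / -(-(77 / 36) : ℂ)) ^ (1 / 2 : ℂ) =
        ((Real.sqrt (36 * Real.pi / 77) : ℝ) : ℂ) := by
      have h8 : ((Real.pi : ℂ) / -(-(77 / 36) : ℂ)) = ((36 * Real.pi / 77 : ℝ) : ℂ) := by
        push_cast; ring
      rw [h8, Real.sqrt_eq_rpow, Complex.ofReal_cpow (by positivity)]
      norm_num
    have h13 : (-(β : ℂ) ^ 2 / 9 - (11 * Complex.I * β / 9) ^ 2 / (4 * (-(77 / 36)))) =
        ((-(16 / 7) * t ^ 2 : ℝ) : ℂ) := by
      have h14 : β ^ 2 = 8 * t ^ 2 := by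
        rw [hβd, mul_pow, mul_pow, Real.sq_sqrt (by norm_num)]; ring
      have h15 : (β : ℂ) ^ 2 = 8 * (t : ℂ) ^ 2 := by exact_mod_cast h14
      push_cast
      linear_combination (11 * (β : ℂ) ^ 2 / 63) * Complex.I_sq - (2 / 7) * h15
    rw [h10, integral_const_mul, h11, h12, h13, ← Complex.ofReal_exp, ← mul_assoc,
      ← Complex.ofReal_mul, ← Complex.ofReal_mul]
    congr 2
    rw [← Real.sqrt_mul (by positivity)]
    have h16 : 4 * Real.pi / 9 * (36 * Real.pi / 77) = (4 * Real.pi) ^ 2 / 77 := by ring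
    rw [h16, Real.sqrt_div (by positivity), Real.sqrt_sq (by positivity)]
  -- conclusion
  rw [hgauss] at hconv
  have hfin : Tendsto (fun m : ℕ => ((((v m + 2 : ℕ) : ℝ) * PN (v m + 2) (m - v m) : ℝ) : ℂ)) atTop
      (𝓝 (((1 / (4 * Real.pi ^ 2) * (4 * Real.pi / Real.sqrt 77 *
        Real.exp (-(16 / 7) * t ^ 2)) : ℝ) : ℂ))) := by
    rw [Complex.ofReal_mul]
    have h4 := hconv.const_mul ((1 / (4 * Real.pi ^ 2) : ℝ) : ℂ)
    refine h4.congr fun m => ?_
    rw [hform m]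
    push_cast
    ring
  have hre : Tendsto (fun m : ℕ => ((v m + 2 : ℕ) : ℝ) * PN (v m + 2) (m - v m)) atTop
      (𝓝 (1 / (4 * Real.pi ^ 2) * (4 * Real.pi / Real.sqrt 77 *
        Real.exp (-(16 / 7) * t ^ 2)))) := by
    have h4 := (Complex.continuous_re.tendsto _).comp hfin
    rw [Complex.ofReal_re] at h4
    refine h4.congr fun m => ?_
    simp only [Function.comp, Complex.ofReal_re]
  have hlast := hmN.mul hre
  have h17 : 2 * (1 / (4 * Real.pi ^ 2) * (4 * Real.pi / Real.sqrt 77 *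
      Real.exp (-(16 / 7) * t ^ 2))) =
      2 / (Real.pi * Real.sqrt 77) * Real.exp (-(16 / 7) * t ^ 2) := by
    have h18 : Real.sqrt 77 ≠ 0 := by positivity
    field_simp
  rw [h17] at hlast
  refine hlast.congr fun m => ?_
  have h19 : ((v m + 2 : ℕ) : ℝ) ≠ 0 := by positivity
  field_simp

end Pool.Agent.ALM
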