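import Pool.Agent.Lib.MP_fc2a59_co.ALM.A.Stm

set_option autoImplicit false

namespace Pool.Agent.ALM

open Finset Filter Topology
open scoped Classical

namespace prefX

lemma MM_eq (m : ℕ) : MM m * (8 ^ m * ((3 * m).factorial : ℝ)) = ((6 * m).factorial : ℝ) := by
  unfold MM
  have key : ∀ k : ℕ, (II k : ℝ) * (2 ^ k * (k.factorial : ℝ)) = ((2 * k).factorial : ℝ) := by
    intro k
    induction k with
    | zero => simp [II]
    | succ k ih =>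
      have h1 : II (k + 1) = II k * (2 * k + 1) := by
        unfold II
        rw [Finset.prod_range_succ]
      have h2 : 2 * (k + 1) = 2 * k + 1 + 1 := by ring
      rw [h1, h2, Nat.factorial_succ, Nat.factorial_succ, Nat.factorial_succ]
      push_cast
      rw [← ih]
      ring
  have := key (3 * m)
  rw [show 2 * (3 * m) = 6 * m by ring] at this
  rw [← this, pow_mul]
  norm_num

lemma choose_eq (m : ℕ) : ((2 * m).choose m : ℝ) * ((m.factorial : ℝ) * (m.factorial : ℝ)) =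
    ((2 * m).factorial : ℝ) := by
  have := Nat.choose_mul_factorial_mul_factorial (show m ≤ 2 * m by omega)
  rw [show 2 * m - m = m by omega] at this
  rw [← this]
  push_cast
  ring

lemma fac2 (m : ℕ) : ((m + 2).factorial : ℝ) = (m + 1) * (m + 2) * (m.factorial : ℝ) := by
  rw [Nat.factorial_succ, Nat.factorial_succ]
  push_cast
  ring

/-- the quotient of factorials -/
lemma QQ_eq (m : ℕ) (hm : 1 ≤ m) : QQ m * ((m.factorial : ℝ) / (2 ^ m * (m : ℝ) ^ 5)) =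
    81 * (((m : ℝ) + 1) * (m + 2)) ^ 2 / (m : ℝ) ^ 5 * (16 / 27) ^ m *
      (((6 * m).factorial : ℝ) * (m.factorial : ℝ) ^ 7 /
        (((3 * m).factorial : ℝ) * ((2 * m).factorial : ℝ) ^ 5)) := by
  have hm0 : (m : ℝ) ≠ 0 := by positivity
  have f1 : (m.factorial : ℝ) ≠ 0 := by positivity
  have f2 : ((2 * m).factorial : ℝ) ≠ 0 := by positivity
  have f3 : ((3 * m).factorial : ℝ) ≠ 0 := by positivity
  have a1 : MM m = ((6 * m).factorial : ℝ) / (8 ^ m * ((3 * m).factorial : ℝ)) := by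
    rw [eq_div_iff (by positivity)]
    exact MM_eq m
  have a2 : ((2 * m).choose m : ℝ) = ((2 * m).factorial : ℝ) / ((m.factorial : ℝ) * (m.factorial : ℝ)) := by
    rw [eq_div_iff (by positivity)]
    exact choose_eq m
  have a3 : N1 m = 9 ^ m * ((2 * m).factorial : ℝ) ^ 3 /
      ((m + 1) * (m + 2) * (m.factorial : ℝ) ^ 3) := by
    unfold N1
    rw [a2, fac2]
    field_simp
  unfold QQ
  rw [a1, a3]
  have e1 : (16 / 27 : ℝ) ^ m = 3 ^ m * 256 ^ m / (8 ^ m * 81 ^ m * 2 ^ m) := by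
    rw [← mul_pow, ← mul_pow, ← mul_pow, ← div_pow]
    norm_num
  have e2 : ((9 : ℝ) ^ m) ^ 2 = 81 ^ m := by
    rw [← pow_mul, mul_comm, pow_mul]
    norm_num
  have e3 : (3 : ℝ) ^ (m + 4) = 81 * 3 ^ m := by
    rw [pow_add]
    norm_num
    ring
  rw [e1, e3, div_pow, mul_pow, e2]
  field_simp

open Stirling in
lemma fac_st (n : ℕ) (hn : 1 ≤ n) : (n.factorial : ℝ) =
    stirlingSeq n * (Real.sqrt (2 * n) * ((n : ℝ) / Real.exp 1) ^ n) := by
  unfold stirlingSeq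
  have h1 : Real.sqrt (2 * (n : ℝ)) ≠ 0 := by
    apply (Real.sqrt_pos.mpr _).ne'
    positivity
  have h2 : ((n : ℝ) / Real.exp 1) ^ n ≠ 0 := by positivity
  rw [div_mul_cancel₀]
  exact mul_ne_zero h1 h2

open Stirling in
lemma main_eq (m : ℕ) (hm : 1 ≤ m) : QQ m * ((m.factorial : ℝ) / (2 ^ m * (m : ℝ) ^ 5)) =
    81 / 2 * ((((m : ℝ) + 1) * (m + 2)) ^ 2 / (m : ℝ) ^ 4) *
      (stirlingSeq (6 * m) * stirlingSeq m ^ 7 / (stirlingSeq (3 * m) * stirlingSeq (2 * m) ^ 5)) := by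
  have hm0 : (0 : ℝ) < m := by positivity
  rw [QQ_eq m hm, fac_st (6 * m) (by omega), fac_st m hm, fac_st (3 * m) (by omega),
    fac_st (2 * m) (by omega)]
  set x : ℝ := (m : ℝ) / Real.exp 1 with hx
  have hx0 : x ≠ 0 := by positivity
  set r := Real.sqrt m with hr
  have hr2 : r ^ 2 = m := Real.sq_sqrt hm0.le
  have hr0 : r ≠ 0 := (Real.sqrt_pos.mpr hm0).ne'
  set t := Real.sqrt 2 with ht
  have ht2 : t ^ 2 = 2 := Real.sq_sqrt (by norm_num)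
  have ht0 : t ≠ 0 := (Real.sqrt_pos.mpr (by norm_num)).ne'
  set u := Real.sqrt 6 with hu
  have hu0 : u ≠ 0 := (Real.sqrt_pos.mpr (by norm_num)).ne'
  have s6 : Real.sqrt (2 * ((6 * m : ℕ) : ℝ)) = t * u * r := by
    rw [show (2 * ((6 * m : ℕ) : ℝ)) = 2 * 6 * m by push_cast; ring, Real.sqrt_mul (by norm_num),
      Real.sqrt_mul (by norm_num)]
  have s1 : Real.sqrt (2 * (m : ℝ)) = t * r := by
    rw [Real.sqrt_mul (by norm_num)]
  have s3 : Real.sqrt (2 * ((3 * m : ℕ) : ℝ)) = u * r := by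
    rw [show (2 * ((3 * m : ℕ) : ℝ)) = 6 * m by push_cast; ring, Real.sqrt_mul (by norm_num)]
  have s2 : Real.sqrt (2 * ((2 * m : ℕ) : ℝ)) = 2 * r := by
    rw [show (2 * ((2 * m : ℕ) : ℝ)) = 2 ^ 2 * m by push_cast; ring, Real.sqrt_mul (by norm_num),
      Real.sqrt_sq (by norm_num)]
  have p6 : (((6 * m : ℕ) : ℝ) / Real.exp 1) ^ (6 * m) = 46656 ^ m * (x ^ m) ^ 6 := by
    rw [show ((6 * m : ℕ) : ℝ) / Real.exp 1 = 6 * x by rw [hx]; push_cast; ring, mul_pow,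
      mul_comm 6 m, pow_mul x, mul_comm m 6, pow_mul]
    norm_num
  have p3 : (((3 * m : ℕ) : ℝ) / Real.exp 1) ^ (3 * m) = 27 ^ m * (x ^ m) ^ 3 := by
    rw [show ((3 * m : ℕ) : ℝ) / Real.exp 1 = 3 * x by rw [hx]; push_cast; ring, mul_pow,
      mul_comm 3 m, pow_mul x, mul_comm m 3, pow_mul]
    norm_num
  have p2 : (((2 * m : ℕ) : ℝ) / Real.exp 1) ^ (2 * m) = 4 ^ m * (x ^ m) ^ 2 := by
    rw [show ((2 * m : ℕ) : ℝ) / Real.exp 1 = 2 * x by rw [hx]; push_cast; ring, mul_pow,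
      mul_comm 2 m, pow_mul x, mul_comm m 2, pow_mul]
    norm_num
  rw [s6, s1, s3, s2, p6, p3, p2]
  have hst : ∀ n : ℕ, 1 ≤ n → stirlingSeq n ≠ 0 := by
    intro n hn
    obtain ⟨k, rfl⟩ : ∃ k, n = k + 1 := ⟨n - 1, by omega⟩
    exact (stirlingSeq'_pos k).ne'
  have g3 := hst (3 * m) (by omega)
  have g2 := hst (2 * m) (by omega)
  have hxm : x ^ m ≠ 0 := pow_ne_zero _ hx0
  have e1 : (16 / 27 : ℝ) ^ m * 46656 ^ m = 27 ^ m * (4 ^ m) ^ 5 := by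
    rw [← pow_mul, mul_comm m 5, pow_mul, ← mul_pow, ← mul_pow]
    norm_num
  have h27 : (27 : ℝ) ^ m ≠ 0 := by positivity
  have h4 : (4 : ℝ) ^ m ≠ 0 := by positivity
  rw [← hr2]
  have ht8 : t ^ 8 = 16 := by
    rw [show t ^ 8 = (t ^ 2) ^ 4 by ring, ht2]
    norm_num
  have key : ∀ S6 S1 S3 S2 y Z : ℝ, S3 ≠ 0 → S2 ≠ 0 → y ≠ 0 →
      81 * Z / (r ^ 2) ^ 5 * (16 / 27) ^ m *
        (S6 * (t * u * r * (46656 ^ m * y ^ 6)) * (S1 * (t * r * y)) ^ 7 /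
          (S3 * (u * r * (27 ^ m * y ^ 3)) * (S2 * (2 * r * (4 ^ m * y ^ 2))) ^ 5)) =
      81 / 2 * (Z / (r ^ 2) ^ 4) * (S6 * S1 ^ 7 / (S3 * S2 ^ 5)) := by
    intro S6 S1 S3 S2 y Z h3 h2 hy
    have c1 : (S6 * (t * u * r * (46656 ^ m * y ^ 6)) * (S1 * (t * r * y)) ^ 7 /
          (S3 * (u * r * (27 ^ m * y ^ 3)) * (S2 * (2 * r * (4 ^ m * y ^ 2))) ^ 5)) =
        (S6 * S1 ^ 7 / (S3 * S2 ^ 5)) * (46656 ^ m / (27 ^ m * (4 ^ m) ^ 5)) * (r ^ 2 * (t ^ 8 / 32)) := by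
      field_simp
      ring
    rw [c1, ht8]
    have c2 : (16 / 27 : ℝ) ^ m * (46656 ^ m / (27 ^ m * (4 ^ m) ^ 5)) = 1 := by
      rw [mul_div_assoc', e1, div_self (by positivity)]
    calc _ = 81 * Z / (r ^ 2) ^ 5 * ((16 / 27 : ℝ) ^ m * (46656 ^ m / (27 ^ m * (4 ^ m) ^ 5))) *
          (S6 * S1 ^ 7 / (S3 * S2 ^ 5)) * (r ^ 2 * (16 / 32)) := by ring
      _ = _ := by
        rw [c2]
        field_simp
        ring
  exact key (stirlingSeq (6 * m)) (stirlingSeq m) (stirlingSeq (3 * m)) (stirlingSeq (2 * m)) (x ^ m)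
    (((r ^ 2 + 1) * (r ^ 2 + 2)) ^ 2) g3 g2 hxm

end prefX

open Stirling in
theorem p_pref : S_pref := by
  unfold S_pref
  have hs := tendsto_stirlingSeq_sqrt_pi
  have h6 : Tendsto (fun m : ℕ => stirlingSeq (6 * m)) atTop (𝓝 (Real.sqrt Real.pi)) :=
    hs.comp (tendsto_id.const_mul_atTop' (by norm_num))
  have h3 : Tendsto (fun m : ℕ => stirlingSeq (3 * m)) atTop (𝓝 (Real.sqrt Real.pi)) :=
    hs.comp (tendsto_id.const_mul_atTop' (by norm_num))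
  have h2 : Tendsto (fun m : ℕ => stirlingSeq (2 * m)) atTop (𝓝 (Real.sqrt Real.pi)) :=
    hs.comp (tendsto_id.const_mul_atTop' (by norm_num))
  have hp : Real.sqrt Real.pi ≠ 0 := (Real.sqrt_pos.mpr Real.pi_pos).ne'
  have hA := (h6.mul (hs.pow 7)).div (h3.mul (h2.pow 5)) (mul_ne_zero hp (pow_ne_zero _ hp))
  have hinv : Tendsto (fun m : ℕ => ((m : ℝ))⁻¹) atTop (𝓝 0) := tendsto_inv_atTop_nhds_zero_nat
  have hB : Tendsto (fun m : ℕ => ((1 + (m : ℝ)⁻¹) * (1 + 2 * (m : ℝ)⁻¹)) ^ 2) atTop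
      (𝓝 (((1 + 0) * (1 + 2 * 0)) ^ 2)) :=
    ((tendsto_const_nhds.add hinv).mul (tendsto_const_nhds.add (hinv.const_mul 2))).pow 2
  have hC := (hB.const_mul (81 / 2)).mul hA
  have hval : 81 / 2 * ((1 + 0) * (1 + 2 * 0)) ^ 2 *
      (Real.sqrt Real.pi * Real.sqrt Real.pi ^ 7 / (Real.sqrt Real.pi * Real.sqrt Real.pi ^ 5)) =
      81 * Real.pi / 2 := by
    have h : Real.sqrt Real.pi ^ 2 = Real.pi := Real.sq_sqrt Real.pi_pos.le
    have e : Real.sqrt Real.pi * Real.sqrt Real.pi ^ 7 / (Real.sqrt Real.pi * Real.sqrt Real.pi ^ 5) =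
        Real.sqrt Real.pi ^ 2 := by
      field_simp
    rw [e, h]
    ring
  rw [hval] at hC
  refine hC.congr' ?_
  filter_upwards [Filter.eventually_ge_atTop 1] with m hm
  rw [prefX.main_eq m hm]
  have hm0 : (m : ℝ) ≠ 0 := by
    have : (0 : ℝ) < m := by exact_mod_cast hm
    exact this.ne'
  have e : ((1 + (m : ℝ)⁻¹) * (1 + 2 * (m : ℝ)⁻¹)) ^ 2 =
      (((m : ℝ) + 1) * (m + 2)) ^ 2 / (m : ℝ) ^ 4 := by
    field_simp
  rw [e]
  rfl

end Pool.Agent.ALM
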