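import Pool.Agent.Lib.MP_fc2a59_co.ALM.A.Stm

set_option autoImplicit false

/-!
# Project ALM, piece p_ps: sums of the normalised central binomial coefficients
-/

namespace Pool.Agent.ALM

open Finset
open scoped Classical

namespace psX

lemma asc_half (n : ℕ) : Polynomial.eval (1 / 2 : ℝ) (ascPochhammer ℝ n) =
    (n.factorial : ℝ) * ((Nat.centralBinom n : ℝ) / 4 ^ n) := by
  induction n with
  | zero => simp
  | succ n ih =>
    rw [ascPochhammer_succ_eval, ih, Nat.factorial_succ]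
    have h : ((n + 1 : ℕ) : ℝ) * (Nat.centralBinom (n + 1) : ℝ) =
        2 * (2 * n + 1) * (Nat.centralBinom n : ℝ) := by
      have := Nat.succ_mul_centralBinom_succ n
      exact_mod_cast this
    push_cast at h ⊢
    rw [pow_succ]
    field_simp
    linear_combination (-2 : ℝ) * h

lemma mc (n : ℕ) : Ring.multichoose (1 / 2 : ℝ) n = (Nat.centralBinom n : ℝ) / 4 ^ n := by
  have h := Ring.factorial_nsmul_multichoose_eq_ascPochhammer (1 / 2 : ℝ) n
  rw [Polynomial.ascPochhammer_smeval_eq_eval, asc_half, nsmul_eq_mul] at h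
  have h0 : (n.factorial : ℝ) ≠ 0 := by positivity
  exact mul_left_cancel₀ h0 h

lemma gen (x : ℝ) (hx : |x| < 1) :
    HasSum (fun n : ℕ => (Nat.centralBinom n : ℝ) / 4 ^ n * x ^ n) (1 / (1 - x) ^ (1 / 2 : ℝ)) := by
  have h := Real.one_div_one_sub_rpow_hasFPowerSeriesOnBall_zero (1 / 2 : ℝ)
  have h1 := h.hasSum (y := x) (by simpa [enorm_eq_nnnorm, ← NNReal.coe_lt_coe] using hx)
  simp only [zero_add] at h1
  have h2 : (fun n : ℕ => (Nat.centralBinom n : ℝ) / 4 ^ n * x ^ n) =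
      fun n : ℕ => (FormalMultilinearSeries.ofScalars ℝ
        (fun n : ℕ => Ring.choose ((1 / 2 : ℝ) + n - 1) n) n) fun _ => x := by
    funext n
    rw [FormalMultilinearSeries.ofScalars_apply_eq, ← Ring.multichoose_eq, mc, smul_eq_mul]
  rw [h2]
  exact h1

lemma ps_nonneg (s : ℕ) : 0 ≤ ps s := by unfold ps; positivity

lemma ps_le (s : ℕ) : ps s ≤ (3 / 4 : ℝ) ^ s := by
  unfold ps
  have h : (Nat.centralBinom s : ℝ) ≤ 4 ^ s := by exact_mod_cast Nat.centralBinom_le_four_pow s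
  calc (Nat.centralBinom s : ℝ) * (3 / 16) ^ s ≤ 4 ^ s * (3 / 16) ^ s := by gcongr
    _ = (3 / 4 : ℝ) ^ s := by rw [← mul_pow]; norm_num

lemma ps_succ (s : ℕ) : ((s : ℝ) + 1) * ps (s + 1) = 3 / 8 * (2 * s + 1) * ps s := by
  unfold ps
  have h : ((s + 1 : ℕ) : ℝ) * (Nat.centralBinom (s + 1) : ℝ) =
      2 * (2 * s + 1) * (Nat.centralBinom s : ℝ) := by
    have := Nat.succ_mul_centralBinom_succ s
    exact_mod_cast this
  push_cast at h
  rw [pow_succ]
  linear_combination ((3 / 16 : ℝ) ^ s * (3 / 16)) * h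

lemma summ (k : ℕ) : Summable fun s : ℕ => (s : ℝ) ^ k * ps s := by
  refine Summable.of_nonneg_of_le (fun s => mul_nonneg (by positivity) (ps_nonneg s))
    (fun s => mul_le_mul_of_nonneg_left (ps_le s) (by positivity)) ?_
  exact summable_pow_mul_geometric_of_norm_lt_one k (by norm_num)

lemma main_g (g : ℝ) (hg : 1 < g) :
    HasSum (fun s : ℕ => ps s * (4 / 3 * (1 - 1 / g ^ 2)) ^ s) g := by
  have hg0 : 0 < g := by linarith
  have h1 : 0 < 1 / g ^ 2 := by positivity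
  have h2 : 1 / g ^ 2 < 1 := by
    rw [div_lt_one (by positivity)]
    nlinarith
  have h := gen (1 - 1 / g ^ 2) (by rw [abs_lt]; constructor <;> linarith)
  have h3 : 1 / (1 - (1 - 1 / g ^ 2)) ^ (1 / 2 : ℝ) = g := by
    have h4 : 1 - (1 - 1 / g ^ 2) = (1 / g) ^ 2 := by field_simp; ring
    rw [h4, ← Real.sqrt_eq_rpow, Real.sqrt_sq (by positivity)]
    field_simp
  rw [h3] at h
  convert h using 1
  funext s
  unfold ps
  have h5 : (3 / 16 : ℝ) ^ s * (4 / 3) ^ s = 1 / 4 ^ s := by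
    rw [← mul_pow, ← one_div_pow]; norm_num
  calc (Nat.centralBinom s : ℝ) * (3 / 16) ^ s * (4 / 3 * (1 - 1 / g ^ 2)) ^ s
      = (Nat.centralBinom s : ℝ) * ((3 / 16 : ℝ) ^ s * (4 / 3) ^ s) * (1 - 1 / g ^ 2) ^ s := by
        rw [mul_pow]; ring
    _ = (Nat.centralBinom s : ℝ) / 4 ^ s * (1 - 1 / g ^ 2) ^ s := by rw [h5]; ring

lemma s0 : HasSum (fun s : ℕ => ps s) 2 := by
  have h := main_g 2 (by norm_num)
  convert h using 1
  funext s
  norm_num

lemma s1 : HasSum (fun s : ℕ => (s : ℝ) * ps s) 3 := by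
  have hs : Summable fun s : ℕ => (s : ℝ) * ps s := by simpa using summ 1
  obtain ⟨a, ha⟩ := hs
  have h1 : HasSum (fun s : ℕ => (((s + 1 : ℕ) : ℝ)) * ps (s + 1)) a := by
    have := (hasSum_nat_add_iff' 1).2 ha
    simpa using this
  have h2 : HasSum (fun s : ℕ => 3 / 4 * ((s : ℝ) * ps s) + 3 / 8 * ps s) (3 / 4 * a + 3 / 8 * 2) :=
    (ha.mul_left _).add (s0.mul_left _)
  have h3 : (fun s : ℕ => (((s + 1 : ℕ) : ℝ)) * ps (s + 1)) =
      fun s : ℕ => 3 / 4 * ((s : ℝ) * ps s) + 3 / 8 * ps s := by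
    funext s
    push_cast
    rw [ps_succ]
    ring
  rw [h3] at h1
  have h4 := h1.unique h2
  have : a = 3 := by linarith
  rwa [this] at ha

lemma s2 : HasSum (fun s : ℕ => (s : ℝ) ^ 2 * ps s) (33 / 2) := by
  obtain ⟨a, ha⟩ := summ 2
  have h1 : HasSum (fun s : ℕ => (((s + 1 : ℕ) : ℝ)) ^ 2 * ps (s + 1)) a := by
    have := (hasSum_nat_add_iff' 1).2 ha
    simpa using this
  have h2 : HasSum (fun s : ℕ => 3 / 4 * ((s : ℝ) ^ 2 * ps s) + 9 / 8 * ((s : ℝ) * ps s) +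
      3 / 8 * ps s) (3 / 4 * a + 9 / 8 * 3 + 3 / 8 * 2) :=
    ((ha.mul_left _).add (s1.mul_left _)).add (s0.mul_left _)
  have h3 : (fun s : ℕ => (((s + 1 : ℕ) : ℝ)) ^ 2 * ps (s + 1)) =
      fun s : ℕ => 3 / 4 * ((s : ℝ) ^ 2 * ps s) + 9 / 8 * ((s : ℝ) * ps s) + 3 / 8 * ps s := by
    funext s
    push_cast
    linear_combination ((s : ℝ) + 1) * ps_succ s
  rw [h3] at h1
  have h4 := h1.unique h2
  have : a = 33 / 2 := by linarith
  rwa [this] at ha

end psX

/-- piece p_ps -/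
theorem p_ps : S_ps :=
  ⟨psX.s0, psX.s1, psX.s2, psX.summ 3, psX.main_g⟩

end Pool.Agent.ALM
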