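import Pool.Agent.Lib.MP_fc2a59_co.ALM.A.Stm

set_option autoImplicit false

/-! # Project ALM, section A: the rate function

Instead of the exact minimisers we take `g1 = 1/a`, `g2 = 1/(1-a)`.  With `u = 2a - 1` the value is
`-((1+u) log(1+u) + (1-u) log(1-u)) - (1+u)/2 log(1 - u/3) - (1-u)/2 log(1 + u/3)`
`≤ -u^2 + 4u^2/(9-u^2) ≤ -u^2/2 = -2 (a - 1/2)^2`. -/

namespace Pool.Agent.ALM

open Finset
open scoped Classical

namespace rateX

private lemma two_le_log {u : ℝ} (hu : 0 ≤ u) (hu1 : u < 1) :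
    2 * u ≤ Real.log (1 + u) - Real.log (1 - u) := by
  have h1 : (0 : ℝ) < 1 - u := by linarith
  have h2 : (0 : ℝ) < 1 + u := by linarith
  have h3 := Real.le_log_one_add_of_nonneg (show (0 : ℝ) ≤ 2 * u / (1 - u) by positivity)
  have h4 : 1 + 2 * u / (1 - u) = (1 + u) / (1 - u) := by
    field_simp
    ring
  have h5 : 2 * (2 * u / (1 - u)) / (2 * u / (1 - u) + 2) = 2 * u := by
    field_simp
    ring
  rw [h4, h5, Real.log_div h2.ne' h1.ne'] at h3
  exact h3

private lemma phi_hasDeriv {u : ℝ} (hu : -1 < u) (hu1 : u < 1) :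
    HasDerivAt (fun x : ℝ => (1 + x) * Real.log (1 + x) + (1 - x) * Real.log (1 - x) - x ^ 2)
      (Real.log (1 + u) - Real.log (1 - u) - 2 * u) u := by
  have h1 : (0 : ℝ) < 1 - u := by linarith
  have h2 : (0 : ℝ) < 1 + u := by linarith
  have a1 : HasDerivAt (fun x : ℝ => 1 + x) 1 u := by
    simpa using (hasDerivAt_id u).const_add 1
  have a2 : HasDerivAt (fun x : ℝ => 1 - x) (-1) u := by
    simpa using (hasDerivAt_id u).const_sub 1
  have b1 := a1.mul (a1.log h2.ne')
  have b2 := a2.mul (a2.log h1.ne')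
  have b3 : HasDerivAt (fun x : ℝ => x ^ 2) (2 * u) u := by
    simpa using hasDerivAt_pow 2 u
  have := (b1.add b2).sub b3
  refine this.congr_deriv ?_
  field_simp
  ring

private lemma phi_nonneg {u : ℝ} (hu : 0 ≤ u) (hu1 : u < 1) :
    u ^ 2 ≤ (1 + u) * Real.log (1 + u) + (1 - u) * Real.log (1 - u) := by
  have hmono : MonotoneOn
      (fun x : ℝ => (1 + x) * Real.log (1 + x) + (1 - x) * Real.log (1 - x) - x ^ 2)
      (Set.Ico 0 1) := by
    apply monotoneOn_of_deriv_nonneg (convex_Ico 0 1)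
    · intro x hx
      exact (phi_hasDeriv (by linarith [hx.1]) hx.2).continuousAt.continuousWithinAt
    · intro x hx
      rw [interior_Ico] at hx
      exact (phi_hasDeriv (by linarith [hx.1]) hx.2).differentiableAt.differentiableWithinAt
    · intro x hx
      rw [interior_Ico] at hx
      rw [(phi_hasDeriv (by linarith [hx.1]) hx.2).deriv]
      have := two_le_log hx.1.le hx.2
      linarith
  have h := hmono (show (0 : ℝ) ∈ Set.Ico (0 : ℝ) 1 by simp) (show u ∈ Set.Ico (0 : ℝ) 1 from ⟨hu, hu1⟩) hu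
  simp only at h
  norm_num at h
  linarith

private lemma phi_nonneg' {u : ℝ} (hu : -1 < u) (hu1 : u < 1) :
    u ^ 2 ≤ (1 + u) * Real.log (1 + u) + (1 - u) * Real.log (1 - u) := by
  rcases le_total 0 u with h | h
  · exact phi_nonneg h hu1
  · have := phi_nonneg (u := -u) (by linarith) (by linarith)
    have e1 : 1 + -u = 1 - u := by ring
    have e2 : 1 - -u = 1 + u := by ring
    rw [e1, e2] at this
    nlinarith

private lemma neg_log_le {y : ℝ} (hy : 0 < y) : -Real.log y ≤ 1 / y - 1 := by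
  have := Real.log_le_sub_one_of_pos (show (0 : ℝ) < 1 / y by positivity)
  rwa [one_div, Real.log_inv, ← one_div] at this

/-- the value of the rate function at `(1/a, 1/(1-a))` -/
private lemma Ps_val {a : ℝ} (ha : 0 < a) (ha1 : a < 1) :
    Ps a (1 / a) (1 / (1 - a)) =
      -((1 + (2 * a - 1)) * Real.log (1 + (2 * a - 1)) +
        (1 - (2 * a - 1)) * Real.log (1 - (2 * a - 1))) +
      a * (-Real.log ((2 - a) * (2 / 3))) + (1 - a) * (-Real.log ((1 + a) * (2 / 3))) := by
  have h1 : (0 : ℝ) < 1 - a := by linarith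
  have h2 : (0 : ℝ) < 1 + a := by linarith
  have h3 : (0 : ℝ) < 2 - a := by linarith
  unfold Ps
  have e1 : (2 * (1 / a) - 1) / 3 = (2 - a) / (3 * a) := by
    field_simp
  have e2 : (4 : ℝ) / 3 * (1 - 1 / (1 / a) ^ 2) = 4 / 3 * ((1 - a) * (1 + a)) := by
    field_simp
    ring
  have e3 : (2 * (1 / (1 - a)) - 1) / 3 = (1 + a) / (3 * (1 - a)) := by
    field_simp
    ring
  have e4 : (4 : ℝ) / 3 * (1 - 1 / (1 / (1 - a)) ^ 2) = 4 / 3 * (a * (2 - a)) := by
    field_simp
    ring
  have e5 : 1 + (2 * a - 1) = 2 * a := by ring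
  have e6 : 1 - (2 * a - 1) = 2 * (1 - a) := by ring
  rw [e1, e2, e3, e4, e5, e6]
  rw [Real.log_div h3.ne' (by positivity), Real.log_mul (by norm_num) ha.ne',
    Real.log_mul (by norm_num) (by positivity), Real.log_mul h1.ne' h2.ne',
    Real.log_div h2.ne' (by positivity), Real.log_mul (by norm_num) h1.ne',
    Real.log_mul (x := 4 / 3) (y := a * (2 - a)) (by norm_num) (by positivity),
    Real.log_mul ha.ne' h3.ne', Real.log_mul (x := 2) (y := a) (by norm_num) ha.ne',
    Real.log_mul (x := 2) (y := 1 - a) (by norm_num) h1.ne',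
    Real.log_mul h3.ne' (by norm_num), Real.log_mul h2.ne' (by norm_num),
    Real.log_div (x := 4) (y := 3) (by norm_num) (by norm_num),
    Real.log_div (x := 2) (y := 3) (by norm_num) (by norm_num)]
  have e7 : Real.log 4 = 2 * Real.log 2 := by
    rw [show (4 : ℝ) = 2 ^ 2 by norm_num, Real.log_pow]
    push_cast
    ring
  rw [e7]
  ring

private lemma Ps_le {a : ℝ} (ha : 0 < a) (ha1 : a < 1) :
    Ps a (1 / a) (1 / (1 - a)) ≤ -2 * (a - 1 / 2) ^ 2 := by
  have h1 : (0 : ℝ) < 1 - a := by linarith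
  have h2 : (0 : ℝ) < 1 + a := by linarith
  have h3 : (0 : ℝ) < 2 - a := by linarith
  rw [Ps_val ha ha1]
  have k1 := phi_nonneg' (u := 2 * a - 1) (by linarith) (by linarith)
  have k2 := neg_log_le (show (0 : ℝ) < (2 - a) * (2 / 3) by positivity)
  have k3 := neg_log_le (show (0 : ℝ) < (1 + a) * (2 / 3) by positivity)
  have k4 := mul_le_mul_of_nonneg_left k2 ha.le
  have k5 := mul_le_mul_of_nonneg_left k3 h1.le
  have k6 : a * (1 / ((2 - a) * (2 / 3)) - 1) + (1 - a) * (1 / ((1 + a) * (2 / 3)) - 1) ≤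
      (2 * a - 1) ^ 2 / 2 := by
    have e : a * (1 / ((2 - a) * (2 / 3)) - 1) + (1 - a) * (1 / ((1 + a) * (2 / 3)) - 1) =
        (2 * a - 1) ^ 2 / ((2 - a) * (1 + a)) := by
      field_simp
      ring
    rw [e]
    apply div_le_div_of_nonneg_left (by positivity) (by norm_num)
    nlinarith
  nlinarith

end rateX

/-- the rate function -/
theorem p_rate : S_rate := by
  refine ⟨2, by norm_num, ?_⟩
  intro δ hδ hδ2
  have h1 : (0 : ℝ) < 1 - δ := by linarith
  refine ⟨1 / (1 - δ), 1 / δ, ?_, ?_, ?_⟩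
  · rw [lt_div_iff₀ h1]
    linarith
  · exact one_div_le_one_div_of_le hδ (by linarith)
  · intro a ha ha1
    have ha0 : 0 < a := by linarith
    have ha2 : 0 < 1 - a := by linarith
    refine ⟨1 / a, 1 / (1 - a), ?_, ?_, ?_, ?_, ?_⟩
    · exact one_div_le_one_div_of_le ha0 (by linarith)
    · exact one_div_le_one_div_of_le hδ (by linarith)
    · exact one_div_le_one_div_of_le ha2 (by linarith)
    · exact one_div_le_one_div_of_le hδ (by linarith)
    · exact rateX.Ps_le ha0 (by linarith)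

end Pool.Agent.ALM
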