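import Pool.Agent.Lib.MP_fc2a59_co.ALM.A.Stm

set_option autoImplicit false

namespace Pool.Agent.ALM

open Finset Filter Topology MeasureTheory
open scoped Classical

namespace sumX

lemma phi_nonneg (v : ℕ) : 0 ≤ PowerSeries.coeff v phi := by
  unfold phi
  rw [PowerSeries.coeff_mk]
  split_ifs
  · exact le_rfl
  · positivity

lemma co_nonneg (c : ℕ) : ∀ v, 0 ≤ co v c := by
  unfold co
  induction c with
  | zero =>
    intro v
    rw [pow_zero, PowerSeries.coeff_one]
    split_ifs <;> norm_num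
  | succ c ih =>
    intro v
    rw [pow_succ, PowerSeries.coeff_mul]
    exact sum_nonneg fun p _ => mul_nonneg (ih _) (phi_nonneg _)

lemma PN_nonneg (N w : ℕ) : 0 ≤ PN N w := by
  unfold PN BB
  refine div_nonneg (sum_nonneg fun c _ => sum_nonneg fun c' _ => ?_) (by positivity)
  exact mul_nonneg (mul_nonneg (by positivity) (co_nonneg _ _)) (co_nonneg _ _)

lemma KK_nonneg (m v : ℕ) : 0 ≤ KK m v := by
  unfold KK
  exact mul_nonneg (mul_nonneg (by positivity) (PN_nonneg _ _)) (PN_nonneg _ _)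

/-- the normalised term -/
noncomputable def gg (m v : ℕ) : ℝ :=
  KK m v * (2 ^ m * (m : ℝ) ^ 5 * Real.sqrt m / (m.factorial : ℝ))

lemma gg_nonneg (m v : ℕ) : 0 ≤ gg m v := mul_nonneg (KK_nonneg _ _) (by positivity)

noncomputable def Iv (m v : ℕ) : Set ℝ :=
  Set.Ico (((v : ℝ) - m / 2) / Real.sqrt m) (((v : ℝ) + 1 - m / 2) / Real.sqrt m)

noncomputable def FF (m : ℕ) (t : ℝ) : ℝ :=
  ∑ v ∈ Ico 1 m, (Iv m v).indicator (fun _ => gg m v) t

lemma sq_pos {m : ℕ} (hm : 0 < m) : 0 < Real.sqrt m := Real.sqrt_pos.2 (by exact_mod_cast hm)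

lemma mem_Iv {m v : ℕ} (hm : 0 < m) (t : ℝ) :
    t ∈ Iv m v ↔ (v : ℝ) ≤ m / 2 + t * Real.sqrt m ∧ m / 2 + t * Real.sqrt m < v + 1 := by
  have h := sq_pos hm
  unfold Iv
  rw [Set.mem_Ico, div_le_iff₀ h, lt_div_iff₀ h]
  constructor
  · rintro ⟨h1, h2⟩
    exact ⟨by linarith, by linarith⟩
  · rintro ⟨h1, h2⟩
    exact ⟨by linarith, by linarith⟩

lemma FF_eq {m v : ℕ} (hv : v ∈ Ico 1 m) {t : ℝ} (ht : t ∈ Iv m v) : FF m t = gg m v := by
  have hm : 0 < m := by
    rw [Finset.mem_Ico] at hv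
    omega
  unfold FF
  rw [Finset.sum_eq_single_of_mem v hv]
  · rw [Set.indicator_of_mem ht]
  · intro w _ hne
    apply Set.indicator_of_notMem
    intro hw
    rw [mem_Iv hm] at ht hw
    apply hne
    have h1 : (w : ℝ) < v + 1 := lt_of_le_of_lt hw.1 ht.2
    have h2 : (v : ℝ) < w + 1 := lt_of_le_of_lt ht.1 hw.2
    have h1' : w < v + 1 := by exact_mod_cast h1
    have h2' : v < w + 1 := by exact_mod_cast h2
    omega

lemma FF_zero {m : ℕ} {t : ℝ} (h : ∀ v ∈ Ico 1 m, t ∉ Iv m v) : FF m t = 0 := by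
  unfold FF
  exact Finset.sum_eq_zero fun v hv => Set.indicator_of_notMem (h v hv) _

lemma FF_bound {c C : ℝ} (hc : 0 < c) (hC : 0 < C)
    (h3 : ∀ m v : ℕ, 0 < v → v < m → gg m v ≤ C * Real.exp (-c * ((v : ℝ) - m / 2) ^ 2 / m))
    (m : ℕ) (t : ℝ) : ‖FF m t‖ ≤ C * Real.exp c * Real.exp (-(c / 2) * t ^ 2) := by
  by_cases h : ∃ v ∈ Ico 1 m, t ∈ Iv m v
  · obtain ⟨v, hv, ht⟩ := h
    rw [FF_eq hv ht, Real.norm_of_nonneg (gg_nonneg _ _)]
    have hv' := Finset.mem_Ico.1 hv
    have hm : 0 < m := by omega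
    have hs := sq_pos hm
    refine (h3 m v (by omega) hv'.2).trans ?_
    rw [mul_assoc, ← Real.exp_add]
    refine mul_le_mul_of_nonneg_left (Real.exp_le_exp.2 ?_) hC.le
    rw [mem_Iv hm] at ht
    have hmr : (0 : ℝ) < m := by exact_mod_cast hm
    have hss : Real.sqrt m * Real.sqrt m = m := Real.mul_self_sqrt hmr.le
    have h1 : (1 : ℝ) ≤ Real.sqrt m := by
      rw [Real.one_le_sqrt]
      exact_mod_cast hm
    -- x = v - m/2, |x - t √m| ≤ 1
    set x : ℝ := (v : ℝ) - m / 2 with hx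
    set s := Real.sqrt m with hsdef
    have ha : x ≤ t * s := by linarith [ht.1]
    have hb : t * s < x + 1 := by linarith [ht.2]
    have hkey : t ^ 2 * m ≤ 2 * x ^ 2 + 2 * m := by
      have e1 : t ^ 2 * m = (t * s) ^ 2 := by
        rw [mul_pow, ← hss]
        ring
      have e2 : (t * s) ^ 2 ≤ 2 * x ^ 2 + 2 * (t * s - x) ^ 2 := by nlinarith [sq_nonneg (t * s - 2 * x)]
      have e3 : (t * s - x) ^ 2 ≤ 1 := by
        have : 0 ≤ t * s - x := by linarith
        have : t * s - x ≤ 1 := by linarith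
        nlinarith
      have e4 : (1 : ℝ) ≤ m := by exact_mod_cast hm
      rw [e1]
      nlinarith
    have : -c * x ^ 2 / m = -(c * (x ^ 2 / m)) := by ring
    rw [this]
    have h5 : t ^ 2 / 2 - 1 ≤ x ^ 2 / m := by
      rw [le_div_iff₀ hmr]
      nlinarith
    nlinarith [mul_le_mul_of_nonneg_left h5 hc.le]
  · rw [FF_zero (fun v hv ht => h ⟨v, hv, ht⟩), norm_zero]
    positivity

lemma FF_meas (m : ℕ) : Measurable (FF m) := by
  unfold FF
  refine Finset.measurable_sum _ fun v _ => ?_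
  exact measurable_const.indicator measurableSet_Ico

lemma FF_int {m : ℕ} (hm : 0 < m) :
    ∫ t, FF m t = (∑ v ∈ Ico 1 m, KK m v) * (2 ^ m * (m : ℝ) ^ 5 / (m.factorial : ℝ)) := by
  have hs := sq_pos hm
  unfold FF
  rw [integral_finsetSum]
  · rw [Finset.sum_mul]
    refine Finset.sum_congr rfl fun v _ => ?_
    unfold Iv
    rw [integral_indicator measurableSet_Ico, setIntegral_const, smul_eq_mul]
    rw [Real.volume_real_Ico_of_le]
    · have e : ((v : ℝ) + 1 - m / 2) / Real.sqrt m - ((v : ℝ) - m / 2) / Real.sqrt m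
          = 1 / Real.sqrt m := by
        rw [← sub_div]
        congr 1
        ring
      rw [e]
      unfold gg
      field_simp
    · apply div_le_div_of_nonneg_right _ hs.le
      linarith
  · intro v _
    unfold Iv
    rw [integrable_indicator_iff measurableSet_Ico]
    refine integrableOn_const ?_ ?_
    · rw [Real.volume_Ico]
      exact ENNReal.ofReal_ne_top
    · simp

/-- the algebra of the terms -/
lemma gg_eq {m v : ℕ} (hm : 0 < m) (hv : v ≤ m) :
    gg m v = (Real.sqrt m * (m.choose v : ℝ) / 2 ^ m)⁻¹ *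
      ((m : ℝ) / ((v : ℝ) + 1) * ((m : ℝ) / ((v : ℝ) + 2)) * ((m : ℝ) / (((m - v : ℕ) : ℝ) + 1)) *
        ((m : ℝ) / (((m - v : ℕ) : ℝ) + 2))) *
      ((m : ℝ) * PN (v + 2) (m - v)) * ((m : ℝ) * PN (m - v + 2) v) := by
  obtain ⟨w, rfl⟩ := Nat.exists_eq_add_of_le hv
  have hw : v + w - v = w := by omega
  unfold gg KK
  rw [hw]
  have hs := sq_pos hm
  have hmr : (0 : ℝ) < ((v + w : ℕ) : ℝ) := by exact_mod_cast hm
  have hss : Real.sqrt ((v + w : ℕ) : ℝ) * Real.sqrt ((v + w : ℕ) : ℝ) = ((v + w : ℕ) : ℝ) :=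
    Real.mul_self_sqrt hmr.le
  have hch : ((v + w).choose v : ℝ) * ((v.factorial : ℝ) * (w.factorial : ℝ)) =
      ((v + w).factorial : ℝ) := by
    have := Nat.choose_mul_factorial_mul_factorial (Nat.le_add_right v w)
    rw [hw] at this
    rw [← this]
    push_cast
    ring
  have hc0 : ((v + w).choose v : ℝ) ≠ 0 := by
    have : 0 < (v + w).choose v := Nat.choose_pos (Nat.le_add_right v w)
    exact_mod_cast this.ne'
  have hv0 : (v.factorial : ℝ) ≠ 0 := by positivity
  have hw0 : (w.factorial : ℝ) ≠ 0 := by positivity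
  have ef : ((v + 2).factorial : ℝ) = ((v : ℝ) + 2) * (((v : ℝ) + 1) * v.factorial) := by
    rw [Nat.factorial_succ, Nat.factorial_succ]
    push_cast
    ring
  have ew : ((w + 2).factorial : ℝ) = ((w : ℝ) + 2) * (((w : ℝ) + 1) * w.factorial) := by
    rw [Nat.factorial_succ, Nat.factorial_succ]
    push_cast
    ring
  rw [ef, ew, ← hch]
  generalize hM : ((v + w : ℕ) : ℝ) = M at *
  generalize hS : Real.sqrt M = S at *
  generalize hCc : ((v + w).choose v : ℝ) = Cc at *
  have hS0 : S ≠ 0 := hs.ne'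
  have h1 : (v : ℝ) + 1 ≠ 0 := by positivity
  have h2 : (v : ℝ) + 2 ≠ 0 := by positivity
  have h3 : (w : ℝ) + 1 ≠ 0 := by positivity
  have h4 : (w : ℝ) + 2 ≠ 0 := by positivity
  rw [← hss]
  field_simp

lemma tend_sqrt : Tendsto (fun m : ℕ => Real.sqrt (m : ℝ)) atTop atTop :=
  Real.tendsto_sqrt_atTop.comp tendsto_natCast_atTop_atTop

lemma tend_inv : Tendsto (fun m : ℕ => (Real.sqrt (m : ℝ))⁻¹) atTop (𝓝 0) :=
  tendsto_inv_atTop_zero.comp tend_sqrt

/-- `m/(v+a) → 2` -/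
lemma tend_two {v : ℕ → ℕ} {t : ℝ} (a : ℝ)
    (h : Tendsto (fun m : ℕ => ((v m : ℝ) - m / 2) / Real.sqrt m) atTop (𝓝 t)) :
    Tendsto (fun m : ℕ => (m : ℝ) / ((v m : ℝ) + a)) atTop (𝓝 2) := by
  have h1 : Tendsto (fun m : ℕ => 1 / 2 + ((v m : ℝ) - m / 2) / Real.sqrt m * (Real.sqrt (m : ℝ))⁻¹ +
      a * ((m : ℝ))⁻¹) atTop (𝓝 (1 / 2 + t * 0 + a * 0)) := by
    refine Tendsto.add (Tendsto.add tendsto_const_nhds (h.mul tend_inv)) ?_
    exact (tendsto_inv_atTop_zero.comp tendsto_natCast_atTop_atTop).const_mul a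
  have h2 := h1.inv₀ (by norm_num)
  have e : (1 / 2 + t * 0 + a * 0 : ℝ)⁻¹ = 2 := by norm_num
  rw [e] at h2
  refine h2.congr' ?_
  filter_upwards [eventually_gt_atTop 0] with m hm
  have hs := sq_pos hm
  have hmr : (0 : ℝ) < m := by exact_mod_cast hm
  have hss : Real.sqrt m * Real.sqrt m = m := Real.mul_self_sqrt hmr.le
  have : 1 / 2 + ((v m : ℝ) - m / 2) / Real.sqrt m * (Real.sqrt (m : ℝ))⁻¹ + a * ((m : ℝ))⁻¹ =
      ((v m : ℝ) + a) / m := by
    have e1 : ((v m : ℝ) - m / 2) / Real.sqrt m * (Real.sqrt (m : ℝ))⁻¹ = ((v m : ℝ) - m / 2) / m := by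
      rw [div_eq_mul_inv (((v m : ℝ) - m / 2)) (Real.sqrt (m : ℝ)), mul_assoc, ← mul_inv, hss,
        div_eq_mul_inv (((v m : ℝ) - m / 2)) (m : ℝ)]
    rw [e1]
    field_simp
    ring
  rw [this, inv_div]

end sumX

open sumX

theorem p_sum (h1 : S_loc) (h2 : S_bin) (h3 : S_dom) : S_sum := by
  obtain ⟨c, C, hc, hC, hdom⟩ := h3
  have hdom' : ∀ m v : ℕ, 0 < v → v < m → gg m v ≤ C * Real.exp (-c * ((v : ℝ) - m / 2) ^ 2 / m) :=
    fun m v hv hvm => hdom m v hv hvm
  -- pointwise limit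
  have hpt : ∀ t : ℝ, Tendsto (fun m : ℕ => FF m t) atTop
      (𝓝 (Real.sqrt (Real.pi / 2) * (64 / (77 * Real.pi ^ 2)) * Real.exp (-(18 / 7) * t ^ 2))) := by
    intro t
    set x : ℕ → ℝ := fun m => (m : ℝ) / 2 + t * Real.sqrt m with hxdef
    set v : ℕ → ℕ := fun m => min ⌊x m⌋₊ m with hvdef
    have hvle : ∀ m, v m ≤ m := fun m => min_le_right _ _
    have hev : ∀ᶠ m : ℕ in atTop, 0 < m ∧ 1 ≤ x m ∧ x m < m := by
      filter_upwards [tend_sqrt.eventually_ge_atTop (2 * |t| + 2), eventually_gt_atTop 0] with m hm hm0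
      have hs := sq_pos hm0
      have hmr : (0 : ℝ) < m := by exact_mod_cast hm0
      have hss : Real.sqrt m * Real.sqrt m = m := Real.mul_self_sqrt hmr.le
      have ha := abs_nonneg t
      have hb := neg_abs_le t
      have hc := le_abs_self t
      have hx : x m = Real.sqrt m * (Real.sqrt m / 2 + t) := by
        simp only [hxdef]
        rw [← hss]
        rw [hss]
        nlinarith
      refine ⟨hm0, ?_, ?_⟩
      · rw [hx]
        have h1 : 1 ≤ Real.sqrt m / 2 + t := by linarith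
        have h2 : 1 ≤ Real.sqrt m := by linarith
        nlinarith
      · have h1 : t < Real.sqrt m / 2 := by linarith
        have h2 : t * Real.sqrt m < Real.sqrt m / 2 * Real.sqrt m := mul_lt_mul_of_pos_right h1 hs
        simp only [hxdef]
        nlinarith
    have hev2 : ∀ᶠ m : ℕ in atTop, 0 < m ∧ 1 ≤ v m ∧ v m < m ∧ (v m : ℝ) ≤ x m ∧ x m < v m + 1 := by
      filter_upwards [hev] with m hm
      obtain ⟨hm0, h1x, hxm⟩ := hm
      have hf1 : 1 ≤ ⌊x m⌋₊ := Nat.le_floor (by exact_mod_cast h1x)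
      have hf2 : ⌊x m⌋₊ < m := (Nat.floor_lt (by linarith)).2 hxm
      have hvm : v m = ⌊x m⌋₊ := min_eq_left hf2.le
      rw [hvm]
      exact ⟨hm0, hf1, hf2, Nat.floor_le (by linarith), Nat.lt_floor_add_one _⟩
    have hvt : Tendsto (fun m : ℕ => ((v m : ℝ) - m / 2) / Real.sqrt m) atTop (𝓝 t) := by
      have hlow : Tendsto (fun m : ℕ => t - (Real.sqrt (m : ℝ))⁻¹) atTop (𝓝 t) := by
        have := (tendsto_const_nhds (x := t)).sub tend_inv
        simpa using this
      refine tendsto_of_tendsto_of_tendsto_of_le_of_le' hlow tendsto_const_nhds ?_ ?_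
      · filter_upwards [hev2] with m hm
        obtain ⟨hm0, _, _, hle, hlt⟩ := hm
        have hs := sq_pos hm0
        rw [le_div_iff₀ hs, sub_mul, inv_mul_cancel₀ hs.ne']
        simp only [hxdef] at hlt
        linarith
      · filter_upwards [hev2] with m hm
        obtain ⟨hm0, _, _, hle, hlt⟩ := hm
        have hs := sq_pos hm0
        rw [div_le_iff₀ hs]
        simp only [hxdef] at hle
        linarith
    set w : ℕ → ℕ := fun m => m - v m with hwdef
    have hwle : ∀ m, w m ≤ m := fun m => Nat.sub_le _ _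
    have hwt : Tendsto (fun m : ℕ => ((w m : ℝ) - m / 2) / Real.sqrt m) atTop (𝓝 (-t)) := by
      refine hvt.neg.congr fun m => ?_
      simp only [hwdef]
      rw [Nat.cast_sub (hvle m)]
      ring
    have hwv : ∀ m, m - w m = v m := fun m => by
      have := hvle m
      simp only [hwdef]
      omega
    have L1 := h1 t v hvle hvt
    have L2 := h1 (-t) w hwle hwt
    have L3 := h2 t v hvle hvt
    have L4 := tend_two 1 hvt
    have L5 := tend_two 2 hvt
    have L6 := tend_two 1 hwt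
    have L7 := tend_two 2 hwt
    have hne : Real.sqrt (2 / Real.pi) * Real.exp (-2 * t ^ 2) ≠ 0 := by
      have := Real.pi_pos
      positivity
    have L := (((L3.inv₀ hne).mul (((L4.mul L5).mul L6).mul L7)).mul L1).mul L2
    have hval : (Real.sqrt (2 / Real.pi) * Real.exp (-2 * t ^ 2))⁻¹ * (2 * 2 * 2 * 2) *
        (2 / (Real.pi * Real.sqrt 77) * Real.exp (-(16 / 7) * t ^ 2)) *
        (2 / (Real.pi * Real.sqrt 77) * Real.exp (-(16 / 7) * (-t) ^ 2)) =
        Real.sqrt (Real.pi / 2) * (64 / (77 * Real.pi ^ 2)) * Real.exp (-(18 / 7) * t ^ 2) := by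
      have hpi := Real.pi_pos
      have e1 : (Real.sqrt (2 / Real.pi))⁻¹ = Real.sqrt (Real.pi / 2) := by
        rw [← Real.sqrt_inv, inv_div]
      have e2 : (Real.exp (-2 * t ^ 2))⁻¹ = Real.exp (2 * t ^ 2) := by
        rw [← Real.exp_neg]
        congr 1
        ring
      have e3 : Real.exp (-(18 / 7) * t ^ 2) = Real.exp (2 * t ^ 2) * Real.exp (-(16 / 7) * t ^ 2) *
          Real.exp (-(16 / 7) * t ^ 2) := by
        rw [← Real.exp_add, ← Real.exp_add]
        congr 1
        ring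
      have e4 : Real.sqrt 77 ^ 2 = 77 := Real.sq_sqrt (by norm_num)
      have e5 : Real.sqrt 77 ≠ 0 := by positivity
      rw [mul_inv, e1, e2, e3, neg_sq]
      have e6 : (2 / (Real.pi * Real.sqrt 77)) * (2 / (Real.pi * Real.sqrt 77)) =
          4 / (77 * Real.pi ^ 2) := by
        have e7 : Real.pi * Real.sqrt 77 * (Real.pi * Real.sqrt 77) = 77 * Real.pi ^ 2 := by
          nlinarith [e4]
        rw [div_mul_div_comm, e7]
        norm_num
      calc Real.sqrt (Real.pi / 2) * Real.exp (2 * t ^ 2) * (2 * 2 * 2 * 2) *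
          (2 / (Real.pi * Real.sqrt 77) * Real.exp (-(16 / 7) * t ^ 2)) *
          (2 / (Real.pi * Real.sqrt 77) * Real.exp (-(16 / 7) * t ^ 2))
          = Real.sqrt (Real.pi / 2) * 16 *
            ((2 / (Real.pi * Real.sqrt 77)) * (2 / (Real.pi * Real.sqrt 77))) *
            (Real.exp (2 * t ^ 2) * Real.exp (-(16 / 7) * t ^ 2) * Real.exp (-(16 / 7) * t ^ 2)) := by
            ring
        _ = _ := by
            rw [e6]
            ring
    rw [hval] at L
    refine L.congr' ?_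
    filter_upwards [hev2] with m hm
    obtain ⟨hm0, h1v, hvm, hle, hlt⟩ := hm
    have hmem : v m ∈ Ico 1 m := Finset.mem_Ico.2 ⟨h1v, hvm⟩
    have htI : t ∈ Iv m (v m) := (mem_Iv hm0 t).2 ⟨hle, hlt⟩
    rw [FF_eq hmem htI, gg_eq hm0 (hvle m), hwv m]
  have hlim : Tendsto (fun m : ℕ => ∫ t, FF m t) atTop
      (𝓝 (∫ t, Real.sqrt (Real.pi / 2) * (64 / (77 * Real.pi ^ 2)) * Real.exp (-(18 / 7) * t ^ 2))) := by
    refine tendsto_integral_of_dominated_convergence
      (fun t => C * Real.exp c * Real.exp (-(c / 2) * t ^ 2)) ?_ ?_ ?_ ?_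
    · intro m
      exact (FF_meas m).aestronglyMeasurable
    · exact (integrable_exp_neg_mul_sq (by positivity)).const_mul _
    · intro m
      exact Eventually.of_forall (FF_bound hc hC hdom' m)
    · exact Eventually.of_forall hpt
  have hval : (∫ t, Real.sqrt (Real.pi / 2) * (64 / (77 * Real.pi ^ 2)) *
      Real.exp (-(18 / 7) * t ^ 2)) = 32 * Real.sqrt 7 / (231 * Real.pi) := by
    rw [integral_const_mul, integral_gaussian]
    have hpi := Real.pi_pos
    have e1 : Real.sqrt (Real.pi / 2) * Real.sqrt (Real.pi / (18 / 7)) = Real.pi * Real.sqrt 7 / 6 := by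
      rw [← Real.sqrt_mul (by positivity)]
      have : Real.pi / 2 * (Real.pi / (18 / 7)) = (Real.pi * Real.sqrt 7 / 6) ^ 2 := by
        rw [div_pow, mul_pow, Real.sq_sqrt (by norm_num)]
        ring
      rw [this, Real.sqrt_sq (by positivity)]
    calc Real.sqrt (Real.pi / 2) * (64 / (77 * Real.pi ^ 2)) * Real.sqrt (Real.pi / (18 / 7))
        = (64 / (77 * Real.pi ^ 2)) * (Real.sqrt (Real.pi / 2) * Real.sqrt (Real.pi / (18 / 7))) := by
          ring
      _ = _ := by
          rw [e1]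
          field_simp
          ring
  rw [hval] at hlim
  unfold S_sum
  refine hlim.congr' ?_
  filter_upwards [eventually_gt_atTop 0] with m hm
  exact FF_int hm

end Pool.Agent.ALM
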