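import Pool.Agent.Lib.MP_fc2a59_co.ALM.A.p_four
set_option autoImplicit false
namespace Pool.Agent.ALM
open Finset
open scoped Classical

namespace tlbX

lemma aa_le (h1 : S_ps) (g : ℝ) (hg : 1 < g) (hr : 0 < 4 / 3 * (1 - 1 / g ^ 2)) (c w : ℕ) :
    fourX.aa (4 / 3 * (1 - 1 / g ^ 2)) c w ≤ (g - 1) ^ c := by
  have hsum := h1.2.2.2.2 g hg
  have hb : ∀ n : ℕ, ∑ s ∈ range (n + 1), fourX.bb (4 / 3 * (1 - 1 / g ^ 2)) s ≤ g - 1 := by
    intro n
    have h2 := sum_le_hasSum (range (n + 1)) (fun s _ => mul_nonneg (fourX.ps_nonneg s)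
      (pow_nonneg hr.le s)) hsum
    rw [Finset.sum_range_succ'] at h2 ⊢
    have h3 : fourX.bb (4 / 3 * (1 - 1 / g ^ 2)) 0 = 0 := by simp [fourX.bb]
    have h4 : ps 0 * (4 / 3 * (1 - 1 / g ^ 2)) ^ 0 = 1 := by simp [ps]
    have h5 : ∑ k ∈ range n, fourX.bb (4 / 3 * (1 - 1 / g ^ 2)) (k + 1) =
        ∑ k ∈ range n, ps (k + 1) * (4 / 3 * (1 - 1 / g ^ 2)) ^ (k + 1) := by
      refine Finset.sum_congr rfl fun k _ => ?_
      unfold fourX.bb
      rw [if_neg (Nat.succ_ne_zero k)]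
    rw [h3, h5]
    linarith
  induction c generalizing w with
  | zero =>
    unfold fourX.aa co
    rw [pow_zero, pow_zero, PowerSeries.coeff_one]
    split_ifs with h
    · subst h; simp
    · simp
  | succ c ih =>
    rw [fourX.aa_succ]
    have hg1 : 0 ≤ (g - 1) ^ c := pow_nonneg (by linarith) c
    calc ∑ p ∈ antidiagonal w, fourX.aa (4 / 3 * (1 - 1 / g ^ 2)) c p.1 *
          fourX.bb (4 / 3 * (1 - 1 / g ^ 2)) p.2
        ≤ ∑ p ∈ antidiagonal w, (g - 1) ^ c * fourX.bb (4 / 3 * (1 - 1 / g ^ 2)) p.2 :=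
          Finset.sum_le_sum fun p _ => mul_le_mul_of_nonneg_right (ih p.1) (fourX.bb_nonneg hr p.2)
      _ = (g - 1) ^ c * ∑ s ∈ range (w + 1), fourX.bb (4 / 3 * (1 - 1 / g ^ 2)) s := by
          rw [← Finset.mul_sum, Finset.Nat.sum_antidiagonal_eq_sum_range_succ_mk,
            ← Finset.sum_range_reflect]
          congr 1
          refine Finset.sum_congr rfl fun s hs => ?_
          rw [mem_range] at hs
          congr 1
          simp only
          omega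
      _ ≤ (g - 1) ^ c * (g - 1) := mul_le_mul_of_nonneg_left (hb w) hg1
      _ = (g - 1) ^ (c + 1) := by rw [pow_succ]

lemma trinomialR (N : ℕ) (x : ℝ) :
    (1 + 2 * x) ^ N = ∑ c ∈ range (N + 1), ∑ c' ∈ range (N + 1 - c),
      (N.factorial : ℝ) / ((c.factorial : ℝ) * (c'.factorial : ℝ) * ((N - c - c').factorial : ℝ)) *
        (x ^ c * x ^ c') := by
  have h := fourX.trinomial N (x : ℂ) (x : ℂ)
  have h2 : (1 + (x : ℂ) + (x : ℂ)) ^ N = (((1 + 2 * x) ^ N : ℝ) : ℂ) := by push_cast; ring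
  have h3 : (∑ c ∈ range (N + 1), ∑ c' ∈ range (N + 1 - c),
      (N.factorial : ℂ) / ((c.factorial : ℂ) * (c'.factorial : ℂ) * ((N - c - c').factorial : ℂ)) *
        ((x : ℂ) ^ c * (x : ℂ) ^ c')) = ((∑ c ∈ range (N + 1), ∑ c' ∈ range (N + 1 - c),
      (N.factorial : ℝ) / ((c.factorial : ℝ) * (c'.factorial : ℝ) * ((N - c - c').factorial : ℝ)) *
        (x ^ c * x ^ c') : ℝ) : ℂ) := by push_cast; rfl
  rw [h2, h3] at h
  exact Complex.ofReal_injective h

end tlbX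

theorem p_tlb (h1 : S_ps) : S_tlb := by
  intro g N w hg
  have hg2 : 1 < g ^ 2 := by nlinarith
  have hr : 0 < 4 / 3 * (1 - 1 / g ^ 2) := by
    have : 1 / g ^ 2 < 1 := by rw [div_lt_one (by linarith)]; exact hg2
    linarith
  have hL := fourX.lhs_eq N w (4 / 3 * (1 - 1 / g ^ 2))
  set r : ℝ := 4 / 3 * (1 - 1 / g ^ 2) with hrdef
  have hrp : 0 < r ^ (2 * w) := pow_pos hr _
  have h3 : (0 : ℝ) < 3 ^ N := by positivity
  have hco : ∀ c c' : ℕ, 0 ≤ (N.factorial : ℝ) /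
      ((c.factorial : ℝ) * (c'.factorial : ℝ) * ((N - c - c').factorial : ℝ)) := fun c c' => by
    positivity
  have hnn : 0 ≤ PN N w * 3 ^ N * r ^ (2 * w) := by
    rw [hL]
    exact Finset.sum_nonneg fun c _ => Finset.sum_nonneg fun c' _ =>
      mul_nonneg (hco c c') (mul_nonneg (fourX.aa_nonneg hr c w) (fourX.aa_nonneg hr c' w))
  have hle : PN N w * 3 ^ N * r ^ (2 * w) ≤ (2 * g - 1) ^ N := by
    have h4 : (2 * g - 1) ^ N = (1 + 2 * (g - 1)) ^ N := by congr 1; ring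
    rw [hL, h4, tlbX.trinomialR]
    refine Finset.sum_le_sum fun c _ => Finset.sum_le_sum fun c' _ => ?_
    refine mul_le_mul_of_nonneg_left ?_ (hco c c')
    exact mul_le_mul (tlbX.aa_le h1 g hg hr c w) (tlbX.aa_le h1 g hg hr c' w)
      (fourX.aa_nonneg hr c' w) (pow_nonneg (by linarith) c)
  constructor
  · by_contra hneg
    push Not at hneg
    have : PN N w * 3 ^ N * r ^ (2 * w) < 0 :=
      mul_neg_of_neg_of_pos (mul_neg_of_neg_of_pos hneg h3) hrp
    linarith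
  · rw [le_div_iff₀ hrp, div_pow, le_div_iff₀ h3]
    calc PN N w * r ^ (2 * w) * 3 ^ N = PN N w * 3 ^ N * r ^ (2 * w) := by ring
      _ ≤ (2 * g - 1) ^ N := hle

end Pool.Agent.ALM
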