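import Pool.Agent.Lib.MP_fc2a59_co.ALM.A.Stm

set_option autoImplicit false

namespace Pool.Agent.ALM

open Finset
open scoped Classical

namespace ulbX

/-- Gaussian integral over an interval -/
lemma gauss {b : ℝ} (hb : 0 < b) :
    ∫ t in (-Real.pi)..Real.pi, Real.exp (-b * t ^ 2) ≤ Real.sqrt (Real.pi / b) := by
  have hpi := Real.pi_pos
  rw [intervalIntegral.integral_of_le (by linarith), ← integral_gaussian b]
  exact MeasureTheory.setIntegral_le_integral (integrable_exp_neg_mul_sq hb)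
    (Filter.Eventually.of_forall fun x => (Real.exp_pos _).le)

lemma exp1 (x : ℝ) : ‖Complex.exp (-Complex.I * (x : ℂ))‖ = 1 := by
  rw [Complex.norm_exp]
  simp

end ulbX

theorem p_ulb (h1 : S_four) (h2 : S_chb) : S_ulb := by
  intro g0 G hg0 hgG
  obtain ⟨c, hc, H⟩ := h2 g0 G hg0 hgG
  have hpi := Real.pi_pos
  refine ⟨1 / (4 * Real.pi * c), by positivity, ?_⟩
  intro g hg hG N w hN
  have hNr : (0 : ℝ) < N := by exact_mod_cast hN
  have hg1 : 1 < g := lt_of_lt_of_le hg0 hg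
  obtain ⟨r, hr⟩ : ∃ r : ℝ, r = 4 / 3 * (1 - 1 / g ^ 2) := ⟨_, rfl⟩
  have hgsq : 1 < g ^ 2 := by nlinarith
  have hinv : 1 / g ^ 2 < 1 := by
    rw [div_lt_one (by linarith)]; exact hgsq
  have hinv0 : 0 < 1 / g ^ 2 := by positivity
  have hr0 : 0 < r := by rw [hr]; linarith
  have hr1 : r < 4 / 3 := by rw [hr]; linarith
  have hb : 0 < c * N := by positivity
  have hK : 0 ≤ (2 * g - 1) ^ N := by
    apply pow_nonneg; linarith
  have key := h1 N w r hr0 hr1
  -- pointwise bound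
  have hpt : ∀ s t : ℝ, |s| ≤ Real.pi → |t| ≤ Real.pi →
      ‖(1 + E1 r s + E1 r t) ^ N * Complex.exp (-Complex.I * ((w : ℝ) * (s + t) : ℝ))‖ ≤
        (2 * g - 1) ^ N * Real.exp (-(c * N) * s ^ 2) * Real.exp (-(c * N) * t ^ 2) := by
    intro s t hs ht
    rw [norm_mul, ulbX.exp1, mul_one, norm_pow]
    have h3 := H g hg hG s t hs ht
    rw [← hr] at h3
    calc ‖1 + E1 r s + E1 r t‖ ^ N
        ≤ ((2 * g - 1) * Real.exp (-c * (s ^ 2 + t ^ 2))) ^ N :=
          pow_le_pow_left₀ (norm_nonneg _) h3 N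
      _ = (2 * g - 1) ^ N * Real.exp (-(c * N) * s ^ 2) * Real.exp (-(c * N) * t ^ 2) := by
          rw [mul_pow, ← Real.exp_nat_mul, mul_assoc, ← Real.exp_add]
          congr 2
          ring
  have habs : ∀ t : ℝ, t ∈ Set.Ioc (-Real.pi) Real.pi → |t| ≤ Real.pi := by
    intro t ht
    exact abs_le.mpr ⟨ht.1.le, ht.2⟩
  have hint : ∀ k : ℝ, IntervalIntegrable (fun t : ℝ => k * Real.exp (-(c * N) * t ^ 2))
      MeasureTheory.volume (-Real.pi) Real.pi := by
    intro k
    apply Continuous.intervalIntegrable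
    fun_prop
  -- inner integral
  have hin : ∀ s : ℝ, |s| ≤ Real.pi →
      ‖∫ t in (-Real.pi)..Real.pi,
        (1 + E1 r s + E1 r t) ^ N * Complex.exp (-Complex.I * ((w : ℝ) * (s + t) : ℝ))‖ ≤
        (2 * g - 1) ^ N * Real.sqrt (Real.pi / (c * N)) * Real.exp (-(c * N) * s ^ 2) := by
    intro s hs
    have h4 := intervalIntegral.norm_integral_le_of_norm_le (μ := MeasureTheory.volume)
      (f := fun t : ℝ => (1 + E1 r s + E1 r t) ^ N *
        Complex.exp (-Complex.I * ((w : ℝ) * (s + t) : ℝ)))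
      (g := fun t : ℝ => (2 * g - 1) ^ N * Real.exp (-(c * N) * s ^ 2) *
        Real.exp (-(c * N) * t ^ 2)) (a := -Real.pi) (b := Real.pi) (by linarith)
      (Filter.Eventually.of_forall fun t ht => hpt s t hs (habs t ht)) (hint _)
    refine h4.trans ?_
    rw [intervalIntegral.integral_const_mul]
    have h5 := ulbX.gauss hb
    have h6 : 0 ≤ (2 * g - 1) ^ N * Real.exp (-(c * N) * s ^ 2) := by positivity
    calc (2 * g - 1) ^ N * Real.exp (-(c * N) * s ^ 2) *
          ∫ x in (-Real.pi)..Real.pi, Real.exp (-(c * N) * x ^ 2)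
        ≤ (2 * g - 1) ^ N * Real.exp (-(c * N) * s ^ 2) * Real.sqrt (Real.pi / (c * N)) :=
          mul_le_mul_of_nonneg_left h5 h6
      _ = _ := by ring
  -- outer integral
  have hout : ‖∫ s in (-Real.pi)..Real.pi, ∫ t in (-Real.pi)..Real.pi,
        (1 + E1 r s + E1 r t) ^ N * Complex.exp (-Complex.I * ((w : ℝ) * (s + t) : ℝ))‖ ≤
        (2 * g - 1) ^ N * (Real.pi / (c * N)) := by
    have h4 := intervalIntegral.norm_integral_le_of_norm_le (μ := MeasureTheory.volume)
      (f := fun s : ℝ => ∫ t in (-Real.pi)..Real.pi, (1 + E1 r s + E1 r t) ^ N *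
        Complex.exp (-Complex.I * ((w : ℝ) * (s + t) : ℝ)))
      (g := fun s : ℝ => (2 * g - 1) ^ N * Real.sqrt (Real.pi / (c * N)) *
        Real.exp (-(c * N) * s ^ 2)) (a := -Real.pi) (b := Real.pi) (by linarith)
      (Filter.Eventually.of_forall fun s hs => hin s (habs s hs)) (hint _)
    refine h4.trans ?_
    rw [intervalIntegral.integral_const_mul]
    have h5 := ulbX.gauss hb
    have h6 : 0 ≤ (2 * g - 1) ^ N * Real.sqrt (Real.pi / (c * N)) := by positivity
    calc (2 * g - 1) ^ N * Real.sqrt (Real.pi / (c * N)) *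
          ∫ x in (-Real.pi)..Real.pi, Real.exp (-(c * N) * x ^ 2)
        ≤ (2 * g - 1) ^ N * Real.sqrt (Real.pi / (c * N)) * Real.sqrt (Real.pi / (c * N)) :=
          mul_le_mul_of_nonneg_left h5 h6
      _ = (2 * g - 1) ^ N * (Real.pi / (c * N)) := by
          rw [mul_assoc, Real.mul_self_sqrt (by positivity)]
  have hfin : PN N w * 3 ^ N * r ^ (2 * w) ≤ 1 / (4 * Real.pi ^ 2) *
      ((2 * g - 1) ^ N * (Real.pi / (c * N))) := by
    calc PN N w * 3 ^ N * r ^ (2 * w) ≤ |PN N w * 3 ^ N * r ^ (2 * w)| := le_abs_self _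
      _ = ‖((PN N w * 3 ^ N * r ^ (2 * w) : ℝ) : ℂ)‖ := by
          rw [Complex.norm_real, Real.norm_eq_abs]
      _ ≤ _ := by
          rw [key, norm_mul]
          have h7 : ‖(1 / (4 * Real.pi ^ 2 : ℝ) : ℂ)‖ = 1 / (4 * Real.pi ^ 2) := by
            rw [norm_div, Complex.norm_real, norm_one, Real.norm_of_nonneg (by positivity)]
          rw [h7]
          exact mul_le_mul_of_nonneg_left hout (by positivity)
  rw [← hr]
  have hr2 : 0 < r ^ (2 * w) := pow_pos hr0 _
  have h3N : (0 : ℝ) < 3 ^ N := by positivity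
  rw [le_div_iff₀ hr2, div_pow, mul_div_assoc']
  rw [le_div_iff₀ h3N]
  calc PN N w * r ^ (2 * w) * 3 ^ N = PN N w * 3 ^ N * r ^ (2 * w) := by ring
    _ ≤ _ := hfin
    _ = 1 / (4 * Real.pi * c) / N * (2 * g - 1) ^ N := by
        field_simp

end Pool.Agent.ALM
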